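import Mathlib

/-!
# Eisenstein series of a hyperbolic cylinder (MP_a92104_an): definitions and statements

The cylinder of length `ℓ` is `ℝ × AddCircle ℓ` with Fermi coordinates `(r, t)` and the metric
`dr² + cosh² r dt²`. In the funnel `r > 0` one has `ρ = 2 exp (-r)`, and the metric is
`ρ⁻² (dρ² + (1 + ρ² / 4)² dt²)`.
-/

set_option autoImplicit false

open Filter Topology MeasureTheory
open scoped Real

namespace Pool.Agent.R436.EC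

/-- `cosh` of the hyperbolic distance of the points with Fermi coordinates `(r, t)` and
`(r', t')` in the hyperbolic plane -/
noncomputable def cd (r t r' t' : ℝ) : ℝ :=
  Real.cosh r * Real.cosh r' * Real.cosh (t - t') - Real.sinh r * Real.sinh r'

/-- the kernel of `(Δ - s (1 - s))⁻¹` on the hyperbolic plane, as a function of
`u = sinh² (d / 2)`, where `d` is the distance -/
noncomputable def G (s : ℂ) (u : ℝ) : ℂ :=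
  (1 / (4 * (π : ℂ))) * ∫ x in (0 : ℝ)..1,
    (x : ℂ) ^ (s - 1) * (1 - (x : ℂ)) ^ (s - 1) * ((x + u : ℝ) : ℂ) ^ (-s)

/-- the resolvent kernel of the cylinder of length `ℓ`: sum over the deck transformations -/
noncomputable def RX (ℓ : ℝ) (s : ℂ) (r t r' t' : ℝ) : ℂ :=
  ∑' k : ℤ, G s ((cd r t r' (t' + (k : ℝ) * ℓ) - 1) / 2)

/-- `E` is the Eisenstein series for the point `ξ` at infinity of the funnel `r > 0` -/
def IsEis (ℓ : ℝ) (s : ℂ) (ξ : ℝ) (E : ℝ × AddCircle ℓ → ℂ) : Prop :=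
  ∀ r t : ℝ, Tendsto (fun ρ : ℝ => (ρ : ℂ) ^ (-s) * RX ℓ s r t (Real.log (2 / ρ)) ξ)
    (𝓝[>] 0) (𝓝 (E (r, (t : AddCircle ℓ))))

/-- nodal domains -/
def NodalDomain {X : Type} [TopologicalSpace X] (F : X → ℝ) (D : Set X) : Prop :=
  ∃ z, F z ≠ 0 ∧ D = connectedComponentIn {y | F y ≠ 0} z

/-- connected components of the nodal set -/
def NodalComp {X : Type} [TopologicalSpace X] (F : X → ℝ) (C : Set X) : Prop :=
  ∃ z, F z = 0 ∧ C = connectedComponentIn {y | F y = 0} z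

/-- infinitely many compact nodal domains -/
def InfDom (ℓ : ℝ) (F : ℝ × AddCircle ℓ → ℝ) : Prop :=
  {D : Set (ℝ × AddCircle ℓ) | NodalDomain F D ∧ IsCompact (closure D)}.Infinite

/-- compact components of the nodal set outside of every compact set -/
def Escape (ℓ : ℝ) (F : ℝ × AddCircle ℓ → ℝ) : Prop :=
  ∀ K : Set (ℝ × AddCircle ℓ), IsCompact K → ∃ C, NodalComp F C ∧ IsCompact C ∧ ¬ C ⊆ K

/-- final statement -/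
def S_MAIN : Prop := ∀ ℓ : ℝ, 0 < ℓ → ∃ lam0 : ℝ, 0 < lam0 ∧ ∀ lam : ℝ, 0 < lam → lam ≤ lam0 →
  ∀ ξ : ℝ, ∃ E : ℝ × AddCircle ℓ → ℂ, IsEis ℓ (1 / 2 + (lam : ℂ) * Complex.I) ξ E ∧
    Continuous E ∧ InfDom ℓ (fun z => (E z).re) ∧ Escape ℓ (fun z => (E z).re)

/-! ## pieces -/

/-- the limit of `ρ cosh d` -/
noncomputable def W (r τ : ℝ) : ℝ := Real.cosh r * Real.cosh τ - Real.sinh r

/-- EC-TOP -/
def S_TOP : Prop := ∀ ℓ : ℝ, 0 < ℓ → ∀ F : ℝ × AddCircle ℓ → ℝ, Continuous F → ∀ p : ℕ → ℝ,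
  StrictMono p → Tendsto p atTop atTop → (∀ n θ, 0 < (-1 : ℝ) ^ n * F (-p n, θ)) →
  InfDom ℓ F ∧ Escape ℓ F

/-- EC-LIM -/
def S_LIM : Prop := ∀ ℓ : ℝ, 0 < ℓ → ∀ s : ℂ, 0 < s.re → ∀ ξ r t : ℝ,
  Tendsto (fun ρ : ℝ => (ρ : ℂ) ^ (-s) * RX ℓ s r t (Real.log (2 / ρ)) ξ) (𝓝[>] 0)
    (𝓝 ((1 / (4 * (π : ℂ))) * Complex.betaIntegral s s * (2 : ℂ) ^ s *
      ∑' k : ℤ, ((W r (t - (ξ + (k : ℝ) * ℓ)) : ℝ) : ℂ) ^ (-s)))

/-- EC-CONT -/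
def S_CONT : Prop := ∀ ℓ : ℝ, 0 < ℓ → ∀ s : ℂ, 0 < s.re → ∀ ξ : ℝ,
  ∃ E : ℝ × AddCircle ℓ → ℂ, Continuous E ∧
    ∀ r t : ℝ, E (r, (t : AddCircle ℓ)) = ∑' k : ℤ, ((W r (t - (ξ + (k : ℝ) * ℓ)) : ℝ) : ℂ) ^ (-s)

/-- EC-ASY -/
def S_ASY : Prop := ∀ ℓ : ℝ, 0 < ℓ → ∃ lam0 : ℝ, 0 < lam0 ∧ ∀ lam : ℝ, 0 < lam → lam ≤ lam0 →
  ∀ ξ r t : ℝ, r ≤ 0 → ∃ A : ℂ, 0 < A.re ∧
    ∑' k : ℤ, ((W r (t - (ξ + (k : ℝ) * ℓ)) : ℝ) : ℂ) ^ (-(1 / 2 + (lam : ℂ) * Complex.I)) =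
      ((Real.exp (-r) / 2 : ℝ) : ℂ) ^ (-(1 / 2 + (lam : ℂ) * Complex.I)) * A

end Pool.Agent.R436.EC
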