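import Mathlib
import Pool.Agent.R436.EC.Stm

/-!
# EC: the kernel `G` is the kernel of `(Δ - s (1 - s))⁻¹` on the hyperbolic plane (statements)

Fermi coordinates `(r, t)`, metric `dr² + cosh² r dt²`, area `cosh r dr dt`.
-/

set_option autoImplicit false

open Filter Topology MeasureTheory
open scoped Real

namespace Pool.Agent.R436.EC

/-- partial derivatives -/
noncomputable def dr (φ : ℝ × ℝ → ℂ) (z : ℝ × ℝ) : ℂ := deriv (fun x : ℝ => φ (x, z.2)) z.1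

/-- partial derivatives -/
noncomputable def dt (φ : ℝ × ℝ → ℂ) (z : ℝ × ℝ) : ℂ := deriv (fun x : ℝ => φ (z.1, x)) z.2

/-- the operator `Δ - s (1 - s)`, where `Δ` is the nonnegative Laplace operator of the hyperbolic
plane in Fermi coordinates -/
noncomputable def Lop (s : ℂ) (φ : ℝ × ℝ → ℂ) (z : ℝ × ℝ) : ℂ :=
  -(dr (dr φ) z + ((Real.tanh z.1 : ℝ) : ℂ) * dr φ z +
    (((Real.cosh z.1 ^ 2)⁻¹ : ℝ) : ℂ) * dt (dt φ) z) - s * (1 - s) * φ z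

/-- RES: `G` is the kernel of `(Δ - s (1 - s))⁻¹` on the hyperbolic plane -/
def S_RES : Prop := ∀ s : ℂ, 0 < s.re → ∀ φ : ℝ × ℝ → ℂ, ContDiff ℝ 2 φ → HasCompactSupport φ →
  ∀ r t : ℝ, ∫ z : ℝ × ℝ, G s ((cd r t z.1 z.2 - 1) / 2) * Lop s φ z * ((Real.cosh z.1 : ℝ) : ℂ) =
    φ (r, t)

/-- UNF: `RX` is the kernel of `(Δ - s (1 - s))⁻¹` on the cylinder -/
def S_UNF : Prop := ∀ l : ℝ, 0 < l → ∀ s : ℂ, 0 < s.re → ∀ φ : ℝ × ℝ → ℂ, ContDiff ℝ 2 φ →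
  (∀ r t : ℝ, φ (r, t + l) = φ (r, t)) → (∃ R : ℝ, ∀ r t : ℝ, R < |r| → φ (r, t) = 0) →
  ∀ r t : ℝ, ∫ r' : ℝ, ∫ t' in (0 : ℝ)..l,
    RX l s r t r' t' * Lop s φ (r', t') * ((Real.cosh r' : ℝ) : ℂ) = φ (r, t)

/-- the integrals which give the derivatives of `G` -/
noncomputable def J (s : ℂ) (a : ℕ) (u : ℝ) : ℂ :=
  (1 / (4 * (π : ℂ))) * ∫ x in (0 : ℝ)..1,
    (x : ℂ) ^ (s - 1) * (1 - (x : ℂ)) ^ (s - 1) * ((x + u : ℝ) : ℂ) ^ (-s - (a : ℂ))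

/-- first derivative of `G s` -/
noncomputable def G1 (s : ℂ) (u : ℝ) : ℂ := -s * J s 1 u

/-- second derivative of `G s` -/
noncomputable def G2 (s : ℂ) (u : ℝ) : ℂ := s * (s + 1) * J s 2 u

/-- EC-ODE -/
def S_ODE : Prop := ∀ s : ℂ, 0 < s.re → ∀ u : ℝ, 0 < u →
  HasDerivAt (G s) (G1 s u) u ∧ HasDerivAt (G1 s) (G2 s u) u ∧ ContinuousAt (G2 s) u ∧
  (u : ℂ) * ((u : ℂ) + 1) * G2 s u + (2 * (u : ℂ) + 1) * G1 s u = s * (s - 1) * G s u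

/-- EC-SING -/
def S_SING : Prop := ∀ s : ℂ, 0 < s.re →
  Tendsto (fun u : ℝ => (u : ℂ) * G1 s u) (𝓝[>] 0) (𝓝 (-1 / (4 * (π : ℂ)))) ∧
  Tendsto (fun u : ℝ => (u : ℂ) ^ 2 * G2 s u) (𝓝[>] 0) (𝓝 (1 / (4 * (π : ℂ)))) ∧
  ∀ b : ℝ, 0 < b → ∃ C : ℝ, ∀ u : ℝ, 0 < u → u ≤ b →
    ‖G s u‖ ≤ C * (1 + |Real.log u|) ∧ ‖(u : ℂ) * G1 s u‖ ≤ C ∧ ‖(u : ℂ) ^ 2 * G2 s u‖ ≤ C

/-- `(Δ - s (1 - s))` applied to the shifted kernel `w ↦ G s (u (z, w) + ε)` -/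
noncomputable def kk (s : ℂ) (ε u : ℝ) : ℂ :=
  (ε : ℂ) * (2 * (u : ℂ) + 1 + (ε : ℂ)) * G2 s (u + ε) + 2 * (ε : ℂ) * G1 s (u + ε)

/-- EC-IBP -/
def S_IBP : Prop := ∀ s : ℂ, 0 < s.re → ∀ φ : ℝ × ℝ → ℂ, ContDiff ℝ 2 φ → HasCompactSupport φ →
  ∀ r t ε : ℝ, 0 < ε →
    ∫ z : ℝ × ℝ, G s ((cd r t z.1 z.2 - 1) / 2 + ε) * Lop s φ z * ((Real.cosh z.1 : ℝ) : ℂ) =
      ∫ z : ℝ × ℝ, kk s ε ((cd r t z.1 z.2 - 1) / 2) * φ z * ((Real.cosh z.1 : ℝ) : ℂ)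

/-- EC-APX -/
def S_APX : Prop := ∀ s : ℂ, 0 < s.re → ∀ φ : ℝ × ℝ → ℂ, Continuous φ → HasCompactSupport φ →
  ∀ r t : ℝ, Tendsto (fun ε : ℝ => ∫ z : ℝ × ℝ, kk s ε ((cd r t z.1 z.2 - 1) / 2) * φ z *
    ((Real.cosh z.1 : ℝ) : ℂ)) (𝓝[>] 0) (𝓝 (φ (r, t)))

/-- EC-LG -/
def S_LG : Prop := ∀ s : ℂ, 0 < s.re → ∀ ψ : ℝ × ℝ → ℂ, Continuous ψ → HasCompactSupport ψ →
  ∀ r t : ℝ, Tendsto (fun ε : ℝ => ∫ z : ℝ × ℝ, G s ((cd r t z.1 z.2 - 1) / 2 + ε) * ψ z)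
    (𝓝[>] 0) (𝓝 (∫ z : ℝ × ℝ, G s ((cd r t z.1 z.2 - 1) / 2) * ψ z))

/-- EC-CDL: geometry of `cd` -/
def S_CD : Prop := ∀ r t : ℝ, (∀ r' t' : ℝ,
    (r - r') ^ 2 / 4 + (t - t') ^ 2 / 4 ≤ (cd r t r' t' - 1) / 2) ∧
  ∀ a b : ℝ, Tendsto (fun δ : ℝ => (cd r t (r + δ * a) (t + δ * b) - 1) / 2 / δ ^ 2) (𝓝[>] 0)
    (𝓝 ((a ^ 2 + Real.cosh r ^ 2 * b ^ 2) / 4))

end Pool.Agent.R436.EC
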