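import Mathlib
import Pool.Agent.R436.EC.Stm2

/-!
# EC, part 3: continuation and decay of the kernel `RX` (statements)
-/

set_option autoImplicit false

open Filter Topology MeasureTheory
open scoped Real

namespace Pool.Agent.R436.EC

/-- EC-ANAG: `G s u` is holomorphic in `s`, with locally uniform bounds -/
def S_ANAG : Prop := (∀ u : ℝ, 0 < u → DifferentiableOn ℂ (fun s : ℂ => G s u) {s : ℂ | 0 < s.re}) ∧
  ∀ a b : ℝ, 0 < a → a ≤ b → ∃ C : ℝ, ∀ s : ℂ, a ≤ s.re → s.re ≤ b → ∀ u : ℝ, 0 < u →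
    ‖G s u‖ ≤ C * (u ^ (-a) + u ^ (-b))

/-- EC-ANA: `RX` is holomorphic in `s` for `Re s > 0` outside of the diagonal -/
def S_ANA : Prop := ∀ l : ℝ, 0 < l → ∀ r t r' t' : ℝ, (∀ k : ℤ, (r, t) ≠ (r', t' + (k : ℝ) * l)) →
  DifferentiableOn ℂ (fun s : ℂ => RX l s r t r' t') {s : ℂ | 0 < s.re}

/-- EC-DEC: decay of `RX` in the funnels; in particular it is square integrable there with
respect to the area `cosh r' dr' dt'` if `Re s > 1/2` -/
def S_DEC : Prop := ∀ l : ℝ, 0 < l → ∀ s : ℂ, 0 < s.re → ∀ r t : ℝ, ∃ C R : ℝ,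
  ∀ r' t' : ℝ, R ≤ |r'| → ‖RX l s r t r' t'‖ ≤ C * Real.exp (-(s.re * |r'|))

end Pool.Agent.R436.EC
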