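import Mathlib
import Pool.Agent.R436.EC.Stm3

set_option autoImplicit false

open Filter Topology MeasureTheory
open scoped Real

namespace Pool.Agent.R436.EC

namespace AnaAux

theorem summ (a : ℝ) (ha : 0 < a) : Summable fun j : ℤ => Real.exp (-(a * |(j : ℝ)|)) := by
  have h : Summable fun n : ℕ => Real.exp (n * (-a)) :=
    Real.summable_exp_nat_mul_iff.2 (by linarith)
  refine Summable.of_nat_of_neg (f := fun j : ℤ => Real.exp (-(a * |(j : ℝ)|))) ?_ ?_
  · refine h.congr fun n => ?_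
    congr 1
    rw [Int.cast_natCast, abs_of_nonneg (Nat.cast_nonneg n)]
    ring
  · refine h.congr fun n => ?_
    congr 1
    rw [Int.cast_neg, Int.cast_natCast, abs_neg, abs_of_nonneg (Nat.cast_nonneg n)]
    ring

theorem sinh_lower (y : ℝ) (hy : 0 ≤ y) : y * Real.exp (y / 2) / 4 ≤ Real.sinh y := by
  rw [Real.sinh_eq]
  have h1 : 1 + 2 * y ≤ Real.exp (2 * y) := by
    have := Real.add_one_le_exp (2 * y); linarith
  have h2 : 1 + y / 2 ≤ Real.exp (y / 2) := by
    have := Real.add_one_le_exp (y / 2); linarith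
  have e1 : Real.exp y = Real.exp (y / 2) * Real.exp (y / 2) := by
    rw [← Real.exp_add]; ring_nf
  have e2 : Real.exp (2 * y) * Real.exp (-y) = Real.exp y := by
    rw [← Real.exp_add]; ring_nf
  have hp := Real.exp_pos (-y)
  have hq := Real.exp_pos (y / 2)
  have hpe := Real.exp_pos y
  -- exp(-y) (1 + 2y) <= exp y
  have h3 : Real.exp (-y) * (1 + 2 * y) ≤ Real.exp y := by
    rw [← e2]; nlinarith
  -- y exp(y/2)/4 <= y exp(y) / (4 + 2 y)
  have h4 : Real.exp (y / 2) * (1 + y / 2) ≤ Real.exp y := by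
    rw [e1]; nlinarith
  have h5 : Real.exp (-y) ≤ Real.exp y / (1 + 2 * y) := by
    rw [le_div_iff₀ (by linarith)]; exact h3
  have h6 : Real.exp (y / 2) ≤ Real.exp y / (1 + y / 2) := by
    rw [le_div_iff₀ (by linarith)]; exact h4
  have h7 : y * Real.exp (y / 2) / 4 ≤ y * (Real.exp y / (1 + y / 2)) / 4 := by
    have := mul_le_mul_of_nonneg_left h6 hy
    linarith
  have h8 : y * (Real.exp y / (1 + y / 2)) / 4 ≤ (Real.exp y - Real.exp y / (1 + 2 * y)) / 2 := by
    have e3 : (Real.exp y - Real.exp y / (1 + 2 * y)) / 2 = Real.exp y * (y / (1 + 2 * y)) := by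
      field_simp; ring
    have e4 : y * (Real.exp y / (1 + y / 2)) / 4 = Real.exp y * (y / (4 + 2 * y)) := by
      field_simp; ring
    rw [e3, e4]
    refine mul_le_mul_of_nonneg_left ?_ hpe.le
    exact div_le_div_of_nonneg_left hy (by linarith) (by linarith)
  linarith

theorem u_lower (r t r' t' : ℝ) :
    |t' - t| ^ 2 * Real.exp (|t' - t| / 2) / 64 ≤ (cd r t r' t' - 1) / 2 := by
  set y := |t' - t| / 2 with hy
  have hy0 : 0 ≤ y := by positivity
  have h1 : Real.sinh y ^ 2 ≤ (cd r t r' t' - 1) / 2 := by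
    have hc : Real.cosh (t - t') = 1 + 2 * Real.sinh y ^ 2 := by
      have e : Real.cosh (t - t') = Real.cosh (2 * y) := by
        rw [hy, mul_div_cancel₀ _ (two_ne_zero), Real.cosh_abs, ← Real.cosh_neg, neg_sub]
      rw [e, Real.cosh_two_mul, Real.cosh_sq]; ring
    have h2 : Real.cosh r * Real.cosh r' - Real.sinh r * Real.sinh r' = Real.cosh (r - r') := by
      rw [Real.cosh_sub]
    have h3 := Real.one_le_cosh (r - r')
    have h4 : 1 ≤ Real.cosh r * Real.cosh r' :=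
      one_le_mul_of_one_le_of_one_le (Real.one_le_cosh r) (Real.one_le_cosh r')
    unfold cd
    rw [hc]
    nlinarith [sq_nonneg (Real.sinh y)]
  refine le_trans ?_ h1
  have h5 := sinh_lower y hy0
  have h6 : (y * Real.exp (y / 2) / 4) ^ 2 ≤ Real.sinh y ^ 2 := by
    gcongr
  refine le_trans (le_of_eq ?_) h6
  have e : Real.exp (|t' - t| / 2) = Real.exp (y / 2) ^ 2 := by
    rw [← Real.exp_nat_mul]; congr 1; rw [hy]; push_cast; ring
  rw [e, hy]
  ring

theorem fin_set (l : ℝ) (hl : 0 < l) (x : ℝ) : {k : ℤ | |x + (k : ℝ) * l| < 8}.Finite := by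
  refine (Set.finite_Icc (-⌈(8 + |x|) / l⌉) ⌈(8 + |x|) / l⌉).subset ?_
  intro k hk
  rw [Set.mem_ofPred_eq] at hk
  have h1 : |(k : ℝ)| * l ≤ 8 + |x| := by
    have h : |(k : ℝ) * l| ≤ |x + (k : ℝ) * l| + |x| := by
      have h0 := norm_sub_le (x + (k : ℝ) * l) x
      rw [add_sub_cancel_left] at h0
      simpa only [Real.norm_eq_abs] using h0
    rw [abs_mul, abs_of_pos hl] at h
    linarith
  have h2 : |(k : ℝ)| ≤ (8 + |x|) / l := by rwa [le_div_iff₀ hl]
  have h4 : |(k : ℝ)| ≤ ((⌈(8 + |x|) / l⌉ : ℤ) : ℝ) := h2.trans (Int.le_ceil _)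
  rw [abs_le] at h4
  constructor
  · exact_mod_cast h4.1
  · exact_mod_cast h4.2

theorem sum_bd (l : ℝ) (hl : 0 < l) (r t r' t' a b : ℝ) (ha : 0 < a) (hab : a ≤ b) :
    Summable fun k : ℤ => ((cd r t r' (t' + (k : ℝ) * l) - 1) / 2) ^ (-a) +
      ((cd r t r' (t' + (k : ℝ) * l) - 1) / 2) ^ (-b) := by
  have hs : Summable fun k : ℤ => 2 * Real.exp (a * |t' - t| / 2) *
      Real.exp (-(a * l / 2 * |(k : ℝ)|)) :=
    (summ (a * l / 2) (by positivity)).mul_left _
  refine Summable.of_norm_bounded_eventually hs ?_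
  have hfin := fin_set l hl (t' - t)
  filter_upwards [hfin.compl_mem_cofinite] with k hk
  have hk' : 8 ≤ |(t' - t) + (k : ℝ) * l| := not_lt.mp hk
  set u := (cd r t r' (t' + (k : ℝ) * l) - 1) / 2 with hu
  have h1 := u_lower r t r' (t' + (k : ℝ) * l)
  have e : t' + (k : ℝ) * l - t = (t' - t) + (k : ℝ) * l := by ring
  rw [e, ← hu] at h1
  have h5 : |(k : ℝ)| * l - |t' - t| ≤ |(t' - t) + (k : ℝ) * l| := by
    have h0 := norm_sub_le ((t' - t) + (k : ℝ) * l) (t' - t)
    rw [add_sub_cancel_left] at h0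
    simp only [Real.norm_eq_abs] at h0
    rw [abs_mul, abs_of_pos hl] at h0
    linarith
  set τ := |(t' - t) + (k : ℝ) * l| with hτ
  have h2 : Real.exp (τ / 2) ≤ u := by
    refine le_trans ?_ h1
    have h64 : (64 : ℝ) ≤ τ ^ 2 := by nlinarith
    have hp := Real.exp_pos (τ / 2)
    rw [le_div_iff₀ (by norm_num)]
    nlinarith
  have hu1 : 1 ≤ u := (Real.one_le_exp (by positivity)).trans h2
  have h3 : u ^ (-b) ≤ u ^ (-a) := Real.rpow_le_rpow_of_exponent_le hu1 (by linarith)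
  have h4 : u ^ (-a) ≤ Real.exp (-(a * (τ / 2))) := by
    have h : u ^ (-a) ≤ (Real.exp (τ / 2)) ^ (-a) :=
      Real.rpow_le_rpow_of_nonpos (Real.exp_pos _) h2 (by linarith)
    rw [← Real.exp_mul] at h
    refine h.trans (le_of_eq ?_)
    congr 1
    ring
  have h6 : Real.exp (-(a * (τ / 2))) ≤
      Real.exp (a * |t' - t| / 2) * Real.exp (-(a * l / 2 * |(k : ℝ)|)) := by
    rw [← Real.exp_add]
    apply Real.exp_le_exp.mpr
    nlinarith [mul_le_mul_of_nonneg_left h5 ha.le]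
  have hu0 : 0 ≤ u := by linarith
  have h7 : 0 ≤ u ^ (-a) := Real.rpow_nonneg hu0 _
  have h8 : 0 ≤ u ^ (-b) := Real.rpow_nonneg hu0 _
  rw [Real.norm_eq_abs, abs_of_nonneg (by linarith)]
  linarith

end AnaAux

theorem ana (hA : S_ANAG) (hC : S_CD) : S_ANA := by
  intro l hl r t r' t' hne s0 hs0
  have hs0' : 0 < s0.re := hs0
  have hpos : ∀ k : ℤ, 0 < (cd r t r' (t' + (k : ℝ) * l) - 1) / 2 := by
    intro k
    have h1 := (hC r t).1 r' (t' + (k : ℝ) * l)
    refine lt_of_lt_of_le ?_ h1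
    by_contra h
    have h2 : (r - r') ^ 2 = 0 := by
      nlinarith [sq_nonneg (r - r'), sq_nonneg (t - (t' + (k : ℝ) * l))]
    have h3 : (t - (t' + (k : ℝ) * l)) ^ 2 = 0 := by
      nlinarith [sq_nonneg (r - r'), sq_nonneg (t - (t' + (k : ℝ) * l))]
    apply hne k
    rw [Prod.mk.injEq]
    exact ⟨sub_eq_zero.mp (pow_eq_zero_iff two_ne_zero |>.mp h2),
      sub_eq_zero.mp (pow_eq_zero_iff two_ne_zero |>.mp h3)⟩
  obtain ⟨C, hCb⟩ := hA.2 (s0.re / 2) (s0.re + 1) (by linarith) (by linarith)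
  have hUo : IsOpen {s : ℂ | s0.re / 2 < s.re ∧ s.re < s0.re + 1} :=
    (isOpen_lt continuous_const Complex.continuous_re).inter
      (isOpen_lt Complex.continuous_re continuous_const)
  have hmem : s0 ∈ {s : ℂ | s0.re / 2 < s.re ∧ s.re < s0.re + 1} :=
    ⟨by linarith, by linarith⟩
  have hd : DifferentiableOn ℂ
      (fun s : ℂ => ∑' k : ℤ, G s ((cd r t r' (t' + (k : ℝ) * l) - 1) / 2))
      {s : ℂ | s0.re / 2 < s.re ∧ s.re < s0.re + 1} := by
    refine Complex.differentiableOn_tsum_of_summable_norm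
      ((AnaAux.sum_bd l hl r t r' t' (s0.re / 2) (s0.re + 1) (by linarith)
        (by linarith)).mul_left C) ?_ hUo ?_
    · intro k
      exact (hA.1 _ (hpos k)).mono fun s hs => lt_trans (by linarith) hs.1
    · intro k s hs
      exact hCb s hs.1.le hs.2.le _ (hpos k)
  exact (hd.differentiableAt (hUo.mem_nhds hmem)).differentiableWithinAt

end Pool.Agent.R436.EC
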