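import Pool.Agent.R436.EC.Stm3

/-!
# EC-ANAG: `G s u` is holomorphic in `s`, with locally uniform bounds
-/

set_option autoImplicit false

open Filter Topology MeasureTheory
open scoped Real

namespace Pool.Agent.R436.EC

namespace AnaGAux

noncomputable def FF (u : ℝ) (s : ℂ) (x : ℝ) : ℂ :=
  (x : ℂ) ^ (s - 1) * (1 - (x : ℂ)) ^ (s - 1) * ((x + u : ℝ) : ℂ) ^ (-s)

noncomputable def FD (u : ℝ) (s : ℂ) (x : ℝ) : ℂ :=
  ((x : ℂ) ^ (s - 1) * Complex.log (x : ℂ) * 1 * (1 - (x : ℂ)) ^ (s - 1) +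
    (x : ℂ) ^ (s - 1) * ((1 - (x : ℂ)) ^ (s - 1) * Complex.log (1 - (x : ℂ)) * 1)) *
      ((x + u : ℝ) : ℂ) ^ (-s) +
    (x : ℂ) ^ (s - 1) * (1 - (x : ℂ)) ^ (s - 1) *
      (((x + u : ℝ) : ℂ) ^ (-s) * Complex.log ((x + u : ℝ) : ℂ) * (-1))

noncomputable def KK (a : ℝ) (x : ℝ) : ℝ :=
  ‖(x : ℂ) ^ ((a : ℂ) - 1) * (1 - (x : ℂ)) ^ ((a : ℂ) - 1)‖

theorem KK_int (a : ℝ) (ha : 0 < a) : IntervalIntegrable (KK a) volume 0 1 :=
  (Complex.betaIntegral_convergent (u := (a : ℂ)) (v := (a : ℂ)) (by simpa using ha)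
    (by simpa using ha)).norm

theorem hasD {u : ℝ} (hu : 0 < u) {x : ℝ} (h0 : 0 < x) (h1 : x < 1) (s : ℂ) :
    HasDerivAt (fun s => FF u s x) (FD u s x) s := by
  have e1 : (x : ℂ) ≠ 0 := by exact_mod_cast h0.ne'
  have e2 : (1 - (x : ℂ)) ≠ 0 := by
    have : ((1 - x : ℝ) : ℂ) ≠ 0 := by exact_mod_cast (by linarith : (1 : ℝ) - x ≠ 0)
    simpa using this
  have e3 : ((x + u : ℝ) : ℂ) ≠ 0 := by exact_mod_cast (by linarith : x + u ≠ 0)
  have d0 : HasDerivAt (fun s : ℂ => s - 1) 1 s := (hasDerivAt_id s).sub_const 1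
  have d1 := d0.const_cpow (c := (x : ℂ)) (Or.inl e1)
  have d2 := d0.const_cpow (c := 1 - (x : ℂ)) (Or.inl e2)
  have d3 := (hasDerivAt_neg s).const_cpow (c := ((x + u : ℝ) : ℂ)) (Or.inl e3)
  exact (d1.mul d2).mul d3

theorem nrm_le {u : ℝ} (hu : 0 < u) {x : ℝ} (h0 : 0 < x) (h1 : x < 1) {s : ℂ} {a b : ℝ} (ha : 0 < a)
    (has : a ≤ s.re) (hsb : s.re ≤ b) : ‖FF u s x‖ ≤ KK a x * (u ^ (-a) + u ^ (-b)) := by
  have hx1 : (0 : ℝ) < 1 - x := by linarith
  have hc : (1 - (x : ℂ)) = ((1 - x : ℝ) : ℂ) := by push_cast; rfl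
  unfold FF KK
  rw [norm_mul, norm_mul, norm_mul, hc, Complex.norm_cpow_eq_rpow_re_of_pos h0,
    Complex.norm_cpow_eq_rpow_re_of_pos hx1, Complex.norm_cpow_eq_rpow_re_of_pos (by linarith : 0 < x + u),
    Complex.norm_cpow_eq_rpow_re_of_pos h0, Complex.norm_cpow_eq_rpow_re_of_pos hx1]
  simp only [Complex.sub_re, Complex.one_re, Complex.ofReal_re, Complex.neg_re]
  have i1 : x ^ (s.re - 1) ≤ x ^ (a - 1) := Real.rpow_le_rpow_of_exponent_ge h0 h1.le (by linarith)
  have i2 : (1 - x) ^ (s.re - 1) ≤ (1 - x) ^ (a - 1) :=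
    Real.rpow_le_rpow_of_exponent_ge hx1 (by linarith) (by linarith)
  have i3 : (x + u) ^ (-s.re) ≤ u ^ (-s.re) :=
    Real.rpow_le_rpow_of_nonpos hu (by linarith) (by linarith)
  have i4 : u ^ (-s.re) ≤ u ^ (-a) + u ^ (-b) := by
    have p1 : 0 < u ^ (-a) := Real.rpow_pos_of_pos hu _
    have p2 : 0 < u ^ (-b) := Real.rpow_pos_of_pos hu _
    rcases le_total 1 u with h | h
    · have := Real.rpow_le_rpow_of_exponent_le h (by linarith : -s.re ≤ -a)
      linarith
    · have := Real.rpow_le_rpow_of_exponent_ge hu h (by linarith : -b ≤ -s.re)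
      linarith
  have q1 : 0 ≤ x ^ (a - 1) := Real.rpow_nonneg h0.le _
  have q2 : 0 ≤ (1 - x) ^ (s.re - 1) := Real.rpow_nonneg hx1.le _
  have q3 : 0 ≤ (x + u) ^ (-s.re) := Real.rpow_nonneg (by linarith) _
  have q4 : 0 ≤ (1 - x) ^ (a - 1) := Real.rpow_nonneg hx1.le _
  exact mul_le_mul (mul_le_mul i1 i2 q2 q1) (i3.trans i4) q3 (mul_nonneg q1 q4)

theorem FF_meas (u : ℝ) (s : ℂ) : Measurable (FF u s) := by
  unfold FF
  fun_prop

theorem FD_meas (u : ℝ) (s : ℂ) : Measurable (FD u s) := by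
  unfold FD
  fun_prop

theorem ae_ne_one : ∀ᵐ t : ℝ ∂volume, t ≠ 1 := by
  rw [ae_iff]
  simp

end AnaGAux

open AnaGAux

theorem anag : S_ANAG := by
  refine ⟨fun u hu => ?_, fun a b ha _ => ?_⟩
  · intro s0 hs0
    simp only [Set.mem_ofPred_eq] at hs0
    set r := s0.re / 4 with hr
    have hr0 : 0 < r := by positivity
    set a := s0.re / 2 with ha
    set b := 3 * s0.re / 2 with hb
    have ha0 : 0 < a := by positivity
    have hre : ∀ z w : ℂ, ‖z - w‖ ≤ r → w.re - r ≤ z.re ∧ z.re ≤ w.re + r := by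
      intro z w h
      have := (Complex.abs_re_le_norm (z - w)).trans h
      rw [Complex.sub_re, abs_le] at this
      exact ⟨by linarith [this.1], by linarith [this.2]⟩
    have key := intervalIntegral.hasDerivAt_integral_of_dominated_loc_of_deriv_le (μ := volume)
      (a := (0 : ℝ)) (b := 1) (F := FF u) (F' := FD u) (x₀ := s0) (s := Metric.ball s0 r)
      (bound := fun x => KK a x * (u ^ (-a) + u ^ (-b)) / r)
      (Metric.ball_mem_nhds s0 hr0)
      (Eventually.of_forall fun s => (FF_meas u s).aestronglyMeasurable) ?_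
      (FD_meas u s0).aestronglyMeasurable ?_ ?_ ?_
    · have h2 : DifferentiableAt ℂ (fun s => G s u) s0 := by
        unfold G
        exact (key.2.differentiableAt).const_mul _
      exact h2.differentiableWithinAt
    · refine ((KK_int a ha0).mul_const (u ^ (-a) + u ^ (-b))).mono_fun'
        (FF_meas u s0).aestronglyMeasurable ?_
      rw [Filter.EventuallyLE, ae_restrict_iff' measurableSet_uIoc]
      filter_upwards [ae_ne_one] with t ht1 ht
      rw [Set.uIoc_of_le zero_le_one] at ht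
      exact nrm_le hu ht.1 (lt_of_le_of_ne ht.2 ht1) ha0 (by linarith) (by linarith)
    · filter_upwards [ae_ne_one] with t ht1 ht s hs
      rw [Set.uIoc_of_le zero_le_one] at ht
      have htl : t < 1 := lt_of_le_of_ne ht.2 ht1
      rw [Metric.mem_ball, dist_eq_norm] at hs
      have h1 := hre s s0 hs.le
      rw [← (hasD hu ht.1 htl s).deriv]
      refine Complex.norm_deriv_le_of_forall_mem_sphere_norm_le hr0 ?_ ?_
      · exact (Differentiable.diffContOnCl fun z => (hasD hu ht.1 htl z).differentiableAt)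
      · intro z hz
        rw [mem_sphere_iff_norm] at hz
        have h2 := hre z s hz.le
        exact nrm_le hu ht.1 htl ha0 (by linarith [h1.1, h2.1]) (by linarith [h1.2, h2.2])
    · exact ((KK_int a ha0).mul_const (u ^ (-a) + u ^ (-b))).div_const r
    · filter_upwards [ae_ne_one] with t ht1 ht s _
      rw [Set.uIoc_of_le zero_le_one] at ht
      exact hasD hu ht.1 (lt_of_le_of_ne ht.2 ht1) s
  · refine ⟨‖(1 / (4 * (π : ℂ)))‖ * ∫ x in (0 : ℝ)..1, KK a x, fun s has hsb u hu => ?_⟩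
    unfold G
    rw [norm_mul, mul_assoc]
    refine mul_le_mul_of_nonneg_left ?_ (norm_nonneg _)
    have h := intervalIntegral.norm_integral_le_of_norm_le (μ := volume) (f := FF u s)
      (g := fun x => KK a x * (u ^ (-a) + u ^ (-b))) zero_le_one ?_
      ((KK_int a ha).mul_const (u ^ (-a) + u ^ (-b)))
    · rw [intervalIntegral.integral_mul_const] at h
      exact h
    · filter_upwards [ae_ne_one] with t ht1 ht
      exact nrm_le hu ht.1 (lt_of_le_of_ne ht.2 ht1) ha has hsb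

end Pool.Agent.R436.EC
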