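import Pool.Agent.R436.EC.Stm2

set_option autoImplicit false

open Filter Topology MeasureTheory
open scoped Real

namespace Pool.Agent.R436.EC

namespace Apx

/-- the limit density -/
noncomputable def h (c : ℝ) (p : ℝ × ℝ) : ℝ := ((1 + (p.1 ^ 2 + (c * p.2) ^ 2) / 4) ^ 2)⁻¹

theorem cont_h (c : ℝ) : Continuous (h c) := by
  unfold h
  refine Continuous.inv₀ (by fun_prop) ?_
  intro p
  positivity

theorem int_aux (c : ℝ) (hc : 0 < c) : Integrable (fun x : ℝ => (1 + (c * x) ^ 2)⁻¹) :=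
  integrable_inv_one_add_sq.comp_mul_left' hc.ne'

theorem int_h (c : ℝ) (hc : 0 < c) : Integrable (h c) := by
  have h1 : Integrable (fun x : ℝ => (1 + ((1 / 2) * x) ^ 2)⁻¹) := int_aux _ (by norm_num)
  have h2 : Integrable (fun x : ℝ => (1 + ((c / 2) * x) ^ 2)⁻¹) := int_aux _ (by positivity)
  refine Integrable.mono' (h1.mul_prod h2) (cont_h c).aestronglyMeasurable ?_
  refine Eventually.of_forall fun p => ?_
  rw [Real.norm_eq_abs, abs_of_nonneg (by unfold h; positivity)]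
  unfold h
  rw [← mul_inv]
  apply inv_anti₀ (by positivity)
  nlinarith [sq_nonneg (p.1 ^ 2 - (c * p.2) ^ 2), sq_nonneg p.1, sq_nonneg (c * p.2),
    mul_nonneg (sq_nonneg p.1) (sq_nonneg (c * p.2)), sq_nonneg (p.1 ^ 2), sq_nonneg ((c * p.2) ^ 2)]

theorem one_dim : ∫ x in Set.Ioi (0 : ℝ), x * ((1 + x ^ 2 / 4) ^ 2)⁻¹ = 2 := by
  have h := integral_Ioi_of_hasDerivAt_of_nonneg' (a := 0) (l := 0)
    (g := fun x : ℝ => -2 * (1 + x ^ 2 / 4)⁻¹) (g' := fun x : ℝ => x * ((1 + x ^ 2 / 4) ^ 2)⁻¹)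
    ?_ ?_ ?_
  · rw [h]; norm_num
  · intro x _
    have h0 : (1 + x ^ 2 / 4) ≠ 0 := by positivity
    have h1 : HasDerivAt (fun x : ℝ => 1 + x ^ 2 / 4) (x / 2) x := by
      have := ((hasDerivAt_pow 2 x).div_const 4).const_add 1
      refine this.congr_deriv ?_
      simp
      ring
    have h2 := (h1.inv h0).const_mul (-2)
    refine h2.congr_deriv ?_
    field_simp
  · intro x hx
    have : 0 < x := hx
    positivity
  · have h1 : Tendsto (fun x : ℝ => 1 + x ^ 2 / 4) atTop atTop :=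
      tendsto_atTop_add_const_left _ _ ((tendsto_pow_atTop (by norm_num)).atTop_div_const (by norm_num))
    have := h1.inv_tendsto_atTop.const_mul (-2 : ℝ)
    simpa using this

theorem two_dim : ∫ p : ℝ × ℝ, h 1 p = 4 * π := by
  rw [← integral_comp_polarCoord_symm, polarCoord_target]
  have e : ∀ p : ℝ × ℝ, p.1 • h 1 (polarCoord.symm p) = (p.1 * ((1 + p.1 ^ 2 / 4) ^ 2)⁻¹) * 1 := by
    intro p
    simp only [polarCoord_symm_apply, h, smul_eq_mul, one_mul, mul_one]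
    congr 3
    have := Real.cos_sq_add_sin_sq p.2
    linear_combination (p.1 ^ 2 / 4) * this
  simp only [e]
  rw [Measure.volume_eq_prod, setIntegral_prod_mul (fun x : ℝ => x * ((1 + x ^ 2 / 4) ^ 2)⁻¹)
    (fun _ : ℝ => (1 : ℝ)), one_dim]
  simp
  rw [max_eq_left (by positivity)]
  ring

theorem two_dim_c (c : ℝ) (hc : 0 < c) : ∫ p : ℝ × ℝ, h c p = 4 * π / c := by
  have e1 : ∫ p : ℝ × ℝ, h c p = ∫ a : ℝ, ∫ b : ℝ, h c (a, b) := by
    rw [Measure.volume_eq_prod]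
    exact integral_prod _ (int_h c hc)
  have e2 : ∫ p : ℝ × ℝ, h 1 p = ∫ a : ℝ, ∫ b : ℝ, h 1 (a, b) := by
    rw [Measure.volume_eq_prod]
    exact integral_prod _ (int_h 1 one_pos)
  have e3 : ∀ a : ℝ, ∫ b : ℝ, h c (a, b) = c⁻¹ * ∫ b : ℝ, h 1 (a, b) := by
    intro a
    have := Measure.integral_comp_mul_left (fun b : ℝ => h 1 (a, b)) c
    rw [abs_of_pos (by positivity), smul_eq_mul] at this
    rw [← this]
    refine integral_congr_ae (Eventually.of_forall fun b => ?_)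
    simp [h]
  rw [e1]
  simp only [e3]
  rw [integral_const_mul, ← e2, two_dim]
  field_simp

/-- half of `cd - 1` -/
noncomputable def vv (r t : ℝ) (z : ℝ × ℝ) : ℝ := (cd r t z.1 z.2 - 1) / 2

theorem cont_vv (r t : ℝ) : Continuous (vv r t) := by
  unfold vv cd
  fun_prop

theorem vv_self (r t : ℝ) : vv r t (r, t) = 0 := by
  have := Real.cosh_sq r
  simp only [vv, cd, sub_self, Real.cosh_zero]
  linear_combination (1 / 2) * this

theorem kk_eq (s : ℂ) {ε v : ℝ} (hε : 0 < ε) (hv : 0 ≤ v) :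
    (ε : ℂ) * kk s ε v = ((2 * v + 1 + ε : ℝ) : ℂ) * ((ε / (v + ε) : ℝ) : ℂ) ^ 2 *
      (((v + ε : ℝ) : ℂ) ^ 2 * G2 s (v + ε)) +
      2 * (ε : ℂ) * ((ε / (v + ε) : ℝ) : ℂ) * (((v + ε : ℝ) : ℂ) * G1 s (v + ε)) := by
  have h : ((v : ℂ) + (ε : ℂ)) ≠ 0 := by
    have : ((v + ε : ℝ) : ℂ) ≠ 0 := Complex.ofReal_ne_zero.2 (by positivity)
    simpa using this
  unfold kk
  push_cast
  field_simp

theorem kk_bound (s : ℂ) {ε v ρ b C : ℝ} (hε : 0 < ε) (hv : 0 ≤ v) (hρ : 0 ≤ ρ)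
    (hρv : ε * ρ ≤ v) (hb : v + ε ≤ b) (_ : 0 ≤ C)
    (h1 : ‖((v + ε : ℝ) : ℂ) * G1 s (v + ε)‖ ≤ C) (h2 : ‖((v + ε : ℝ) : ℂ) ^ 2 * G2 s (v + ε)‖ ≤ C) :
    ‖(ε : ℂ) * kk s ε v‖ ≤ (4 * b + 1) * C * ((1 + ρ) ^ 2)⁻¹ := by
  have hb0 : 0 < b := by linarith
  have hu : 0 < v + ε := by linarith
  have hR0 : 0 ≤ ε / (v + ε) := by positivity
  have hR : ε / (v + ε) ≤ (1 + ρ)⁻¹ := by
    rw [div_le_iff₀ hu, inv_mul_eq_div, le_div_iff₀ (by positivity)]
    nlinarith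
  have hε2 : ε ≤ b * (1 + ρ)⁻¹ := by
    rw [← div_eq_mul_inv, le_div_iff₀ (by positivity)]
    nlinarith
  rw [kk_eq s hε hv]
  refine (norm_add_le _ _).trans ?_
  rw [norm_mul, norm_mul (_ * _) (_ * G1 s (v + ε)), norm_mul, norm_mul (2 * (ε : ℂ)), norm_pow,
    norm_mul (2 : ℂ), Complex.norm_real, Complex.norm_real, Complex.norm_real, Real.norm_eq_abs,
    Real.norm_eq_abs, Real.norm_eq_abs, abs_of_nonneg hR0, abs_of_pos hε,
    abs_of_nonneg (show 0 ≤ 2 * v + 1 + ε by linarith)]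
  have n2 : ‖(2 : ℂ)‖ = 2 := by simp
  rw [n2]
  have a1 : (2 * v + 1 + ε) * (ε / (v + ε)) ^ 2 * ‖((v + ε : ℝ) : ℂ) ^ 2 * G2 s (v + ε)‖ ≤
      (2 * b + 1) * ((1 + ρ)⁻¹) ^ 2 * C := by
    apply mul_le_mul _ h2 (norm_nonneg _) (by positivity)
    apply mul_le_mul (by linarith) (pow_le_pow_left₀ hR0 hR 2) (by positivity) (by positivity)
  have a2 : 2 * ε * (ε / (v + ε)) * ‖((v + ε : ℝ) : ℂ) * G1 s (v + ε)‖ ≤
      2 * (b * (1 + ρ)⁻¹) * (1 + ρ)⁻¹ * C := by
    apply mul_le_mul _ h1 (norm_nonneg _) (by positivity)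
    apply mul_le_mul (by linarith) hR hR0 (by positivity)
  refine (add_le_add a1 a2).trans (le_of_eq ?_)
  rw [← inv_pow]
  ring

end Apx

open Apx in
theorem apx (hS : S_SING) (hO : S_ODE) (hC : S_CD) : S_APX := by
  intro s hs φ hφ hcφ r t
  obtain ⟨l1, l2, hbd⟩ := hS s hs
  obtain ⟨hv, hlim⟩ := hC r t
  have hv0 : ∀ z, 0 ≤ vv r t z := fun z => by
    have := hv z.1 z.2
    have h1 : 0 ≤ (r - z.1) ^ 2 / 4 + (t - z.2) ^ 2 / 4 := by positivity
    exact h1.trans this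
  have cG1 : ContinuousOn (G1 s) (Set.Ioi 0) := fun u hu =>
    ((hO s hs u hu).2.1).continuousAt.continuousWithinAt
  have cG2 : ContinuousOn (G2 s) (Set.Ioi 0) := fun u hu =>
    ((hO s hs u hu).2.2.1).continuousWithinAt
  obtain ⟨Ψ, hΨ⟩ : ∃ Ψ : ℝ × ℝ → ℂ, Ψ = fun z => φ z * ((Real.cosh z.1 : ℝ) : ℂ) := ⟨_, rfl⟩
  have cΨ : Continuous Ψ := by
    rw [hΨ]
    exact hφ.mul (Complex.continuous_ofReal.comp (Real.continuous_cosh.comp continuous_fst))
  have sΨ : HasCompactSupport Ψ := by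
    rw [hΨ]
    exact hcφ.mul_right
  obtain ⟨M, hM⟩ := sΨ.exists_bound_of_continuous cΨ
  obtain ⟨b0, hb0⟩ := sΨ.isCompact.exists_bound_of_continuousOn (cont_vv r t).continuousOn
  have hM0 : 0 ≤ M := (norm_nonneg _).trans (hM (0, 0))
  obtain ⟨C, hCb⟩ := hbd (|b0| + 1) (by positivity)
  have hC0 : 0 ≤ C := (norm_nonneg _).trans (hCb (|b0| + 1) (by positivity) le_rfl).2.1
  -- the substitution
  have key : ∀ ε : ℝ, 0 < ε → ∫ z : ℝ × ℝ, kk s ε ((cd r t z.1 z.2 - 1) / 2) * φ z *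
      ((Real.cosh z.1 : ℝ) : ℂ) = ∫ w : ℝ × ℝ, (ε : ℂ) * kk s ε (vv r t ((r, t) + √ε • w)) *
        Ψ ((r, t) + √ε • w) := by
    intro ε hε
    have e1 := Measure.integral_comp_smul (volume : Measure (ℝ × ℝ))
      (fun z : ℝ × ℝ => kk s ε (vv r t ((r, t) + z)) * Ψ ((r, t) + z)) √ε
    have e2 := integral_add_left_eq_self (μ := (volume : Measure (ℝ × ℝ)))
      (fun z : ℝ × ℝ => kk s ε (vv r t z) * Ψ z) (r, t)
    have e3 : Module.finrank ℝ (ℝ × ℝ) = 2 := by simp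
    rw [e3, Real.sq_sqrt hε.le, abs_of_pos (by positivity), e2] at e1
    have e4 : ∫ z : ℝ × ℝ, kk s ε ((cd r t z.1 z.2 - 1) / 2) * φ z *
      ((Real.cosh z.1 : ℝ) : ℂ) = ∫ z : ℝ × ℝ, kk s ε (vv r t z) * Ψ z := by
      refine integral_congr_ae (Eventually.of_forall fun z => ?_)
      simp only [hΨ, vv, mul_assoc]
    rw [e4]
    have e5 : ∫ w : ℝ × ℝ, (ε : ℂ) * kk s ε (vv r t ((r, t) + √ε • w)) * Ψ ((r, t) + √ε • w) =
        (ε : ℂ) * ∫ w : ℝ × ℝ, kk s ε (vv r t ((r, t) + √ε • w)) * Ψ ((r, t) + √ε • w) := by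
      rw [← integral_const_mul]
      refine integral_congr_ae (Eventually.of_forall fun z => ?_)
      simp only [mul_assoc]
    rw [e5, e1, Complex.real_smul, ← mul_assoc, ← Complex.ofReal_mul,
      mul_inv_cancel₀ hε.ne']
    simp
  have hval : ∫ w : ℝ × ℝ, (1 / (4 * (π : ℂ))) * ((h (Real.cosh r) w : ℝ) : ℂ) * Ψ (r, t) =
      φ (r, t) := by
    have e1 : ∫ w : ℝ × ℝ, (1 / (4 * (π : ℂ))) * ((h (Real.cosh r) w : ℝ) : ℂ) * Ψ (r, t) =
        (1 / (4 * (π : ℂ))) * ((4 * π / Real.cosh r : ℝ) : ℂ) * Ψ (r, t) := by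
      have e0 : ∫ w : ℝ × ℝ, ((h (Real.cosh r) w : ℝ) : ℂ) =
        ((∫ w : ℝ × ℝ, h (Real.cosh r) w : ℝ) : ℂ) := integral_ofReal
      rw [integral_mul_const, integral_const_mul, e0, two_dim_c _ (Real.cosh_pos r)]
    rw [e1, hΨ]
    have h1 : ((Real.cosh r : ℝ) : ℂ) ≠ 0 := Complex.ofReal_ne_zero.2 (Real.cosh_pos r).ne'
    have h2 : (π : ℂ) ≠ 0 := Complex.ofReal_ne_zero.2 Real.pi_ne_zero
    push_cast at h1 ⊢
    field_simp
  rw [← hval]
  have hev : ∀ᶠ ε : ℝ in 𝓝[>] 0, 0 < ε := eventually_mem_nhdsWithin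
  refine Tendsto.congr' (f₁ := fun ε : ℝ => ∫ w : ℝ × ℝ,
    (ε : ℂ) * kk s ε (vv r t ((r, t) + √ε • w)) * Ψ ((r, t) + √ε • w))
    (hev.mono fun ε hε => (key ε hε).symm) ?_
  refine tendsto_integral_filter_of_dominated_convergence
    (fun w => (4 * (|b0| + 1) + 1) * C * h 1 w * M) ?_ ?_ ?_ ?_
  · refine hev.mono fun ε hε => Continuous.aestronglyMeasurable ?_
    have c1 : Continuous fun w : ℝ × ℝ => (r, t) + √ε • w := by fun_prop
    have c2 : Continuous fun w : ℝ × ℝ => vv r t ((r, t) + √ε • w) := (cont_vv r t).comp c1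
    have c3 : Continuous fun w : ℝ × ℝ => G1 s (vv r t ((r, t) + √ε • w) + ε) :=
      cG1.comp_continuous (c2.add continuous_const) (fun w => by
        have := hv0 ((r, t) + √ε • w)
        exact Set.mem_Ioi.2 (by linarith))
    have c4 : Continuous fun w : ℝ × ℝ => G2 s (vv r t ((r, t) + √ε • w) + ε) :=
      cG2.comp_continuous (c2.add continuous_const) (fun w => by
        have := hv0 ((r, t) + √ε • w)
        exact Set.mem_Ioi.2 (by linarith))
    have c5 : Continuous fun w : ℝ × ℝ => ((vv r t ((r, t) + √ε • w) : ℝ) : ℂ) :=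
      Complex.continuous_ofReal.comp c2
    unfold kk
    exact (continuous_const.mul (((continuous_const.mul (((continuous_const.mul c5).add
      continuous_const).add continuous_const)).mul c4).add (continuous_const.mul c3))).mul
      (cΨ.comp c1)
  · have hev1 : ∀ᶠ ε : ℝ in 𝓝[>] 0, ε ≤ 1 :=
      (eventually_le_nhds (show (0 : ℝ) < 1 by norm_num)).filter_mono nhdsWithin_le_nhds
    filter_upwards [hev, hev1] with ε hε hε1
    refine Eventually.of_forall fun w => ?_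
    have hh : 0 ≤ h 1 w := by unfold h; positivity
    rw [norm_mul]
    by_cases hz : (r, t) + √ε • w ∈ tsupport Ψ
    · refine mul_le_mul ?_ (hM _) (norm_nonneg _) (by positivity)
      have hvb := hb0 _ hz
      rw [Real.norm_eq_abs, abs_of_nonneg (hv0 _)] at hvb
      have hvb' : vv r t ((r, t) + √ε • w) + ε ≤ |b0| + 1 :=
        add_le_add (hvb.trans (le_abs_self _)) hε1
      have hρ : ε * ((w.1 ^ 2 + (1 * w.2) ^ 2) / 4) ≤ vv r t ((r, t) + √ε • w) := by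
        have := hv ((r, t) + √ε • w).1 ((r, t) + √ε • w).2
        have e1 : r - ((r, t) + √ε • w).1 = -(√ε * w.1) := by simp
        have e2 : t - ((r, t) + √ε • w).2 = -(√ε * w.2) := by simp
        rw [e1, e2, neg_sq, neg_sq, mul_pow, mul_pow, Real.sq_sqrt hε.le] at this
        refine le_trans (le_of_eq ?_) this
        ring
      have hu : 0 < vv r t ((r, t) + √ε • w) + ε := by
        have := hv0 ((r, t) + √ε • w)
        linarith
      obtain ⟨_, b1, b2⟩ := hCb _ hu hvb'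
      exact kk_bound s hε (hv0 _) (by positivity) hρ hvb' hC0 b1 b2
    · rw [image_eq_zero_of_notMem_tsupport hz, norm_zero, mul_zero]
      positivity
  · exact ((int_h 1 one_pos).const_mul _).mul_const M
  · refine Eventually.of_forall fun w => ?_
    have tε : Tendsto (fun ε : ℝ => ε) (𝓝[>] 0) (𝓝 0) := nhdsWithin_le_nhds
    have tsq : Tendsto (fun ε : ℝ => √ε) (𝓝[>] 0) (𝓝[>] 0) := by
      refine tendsto_nhdsWithin_iff.2 ⟨?_, hev.mono fun ε hε => Real.sqrt_pos.2 hε⟩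
      have := (Real.continuous_sqrt.tendsto 0).comp tε
      simpa [Function.comp_def] using this
    have tz : Tendsto (fun ε : ℝ => (r, t) + √ε • w) (𝓝[>] 0) (𝓝 (r, t)) := by
      have h1 : Tendsto (fun ε : ℝ => √ε) (𝓝[>] 0) (𝓝 0) := tsq.mono_right nhdsWithin_le_nhds
      have h2 := (h1.smul_const w).const_add (r, t)
      simpa using h2
    have tv : Tendsto (fun ε : ℝ => vv r t ((r, t) + √ε • w)) (𝓝[>] 0) (𝓝 0) := by
      have := ((cont_vv r t).tendsto (r, t)).comp tz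
      rwa [vv_self] at this
    have tu : Tendsto (fun ε : ℝ => vv r t ((r, t) + √ε • w) + ε) (𝓝[>] 0) (𝓝[>] 0) := by
      refine tendsto_nhdsWithin_iff.2 ⟨by simpa using tv.add tε, hev.mono fun ε hε => ?_⟩
      have := hv0 ((r, t) + √ε • w)
      exact Set.mem_Ioi.2 (by linarith)
    have tq : Tendsto (fun ε : ℝ => vv r t ((r, t) + √ε • w) / ε) (𝓝[>] 0)
        (𝓝 ((w.1 ^ 2 + (Real.cosh r * w.2) ^ 2) / 4)) := by
      have h1 := (hlim w.1 w.2).comp tsq
      rw [mul_pow]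
      refine Tendsto.congr' (hev.mono fun ε hε => ?_) h1
      simp only [Function.comp_apply, Real.sq_sqrt (le_of_lt hε)]
      simp [vv]
    have tR : Tendsto (fun ε : ℝ => ε / (vv r t ((r, t) + √ε • w) + ε)) (𝓝[>] 0)
        (𝓝 (1 + (w.1 ^ 2 + (Real.cosh r * w.2) ^ 2) / 4)⁻¹) := by
      have h1 := (tq.const_add 1).inv₀ (by positivity)
      refine Tendsto.congr' (hev.mono fun ε hε => ?_) h1
      have hε' : ε ≠ 0 := ne_of_gt hε
      have hu : vv r t ((r, t) + √ε • w) + ε ≠ 0 := by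
        have := hv0 ((r, t) + √ε • w)
        have h2 : (0 : ℝ) < ε := hε
        linarith
      have e1 : 1 + vv r t ((r, t) + √ε • w) / ε = (vv r t ((r, t) + √ε • w) + ε) / ε := by
        field_simp
        ring
      rw [e1, inv_div]
    have tA : Tendsto (fun ε : ℝ => ((2 * vv r t ((r, t) + √ε • w) + 1 + ε : ℝ) : ℂ)) (𝓝[>] 0)
        (𝓝 1) := by
      have h1 := ((tv.const_mul 2).add_const 1).add tε
      have h2 := (Complex.continuous_ofReal.tendsto _).comp h1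
      simpa [Function.comp_def] using h2
    have tR' := (Complex.continuous_ofReal.tendsto _).comp tR
    have tε' : Tendsto (fun ε : ℝ => (ε : ℂ)) (𝓝[>] 0) (𝓝 0) := by
      have h2 := (Complex.continuous_ofReal.tendsto _).comp tε
      simpa [Function.comp_def] using h2
    have t1 := l1.comp tu
    have t2 := l2.comp tu
    have tΨ : Tendsto (fun ε : ℝ => Ψ ((r, t) + √ε • w)) (𝓝[>] 0) (𝓝 (Ψ (r, t))) :=
      (cΨ.tendsto (r, t)).comp tz
    have tall := (((tA.mul (tR'.pow 2)).mul t2).add (((tε'.const_mul 2).mul tR').mul t1)).mul tΨ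
    have hlimval : (1 * (((1 + (w.1 ^ 2 + (Real.cosh r * w.2) ^ 2) / 4)⁻¹ : ℝ) : ℂ) ^ 2 *
        (1 / (4 * (π : ℂ))) + 2 * 0 * (((1 + (w.1 ^ 2 + (Real.cosh r * w.2) ^ 2) / 4)⁻¹ : ℝ) : ℂ) *
        (-1 / (4 * (π : ℂ)))) * Ψ (r, t) =
        1 / (4 * (π : ℂ)) * ((h (Real.cosh r) w : ℝ) : ℂ) * Ψ (r, t) := by
      unfold h
      rw [← inv_pow]
      push_cast
      ring
    rw [← hlimval]
    refine Tendsto.congr' (hev.mono fun ε hε => ?_) tall
    simp only [Function.comp_apply]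
    rw [kk_eq s hε (hv0 _)]

end Pool.Agent.R436.EC
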