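import Mathlib
import Pool.Agent.R436.EC.Stm

/-!
# EC-ASY: the sum over the deck group far out in the other funnel
-/

set_option autoImplicit false

open Filter Topology MeasureTheory
open scoped Real

namespace Pool.Agent.R436.EC

namespace AsyAux

theorem summ (a : ℝ) (ha : 0 < a) : Summable fun j : ℤ => Real.exp (-(a * |(j : ℝ)|)) := by
  have h : Summable fun n : ℕ => Real.exp (n * (-a)) :=
    Real.summable_exp_nat_mul_iff.2 (by linarith)
  refine Summable.of_nat_of_neg (f := fun j : ℤ => Real.exp (-(a * |(j : ℝ)|))) ?_ ?_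
  · refine h.congr fun n => ?_
    congr 1
    rw [Int.cast_natCast, abs_of_nonneg (Nat.cast_nonneg n)]
    ring
  · refine h.congr fun n => ?_
    congr 1
    rw [Int.cast_neg, Int.cast_natCast, abs_neg, abs_of_nonneg (Nat.cast_nonneg n)]
    ring

/-- `W r τ / (exp (-r) / 2)` -/
noncomputable def V (r τ : ℝ) : ℝ :=
  (1 + Real.cosh τ) + Real.exp (2 * r) * (Real.cosh τ - 1)

theorem W_eq (r τ : ℝ) : W r τ = Real.exp (-r) / 2 * V r τ := by
  unfold W V
  have h1 : Real.exp (-r) * Real.exp (2 * r) = Real.exp r := by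
    rw [← Real.exp_add]
    congr 1
    ring
  rw [Real.cosh_eq r, Real.sinh_eq r]
  linear_combination (-(Real.cosh τ - 1) / 2) * h1

theorem V_ge (r τ : ℝ) : 1 + Real.cosh τ ≤ V r τ := by
  unfold V
  have h1 := Real.one_le_cosh τ
  have h2 : 0 ≤ Real.exp (2 * r) * (Real.cosh τ - 1) :=
    mul_nonneg (Real.exp_pos _).le (by linarith)
  linarith

theorem V_le (r τ : ℝ) (hr : r ≤ 0) : V r τ ≤ 2 * Real.cosh τ := by
  unfold V
  have h1 := Real.one_le_cosh τ
  have h2 : Real.exp (2 * r) ≤ 1 := Real.exp_le_one_iff.2 (by linarith)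
  have h3 : Real.exp (2 * r) * (Real.cosh τ - 1) ≤ 1 * (Real.cosh τ - 1) :=
    mul_le_mul_of_nonneg_right h2 (by linarith)
  linarith

theorem V_exp (r τ : ℝ) : Real.exp |τ| / 2 ≤ V r τ := by
  refine le_trans ?_ (V_ge r τ)
  have h1 : Real.exp |τ| / 2 ≤ Real.cosh τ := by
    rw [← Real.cosh_abs, Real.cosh_eq]
    have := Real.exp_pos (-|τ|)
    linarith
  linarith

theorem V_one (r τ : ℝ) : 1 ≤ V r τ := by
  have h1 := Real.one_le_cosh τ
  have := V_ge r τ
  linarith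

theorem V_quarter (r τ : ℝ) : V r τ ^ (-(1 / 4) : ℝ) ≤ 2 * Real.exp (-(|τ| / 4)) := by
  have h0 : (0 : ℝ) < Real.exp |τ| / 2 := by positivity
  have h1 : V r τ ^ (-(1 / 4) : ℝ) ≤ (Real.exp |τ| / 2) ^ (-(1 / 4) : ℝ) :=
    Real.rpow_le_rpow_of_nonpos h0 (V_exp r τ) (by norm_num)
  refine h1.trans ?_
  rw [Real.div_rpow (Real.exp_pos _).le (by norm_num), ← Real.exp_mul]
  have h2 : (2 : ℝ) ^ (-(1 / 4) : ℝ) ≥ 1 / 2 := by
    have : (2 : ℝ) ^ (-1 : ℝ) ≤ (2 : ℝ) ^ (-(1 / 4) : ℝ) :=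
      Real.rpow_le_rpow_of_exponent_le (by norm_num) (by norm_num)
    rw [Real.rpow_neg_one] at this
    linarith
  rw [div_le_iff₀ (by positivity)]
  have h3 : |τ| * (-(1 / 4)) = -(|τ| / 4) := by ring
  rw [h3]
  have := Real.exp_pos (-(|τ| / 4))
  nlinarith

theorem V_half (r τ : ℝ) : V r τ ^ (-(1 / 2) : ℝ) ≤ V r τ ^ (-(1 / 4) : ℝ) :=
  Real.rpow_le_rpow_of_exponent_le (V_one r τ) (by norm_num)

theorem V_log (r τ : ℝ) : V r τ ^ (-(1 / 2) : ℝ) * Real.log (V r τ) ≤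
    4 * V r τ ^ (-(1 / 4) : ℝ) := by
  have hV : 0 < V r τ := lt_of_lt_of_le one_pos (V_one r τ)
  have h1 := Real.log_le_rpow_div hV.le (ε := 1 / 4) (by norm_num)
  calc V r τ ^ (-(1 / 2) : ℝ) * Real.log (V r τ)
      ≤ V r τ ^ (-(1 / 2) : ℝ) * (V r τ ^ (1 / 4 : ℝ) / (1 / 4)) :=
        mul_le_mul_of_nonneg_left h1 (by positivity)
    _ = 4 * (V r τ ^ (-(1 / 2) : ℝ) * V r τ ^ (1 / 4 : ℝ)) := by ring
    _ = 4 * V r τ ^ (-(1 / 4) : ℝ) := by
        rw [← Real.rpow_add hV]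
        norm_num

theorem cos_ge (x : ℝ) : 1 - |x| ≤ Real.cos x := by
  have h1 := Real.one_sub_sq_div_two_le_cos (x := x)
  have h2 := Real.neg_one_le_cos x
  rcases le_or_gt |x| 2 with h | h
  · have h3 : x ^ 2 = |x| ^ 2 := (sq_abs x).symm
    have := abs_nonneg x
    nlinarith
  · linarith

theorem re_ge (lam r τ : ℝ) (hl : 0 < lam) :
    V r τ ^ (-(1 / 2) : ℝ) - lam * (8 * Real.exp (-(|τ| / 4))) ≤
      (((V r τ : ℝ) : ℂ) ^ (-(1 / 2 + (lam : ℂ) * Complex.I))).re := by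
  have hV : 0 < V r τ := lt_of_lt_of_le one_pos (V_one r τ)
  have hlog : 0 ≤ Real.log (V r τ) := Real.log_nonneg (V_one r τ)
  have e : (((V r τ : ℝ) : ℂ) ^ (-(1 / 2 + (lam : ℂ) * Complex.I))).re =
      V r τ ^ (-(1 / 2) : ℝ) * Real.cos (lam * Real.log (V r τ)) := by
    rw [Complex.cpow_def_of_ne_zero (by exact_mod_cast hV.ne'), ← Complex.ofReal_log hV.le,
      Complex.exp_re, Real.rpow_def_of_pos hV]
    have e1 : ((Real.log (V r τ) : ℂ) * (-(1 / 2 + (lam : ℂ) * Complex.I))).re =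
        Real.log (V r τ) * (-(1 / 2)) := by
      simp
    have e2 : ((Real.log (V r τ) : ℂ) * (-(1 / 2 + (lam : ℂ) * Complex.I))).im =
        -(lam * Real.log (V r τ)) := by
      simp
      ring
    rw [e1, e2, Real.cos_neg]
  rw [e]
  have h1 := cos_ge (lam * Real.log (V r τ))
  rw [abs_of_nonneg (mul_nonneg hl.le hlog)] at h1
  have h2 := V_log r τ
  have h3 := V_quarter r τ
  have h4 : 0 ≤ V r τ ^ (-(1 / 2) : ℝ) := by positivity
  calc V r τ ^ (-(1 / 2) : ℝ) - lam * (8 * Real.exp (-(|τ| / 4)))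
      ≤ V r τ ^ (-(1 / 2) : ℝ) - lam * (V r τ ^ (-(1 / 2) : ℝ) * Real.log (V r τ)) := by
        have : lam * (V r τ ^ (-(1 / 2) : ℝ) * Real.log (V r τ)) ≤
            lam * (8 * Real.exp (-(|τ| / 4))) :=
          mul_le_mul_of_nonneg_left (by linarith) hl.le
        linarith
    _ = V r τ ^ (-(1 / 2) : ℝ) * (1 - lam * Real.log (V r τ)) := by ring
    _ ≤ V r τ ^ (-(1 / 2) : ℝ) * Real.cos (lam * Real.log (V r τ)) :=
        mul_le_mul_of_nonneg_left h1 h4

theorem norm_le (lam r τ : ℝ) :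
    ‖((V r τ : ℝ) : ℂ) ^ (-(1 / 2 + (lam : ℂ) * Complex.I))‖ ≤ 2 * Real.exp (-(|τ| / 4)) := by
  have hV : 0 < V r τ := lt_of_lt_of_le one_pos (V_one r τ)
  rw [Complex.norm_cpow_eq_rpow_re_of_pos hV]
  have : (-(1 / 2 + (lam : ℂ) * Complex.I)).re = -(1 / 2) := by simp
  rw [this]
  exact (V_half r τ).trans (V_quarter r τ)

/-- bound for the distances -/
theorem dist_bd (l x : ℝ) (hl : 0 < l) (h0 : 0 ≤ x) (h1 : x ≤ l) (j : ℤ) :
    Real.exp (-(|x - (j : ℝ) * l| / 4)) ≤ Real.exp (l / 4) * Real.exp (-(l / 4 * |(j : ℝ)|)) := by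
  rw [← Real.exp_add]
  refine Real.exp_le_exp.2 ?_
  have h2 : |(j : ℝ) * l| ≤ |x - (j : ℝ) * l| + |x| := by
    have := abs_sub_abs_le_abs_sub ((j : ℝ) * l) x
    rw [abs_sub_comm] at this
    linarith
  rw [abs_mul, abs_of_pos hl, abs_of_nonneg h0] at h2
  linarith

end AsyAux

open AsyAux in
theorem asy : S_ASY := by
  intro l hl
  set M : ℝ := ∑' j : ℤ, 8 * (Real.exp (l / 4) * Real.exp (-(l / 4 * |(j : ℝ)|))) with hM
  have sM : Summable fun j : ℤ => 8 * (Real.exp (l / 4) * Real.exp (-(l / 4 * |(j : ℝ)|))) :=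
    ((summ (l / 4) (by linarith)).mul_left _).mul_left _
  have M0 : 0 < M := by
    refine sM.tsum_pos (fun j => by positivity) 0 (by positivity)
  set m : ℝ := (2 * Real.cosh l) ^ (-(1 / 2) : ℝ) with hm
  have m0 : 0 < m := by
    have := Real.cosh_pos l
    positivity
  refine ⟨m / (2 * M), by positivity, fun lam h0 h1 ξ r t hr => ?_⟩
  -- reduction to `x ∈ [0, l)`
  set n : ℤ := ⌊(t - ξ) / l⌋ with hn
  set x : ℝ := t - ξ - n * l with hx
  have x0 : 0 ≤ x := by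
    have := Int.floor_le ((t - ξ) / l)
    rw [← hn, le_div_iff₀ hl] at this
    linarith
  have x1 : x ≤ l := by
    have := (Int.lt_floor_add_one ((t - ξ) / l)).le
    rw [← hn, div_le_iff₀ hl] at this
    linarith
  set s : ℂ := 1 / 2 + (lam : ℂ) * Complex.I with hs
  have e1 : ∑' k : ℤ, ((W r (t - (ξ + (k : ℝ) * l)) : ℝ) : ℂ) ^ (-s) =
      ∑' j : ℤ, ((W r (x - (j : ℝ) * l) : ℝ) : ℂ) ^ (-s) := by
    rw [← (Equiv.addRight n).tsum_eq]
    refine tsum_congr fun j => ?_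
    congr 3
    simp only [Equiv.coe_addRight]
    rw [hx]
    push_cast
    ring
  have e2 : ∀ j : ℤ, ((W r (x - (j : ℝ) * l) : ℝ) : ℂ) ^ (-s) =
      ((Real.exp (-r) / 2 : ℝ) : ℂ) ^ (-s) * ((V r (x - (j : ℝ) * l) : ℝ) : ℂ) ^ (-s) := by
    intro j
    rw [W_eq, Complex.ofReal_mul, Complex.mul_cpow_ofReal_nonneg (by positivity)
      (zero_le_one.trans (V_one _ _))]
  have b1 : ∀ j : ℤ, Real.exp (-(|x - (j : ℝ) * l| / 4)) ≤
      Real.exp (l / 4) * Real.exp (-(l / 4 * |(j : ℝ)|)) := dist_bd l x hl x0 x1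
  have sV : Summable fun j : ℤ => ((V r (x - (j : ℝ) * l) : ℝ) : ℂ) ^ (-s) := by
    refine Summable.of_norm_bounded sM fun j => ?_
    refine (norm_le lam r _).trans ?_
    have := b1 j
    have h2 : 0 ≤ Real.exp (l / 4) * Real.exp (-(l / 4 * |(j : ℝ)|)) := by positivity
    linarith
  refine ⟨∑' j : ℤ, ((V r (x - (j : ℝ) * l) : ℝ) : ℂ) ^ (-s), ?_, ?_⟩
  · rw [Complex.re_tsum sV]
    have sH : Summable fun j : ℤ => V r (x - (j : ℝ) * l) ^ (-(1 / 2) : ℝ) := by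
      refine Summable.of_nonneg_of_le (fun j => ?_) (fun j => ?_) sM
      · exact Real.rpow_nonneg (zero_le_one.trans (V_one _ _)) _
      · have h3 := (V_half r (x - (j : ℝ) * l)).trans (V_quarter r (x - (j : ℝ) * l))
        have := b1 j
        have h2 : 0 ≤ Real.exp (l / 4) * Real.exp (-(l / 4 * |(j : ℝ)|)) := by positivity
        linarith
    have h4 : ∑' j : ℤ, (V r (x - (j : ℝ) * l) ^ (-(1 / 2) : ℝ) -
        lam * (8 * (Real.exp (l / 4) * Real.exp (-(l / 4 * |(j : ℝ)|))))) ≤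
        ∑' j : ℤ, (((V r (x - (j : ℝ) * l) : ℝ) : ℂ) ^ (-s)).re := by
      refine Summable.tsum_le_tsum (fun j => ?_) (sH.sub (sM.mul_left lam)) ?_
      · refine le_trans ?_ (re_ge lam r (x - (j : ℝ) * l) h0)
        have : lam * (8 * Real.exp (-(|x - (j : ℝ) * l| / 4))) ≤
            lam * (8 * (Real.exp (l / 4) * Real.exp (-(l / 4 * |(j : ℝ)|)))) :=
          mul_le_mul_of_nonneg_left (by linarith [b1 j]) h0.le
        linarith
      · exact (Complex.hasSum_re sV.hasSum).summable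
    rw [sH.tsum_sub (sM.mul_left lam), tsum_mul_left, ← hM] at h4
    have h5 : m ≤ ∑' j : ℤ, V r (x - (j : ℝ) * l) ^ (-(1 / 2) : ℝ) := by
      refine le_trans ?_ (sH.le_tsum 0 fun j _ =>
        Real.rpow_nonneg (zero_le_one.trans (V_one _ _)) _)
      have h6 : V r (x - ((0 : ℤ) : ℝ) * l) ≤ 2 * Real.cosh l := by
        refine (V_le r _ hr).trans ?_
        have : Real.cosh (x - ((0 : ℤ) : ℝ) * l) ≤ Real.cosh l := by
          rw [Real.cosh_le_cosh, Int.cast_zero, zero_mul, sub_zero, abs_of_nonneg x0,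
            abs_of_pos hl]
          exact x1
        linarith
      exact Real.rpow_le_rpow_of_nonpos (lt_of_lt_of_le one_pos (V_one _ _)) h6 (by norm_num)
    have h7 : lam * M ≤ m / 2 := by
      have := mul_le_mul_of_nonneg_right h1 M0.le
      have h8 : m / (2 * M) * M = m / 2 := by
        field_simp
      linarith
    linarith
  · rw [e1, tsum_congr e2, tsum_mul_left]

end Pool.Agent.R436.EC
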