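import Mathlib
import Pool.Agent.R436.EC.Stm2

/-!
# EC-CD: geometry of `cd` (MP_a92104_an)
-/

set_option autoImplicit false

open Filter Topology MeasureTheory
open scoped Real

namespace Pool.Agent.R436.EC

namespace CdAux

lemma cosh_sub_one (x : ℝ) : Real.cosh x - 1 = 2 * Real.sinh (x / 2) ^ 2 := by
  have h := Real.cosh_two_mul (x / 2)
  have h2 := Real.cosh_sq (x / 2)
  have h3 : 2 * (x / 2) = x := by ring
  rw [h3] at h
  rw [h, h2]
  ring

lemma sq_le_sinh_sq (x : ℝ) : x ^ 2 ≤ Real.sinh x ^ 2 := by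
  rcases le_total 0 x with h | h
  · have := Real.self_le_sinh_iff.2 h
    nlinarith
  · have := Real.sinh_le_self_iff.2 h
    nlinarith

lemma half_sq_le (x : ℝ) : x ^ 2 / 2 ≤ Real.cosh x - 1 := by
  rw [cosh_sub_one]
  have := sq_le_sinh_sq (x / 2)
  nlinarith

lemma cd_eq (r t r' t' : ℝ) : cd r t r' t' - 1 =
    Real.cosh r * Real.cosh r' * (Real.cosh (t - t') - 1) + (Real.cosh (r - r') - 1) := by
  unfold cd
  rw [Real.cosh_sub r r']
  ring

lemma lim_cosh (a : ℝ) : Tendsto (fun δ : ℝ => (Real.cosh (δ * a) - 1) / δ ^ 2) (𝓝[>] 0)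
    (𝓝 (a ^ 2 / 2)) := by
  have h1 : HasDerivAt (fun δ : ℝ => Real.sinh (δ * a / 2)) (a / 2) 0 := by
    have h2 : HasDerivAt (fun δ : ℝ => δ * a / 2) (a / 2) 0 := by
      have := ((hasDerivAt_id (0 : ℝ)).mul_const a).div_const 2
      simpa using this
    have h3 := h2.sinh
    simpa using h3
  have h4 := h1.tendsto_slope
  have h5 : Tendsto (slope (fun δ : ℝ => Real.sinh (δ * a / 2)) 0) (𝓝[>] 0) (𝓝 (a / 2)) :=
    h4.mono_left (nhdsWithin_mono _ (fun x hx => ne_of_gt hx))
  have h6 := (h5.pow 2).const_mul 2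
  have h7 : 2 * (a / 2) ^ 2 = a ^ 2 / 2 := by ring
  rw [h7] at h6
  refine h6.congr' ?_
  filter_upwards [self_mem_nhdsWithin] with δ hδ
  have hδ' : δ ≠ 0 := ne_of_gt hδ
  rw [cosh_sub_one, slope_def_field]
  simp only [zero_mul, zero_div, Real.sinh_zero, sub_zero]
  field_simp

end CdAux

open CdAux in
theorem cdl : S_CD := by
  intro r t
  refine ⟨fun r' t' => ?_, fun a b => ?_⟩
  · have h1 := half_sq_le (t - t')
    have h2 := half_sq_le (r - r')
    have h3 := Real.one_le_cosh r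
    have h4 := Real.one_le_cosh r'
    have h5 : 1 ≤ Real.cosh r * Real.cosh r' := by nlinarith
    have h6 : 0 ≤ Real.cosh (t - t') - 1 := by
      have := Real.one_le_cosh (t - t')
      linarith
    have h7 := cd_eq r t r' t'
    have h8 : Real.cosh (t - t') - 1 ≤
        Real.cosh r * Real.cosh r' * (Real.cosh (t - t') - 1) := by nlinarith
    linarith
  · have h1 := lim_cosh a
    have h2 := lim_cosh b
    have h3 : Tendsto (fun δ : ℝ => Real.cosh (r + δ * a)) (𝓝[>] 0) (𝓝 (Real.cosh r)) := by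
      have h4 : Continuous (fun δ : ℝ => Real.cosh (r + δ * a)) := by
        exact Real.continuous_cosh.comp (by fun_prop)
      have h5 := h4.tendsto 0
      simp only [zero_mul, add_zero] at h5
      exact h5.mono_left nhdsWithin_le_nhds
    have h6 := (((h3.const_mul (Real.cosh r)).mul h2).add h1).div_const 2
    have h7 : (Real.cosh r * Real.cosh r * (b ^ 2 / 2) + a ^ 2 / 2) / 2 =
        (a ^ 2 + Real.cosh r ^ 2 * b ^ 2) / 4 := by ring
    rw [h7] at h6
    refine h6.congr' ?_
    filter_upwards [self_mem_nhdsWithin] with δ hδ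
    have hδ' : δ ≠ 0 := ne_of_gt hδ
    rw [cd_eq]
    have h8 : t - (t + δ * b) = -(δ * b) := by ring
    have h9 : r - (r + δ * a) = -(δ * a) := by ring
    rw [h8, h9, Real.cosh_neg, Real.cosh_neg]
    field_simp

end Pool.Agent.R436.EC
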