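import Pool.Agent.R436.EC.Stm

/-!
# MP_a92104_an: EC-CONT
-/

set_option autoImplicit false

open Filter Topology MeasureTheory
open scoped Real

namespace Pool.Agent.R436.EC

namespace ContAux

theorem W_lower (r τ : ℝ) : Real.exp (-|r|) * Real.cosh τ ≤ W r τ := by
  unfold W
  have h1 : 1 ≤ Real.cosh τ := Real.one_le_cosh τ
  rcases le_total 0 r with hr | hr
  · rw [abs_of_nonneg hr, ← Real.cosh_sub_sinh]
    have h2 : 0 ≤ Real.sinh r := Real.sinh_nonneg_iff.2 hr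
    nlinarith [mul_le_mul_of_nonneg_left h1 h2]
  · rw [abs_of_nonpos hr, neg_neg, ← Real.cosh_add_sinh]
    have h2 : Real.sinh r ≤ 0 := Real.sinh_nonpos_iff.2 hr
    nlinarith [mul_le_mul_of_nonneg_left h1 (neg_nonneg.2 h2)]

theorem W_pos (r τ : ℝ) : 0 < W r τ :=
  lt_of_lt_of_le (mul_pos (Real.exp_pos _) (Real.cosh_pos _)) (W_lower r τ)

theorem cosh_lower (τ : ℝ) : Real.exp |τ| / 2 ≤ Real.cosh τ := by
  rw [← Real.cosh_abs, Real.cosh_eq]
  have := Real.exp_pos (-|τ|)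
  linarith

theorem summ (c : ℝ) (hc : 0 < c) : Summable (fun k : ℤ => Real.exp (-(c * |(k : ℝ)|))) := by
  have hg : Summable (fun n : ℕ => (Real.exp (-c)) ^ n) :=
    summable_geometric_of_lt_one (Real.exp_pos _).le (by
      rw [Real.exp_lt_one_iff]; linarith)
  refine Summable.of_nat_of_neg ?_ ?_
  · refine hg.congr (fun n => ?_)
    rw [← Real.exp_nat_mul]
    congr 1
    push_cast
    rw [abs_of_nonneg (Nat.cast_nonneg n)]
    ring
  · refine hg.congr (fun n => ?_)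
    rw [← Real.exp_nat_mul]
    congr 1
    push_cast
    rw [abs_neg, abs_of_nonneg (Nat.cast_nonneg n)]
    ring

theorem term_bound (ℓ : ℝ) (hℓ : 0 < ℓ) (s : ℂ) (hs : 0 < s.re) (ξ M r t : ℝ)
    (hr : |r| ≤ M) (ht : |t - ξ| ≤ M) (k : ℤ) :
    ‖((W r (t - (ξ + (k : ℝ) * ℓ)) : ℝ) : ℂ) ^ (-s)‖ ≤
      Real.exp (2 * M * s.re) * 2 ^ s.re * Real.exp (-(s.re * ℓ * |(k : ℝ)|)) := by
  set τ := t - (ξ + (k : ℝ) * ℓ) with hτ
  rw [Complex.norm_cpow_eq_rpow_re_of_pos (W_pos r τ)]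
  have h1 : |(k : ℝ)| * ℓ - M ≤ |τ| := by
    have e : (k : ℝ) * ℓ = (t - ξ) - τ := by rw [hτ]; ring
    have h2 : |(k : ℝ) * ℓ| ≤ |t - ξ| + |τ| := by rw [e]; exact abs_sub _ _
    rw [abs_mul, abs_of_pos hℓ] at h2
    linarith
  have h2 : Real.exp (-(2 * M) + ℓ * |(k : ℝ)|) / 2 ≤ W r τ := by
    refine le_trans ?_ (W_lower r τ)
    have h3 : Real.exp (-M) ≤ Real.exp (-|r|) := Real.exp_le_exp.2 (by linarith)
    have h4 : Real.exp (|(k : ℝ)| * ℓ - M) / 2 ≤ Real.cosh τ :=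
      le_trans (by
        have := Real.exp_le_exp.2 h1
        linarith) (cosh_lower τ)
    calc Real.exp (-(2 * M) + ℓ * |(k : ℝ)|) / 2
        = Real.exp (-M) * (Real.exp (|(k : ℝ)| * ℓ - M) / 2) := by
          rw [← mul_div_assoc, ← Real.exp_add]
          congr 2
          ring
      _ ≤ Real.exp (-|r|) * Real.cosh τ :=
          mul_le_mul h3 h4 (by positivity) (Real.exp_pos _).le
  have hpos : 0 < Real.exp (-(2 * M) + ℓ * |(k : ℝ)|) / 2 := by positivity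
  calc W r τ ^ (-s).re
      ≤ (Real.exp (-(2 * M) + ℓ * |(k : ℝ)|) / 2) ^ (-s).re := by
        refine Real.rpow_le_rpow_of_nonpos hpos h2 ?_
        rw [Complex.neg_re]; linarith
    _ = Real.exp (2 * M * s.re) * 2 ^ s.re * Real.exp (-(s.re * ℓ * |(k : ℝ)|)) := by
        rw [Complex.neg_re, Real.div_rpow (Real.exp_pos _).le (by norm_num), ← Real.exp_mul,
          Real.rpow_neg (by norm_num : (0 : ℝ) ≤ 2), div_inv_eq_mul]
        rw [mul_right_comm, ← Real.exp_add]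
        congr 2
        ring

theorem cont_term (ℓ : ℝ) (s : ℂ) (ξ : ℝ) (k : ℤ) :
    Continuous (fun z : ℝ × ℝ => ((W z.1 (z.2 - (ξ + (k : ℝ) * ℓ)) : ℝ) : ℂ) ^ (-s)) := by
  refine Continuous.cpow ?_ continuous_const ?_
  · refine Complex.continuous_ofReal.comp ?_
    unfold W
    exact ((Real.continuous_cosh.comp continuous_fst).mul
      (Real.continuous_cosh.comp (continuous_snd.sub continuous_const))).sub
      (Real.continuous_sinh.comp continuous_fst)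
  · intro z
    exact Complex.ofReal_mem_slitPlane.2 (W_pos _ _)

theorem cont_sum (ℓ : ℝ) (hℓ : 0 < ℓ) (s : ℂ) (hs : 0 < s.re) (ξ : ℝ) :
    Continuous (fun z : ℝ × ℝ =>
      ∑' k : ℤ, ((W z.1 (z.2 - (ξ + (k : ℝ) * ℓ)) : ℝ) : ℂ) ^ (-s)) := by
  rw [continuous_iff_continuousAt]
  intro z0
  set M : ℝ := ‖z0‖ + 1 + |ξ| with hM
  have hon : ContinuousOn (fun z : ℝ × ℝ =>
      ∑' k : ℤ, ((W z.1 (z.2 - (ξ + (k : ℝ) * ℓ)) : ℝ) : ℂ) ^ (-s)) (Metric.ball 0 (‖z0‖ + 1)) := by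
    refine continuousOn_tsum (u := fun k : ℤ =>
      Real.exp (2 * M * s.re) * 2 ^ s.re * Real.exp (-(s.re * ℓ * |(k : ℝ)|)))
      (fun k => (cont_term ℓ s ξ k).continuousOn) ?_ ?_
    · exact (summ (s.re * ℓ) (mul_pos hs hℓ)).mul_left _
    · intro k z hz
      have hz' : ‖z‖ < ‖z0‖ + 1 := by simpa using hz
      have h1 : |z.1| ≤ ‖z‖ := by
        have := norm_fst_le z
        simpa using this
      have h2 : |z.2| ≤ ‖z‖ := by
        have := norm_snd_le z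
        simpa using this
      have h3 : |z.2 - ξ| ≤ |z.2| + |ξ| := abs_sub _ _
      have h4 := abs_nonneg ξ
      exact term_bound ℓ hℓ s hs ξ M z.1 z.2 (by rw [hM]; linarith) (by rw [hM]; linarith) k
  refine hon.continuousAt (Metric.isOpen_ball.mem_nhds ?_)
  simp

theorem periodic (ℓ : ℝ) (s : ℂ) (ξ r : ℝ) :
    Function.Periodic (fun t : ℝ =>
      ∑' k : ℤ, ((W r (t - (ξ + (k : ℝ) * ℓ)) : ℝ) : ℂ) ^ (-s)) ℓ := by
  intro t
  show ∑' k : ℤ, ((W r (t + ℓ - (ξ + (k : ℝ) * ℓ)) : ℝ) : ℂ) ^ (-s) =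
    ∑' k : ℤ, ((W r (t - (ξ + (k : ℝ) * ℓ)) : ℝ) : ℂ) ^ (-s)
  rw [← (Equiv.addRight (1 : ℤ)).tsum_eq]
  refine tsum_congr (fun k => ?_)
  have : t + ℓ - (ξ + ((Equiv.addRight (1 : ℤ) k : ℤ) : ℝ) * ℓ) = t - (ξ + (k : ℝ) * ℓ) := by
    simp only [Equiv.coe_addRight]
    push_cast
    ring
  rw [this]

end ContAux

open ContAux in
theorem cont : S_CONT := by
  intro ℓ hℓ s hs ξ
  refine ⟨fun z => (periodic ℓ s ξ z.1).lift z.2, ?_, ?_⟩
  · have hq : IsOpenQuotientMap (Prod.map (id : ℝ → ℝ) (QuotientAddGroup.mk : ℝ → AddCircle ℓ)) :=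
      IsOpenQuotientMap.id.prodMap QuotientAddGroup.isOpenQuotientMap_mk
    rw [hq.isQuotientMap.continuous_iff]
    exact cont_sum ℓ hℓ s hs ξ
  · intro r t
    exact Function.Periodic.lift_coe (periodic ℓ s ξ r) t

end Pool.Agent.R436.EC
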