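import Mathlib
import Pool.Agent.R436.EC.Stm3

/-!
# EC-DEC: decay of the kernel `RX` in the funnels (MP_a92104_an)
-/

set_option autoImplicit false

open Filter Topology MeasureTheory
open scoped Real

namespace Pool.Agent.R436.EC

namespace DecAux

theorem summ (a : ℝ) (ha : 0 < a) : Summable fun j : ℤ => Real.exp (-(a * |(j : ℝ)|)) := by
  have h : Summable fun n : ℕ => Real.exp (n * (-a)) :=
    Real.summable_exp_nat_mul_iff.2 (by linarith)
  refine Summable.of_nat_of_neg (f := fun j : ℤ => Real.exp (-(a * |(j : ℝ)|))) ?_ ?_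
  · refine h.congr fun n => ?_
    congr 1
    rw [Int.cast_natCast, abs_of_nonneg (Nat.cast_nonneg n)]
    ring
  · refine h.congr fun n => ?_
    congr 1
    rw [Int.cast_neg, Int.cast_natCast, abs_neg, abs_of_nonneg (Nat.cast_nonneg n)]
    ring

/-- the constant of the bound for the kernel -/
noncomputable def BB (s : ℂ) : ℝ :=
  ∫ x in (0 : ℝ)..1, ‖(x : ℂ) ^ (s - 1) * (1 - (x : ℂ)) ^ (s - 1)‖

theorem BB_nonneg (s : ℂ) : 0 ≤ BB s :=
  intervalIntegral.integral_nonneg zero_le_one fun _ _ => norm_nonneg _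

theorem G_le (s : ℂ) (hs : 0 < s.re) (u : ℝ) (hu : 0 < u) :
    ‖G s u‖ ≤ 1 / (4 * π) * (BB s * u ^ (-s.re)) := by
  have h0 : ‖(1 / (4 * (π : ℂ)))‖ = 1 / (4 * π) := by
    have : (1 / (4 * (π : ℂ))) = ((1 / (4 * π) : ℝ) : ℂ) := by push_cast; rfl
    rw [this, Complex.norm_real, Real.norm_of_nonneg (by positivity)]
  rw [G, norm_mul, h0]
  refine mul_le_mul_of_nonneg_left ?_ (by positivity)
  rw [BB, ← intervalIntegral.integral_mul_const]
  refine intervalIntegral.norm_integral_le_of_norm_le zero_le_one ?_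
    ((Complex.betaIntegral_convergent hs hs).norm.mul_const _)
  refine Eventually.of_forall fun x hx => ?_
  have hx0 : 0 < x + u := by linarith [hx.1]
  rw [norm_mul]
  refine mul_le_mul_of_nonneg_left ?_ (norm_nonneg _)
  rw [Complex.norm_cpow_eq_rpow_re_of_pos hx0, Complex.neg_re]
  exact Real.rpow_le_rpow_of_nonpos hu (by linarith [hx.1]) (by linarith)

theorem exp_half (x : ℝ) : Real.exp |x| / 2 ≤ Real.cosh x := by
  rw [← Real.cosh_abs, Real.cosh_eq]
  have := Real.exp_pos (-|x|)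
  linarith

theorem cd_ge (r t r' t' : ℝ) :
    Real.exp (-|r|) * (Real.exp |r'| / 2) * (Real.exp |t - t'| / 2) ≤ cd r t r' t' := by
  have e1 : Real.exp (-|r|) = Real.cosh r - |Real.sinh r| := by
    rw [← Real.cosh_sub_sinh, Real.cosh_abs, Real.abs_sinh]
  have h1 := exp_half r'
  have h2 := exp_half (t - t')
  have h3 : |Real.sinh r'| ≤ Real.cosh r' := by
    rw [Real.abs_sinh, ← Real.cosh_abs r']
    exact (Real.sinh_lt_cosh _).le
  have h4 := Real.one_le_cosh (t - t')
  have h5 := Real.cosh_pos r'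
  have h6 : Real.sinh r * Real.sinh r' ≤ |Real.sinh r| * Real.cosh r' := by
    refine (le_abs_self _).trans ?_
    rw [abs_mul]
    exact mul_le_mul_of_nonneg_left h3 (abs_nonneg _)
  have h7 : |Real.sinh r| * Real.cosh r' ≤ |Real.sinh r| * Real.cosh r' * Real.cosh (t - t') :=
    le_mul_of_one_le_right (by positivity) h4
  have h8 : Real.exp (-|r|) * (Real.exp |r'| / 2) * (Real.exp |t - t'| / 2) ≤
      Real.exp (-|r|) * Real.cosh r' * Real.cosh (t - t') := by
    gcongr
  rw [cd]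
  rw [e1] at h8 ⊢
  linarith [sub_mul (Real.cosh r) |Real.sinh r| (Real.cosh r'),
    sub_mul (Real.cosh r * Real.cosh r') (|Real.sinh r| * Real.cosh r') (Real.cosh (t - t'))]

theorem shift_bd (l x a : ℝ) (hl : 0 < l) (ha : 0 < a) (h0 : 0 ≤ x) (h1 : x ≤ l) (j : ℤ) :
    Real.exp (-(a * |x - (j : ℝ) * l|)) ≤
      Real.exp (a * l) * Real.exp (-(a * l * |(j : ℝ)|)) := by
  rw [← Real.exp_add]
  refine Real.exp_le_exp.2 ?_
  have h2 : |(j : ℝ) * l| ≤ |x - (j : ℝ) * l| + |x| := by
    have := abs_sub_abs_le_abs_sub ((j : ℝ) * l) x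
    rw [abs_sub_comm] at this
    linarith
  rw [abs_mul, abs_of_pos hl, abs_of_nonneg h0] at h2
  nlinarith

end DecAux

open DecAux in
theorem dec : S_DEC := by
  intro l hl s hs r t
  set σ : ℝ := s.re with hσ
  set S : ℝ := ∑' j : ℤ, Real.exp (-(σ * l * |(j : ℝ)|)) with hS
  have sS : Summable fun j : ℤ => Real.exp (-(σ * l * |(j : ℝ)|)) := summ (σ * l) (by positivity)
  refine ⟨1 / (4 * π) * (BB s * (Real.exp (-|r|) / 16) ^ (-σ)) * (Real.exp (σ * l) * S),
    |r| + Real.log 8, fun r' t' hr' => ?_⟩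
  set n : ℤ := ⌊(t - t') / l⌋ with hn
  set x : ℝ := t - t' - n * l with hx
  have x0 : 0 ≤ x := by
    have := Int.floor_le ((t - t') / l)
    rw [le_div_iff₀ hl] at this
    linarith
  have x1 : x ≤ l := by
    have := Int.lt_floor_add_one ((t - t') / l)
    rw [div_lt_iff₀ hl] at this
    linarith
  have h8 : Real.exp (-|r|) * Real.exp |r'| ≥ 8 := by
    rw [← Real.exp_add]
    have h9 : Real.log 8 ≤ -|r| + |r'| := by linarith
    have h10 := Real.exp_le_exp.2 h9
    rwa [Real.exp_log (by norm_num)] at h10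
  have hk : ∀ k : ℤ, ‖G s ((cd r t r' (t' + (k : ℝ) * l) - 1) / 2)‖ ≤
      1 / (4 * π) * (BB s * (Real.exp (-|r|) / 16) ^ (-σ)) * Real.exp (-(σ * |r'|)) *
        (Real.exp (σ * l) * Real.exp (-(σ * l * |((k - n : ℤ) : ℝ)|))) := by
    intro k
    set τ : ℝ := t - (t' + (k : ℝ) * l) with hτ
    set w : ℝ := Real.exp (-|r|) / 16 * Real.exp |r'| * Real.exp |τ| with hw
    have hw0 : 0 < w := by positivity
    have h1 := cd_ge r t r' (t' + (k : ℝ) * l)
    rw [← hτ] at h1
    have h2 : 1 ≤ Real.exp |τ| := Real.one_le_exp (abs_nonneg _)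
    have h3 : 8 ≤ Real.exp (-|r|) * Real.exp |r'| * Real.exp |τ| := by nlinarith
    have h4 : w ≤ (cd r t r' (t' + (k : ℝ) * l) - 1) / 2 := by
      have e : w = Real.exp (-|r|) * Real.exp |r'| * Real.exp |τ| / 16 := by rw [hw]; ring
      have e2 : Real.exp (-|r|) * (Real.exp |r'| / 2) * (Real.exp |τ| / 2) =
        Real.exp (-|r|) * Real.exp |r'| * Real.exp |τ| / 4 := by ring
      rw [e]
      rw [e2] at h1
      linarith
    have h5 := G_le s hs _ (hw0.trans_le h4)
    rw [← hσ] at h5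
    have h6 : ((cd r t r' (t' + (k : ℝ) * l) - 1) / 2) ^ (-σ) ≤ w ^ (-σ) :=
      Real.rpow_le_rpow_of_nonpos hw0 h4 (by linarith)
    have h7 : w ^ (-σ) = (Real.exp (-|r|) / 16) ^ (-σ) * Real.exp (-(σ * |r'|)) *
        Real.exp (-(σ * |τ|)) := by
      rw [hw, Real.mul_rpow (by positivity) (by positivity),
        Real.mul_rpow (by positivity) (by positivity), ← Real.exp_mul, ← Real.exp_mul]
      congr 2
      · congr 1
        ring
      · ring
    have h9 : τ = x - ((k - n : ℤ) : ℝ) * l := by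
      rw [hτ, hx]
      push_cast
      ring
    have h10 := shift_bd l x σ hl hs x0 x1 (k - n)
    rw [← h9] at h10
    have h11 := BB_nonneg s
    calc ‖G s ((cd r t r' (t' + (k : ℝ) * l) - 1) / 2)‖
        ≤ 1 / (4 * π) * (BB s * w ^ (-σ)) := by
          refine h5.trans ?_
          gcongr
      _ = 1 / (4 * π) * (BB s * (Real.exp (-|r|) / 16) ^ (-σ)) * Real.exp (-(σ * |r'|)) *
          Real.exp (-(σ * |τ|)) := by
          rw [h7]
          ring
      _ ≤ _ := by
          gcongr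
  have hsum : HasSum (fun k : ℤ => 1 / (4 * π) * (BB s * (Real.exp (-|r|) / 16) ^ (-σ)) *
      Real.exp (-(σ * |r'|)) * (Real.exp (σ * l) *
        Real.exp (-(σ * l * |((k - n : ℤ) : ℝ)|))))
      (1 / (4 * π) * (BB s * (Real.exp (-|r|) / 16) ^ (-σ)) *
        Real.exp (-(σ * |r'|)) * (Real.exp (σ * l) * S)) := by
    refine HasSum.mul_left _ (HasSum.mul_left _ ?_)
    have h1 := sS.hasSum
    have h2 := (Equiv.subRight n).hasSum_iff (f := fun j : ℤ => Real.exp (-(σ * l * |(j : ℝ)|)))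
      (a := S)
    exact h2.2 h1
  have h := tsum_of_norm_bounded hsum hk
  rw [RX]
  refine h.trans (le_of_eq ?_)
  ring

end Pool.Agent.R436.EC
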