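import Pool.Agent.R436.EC.Stm2

set_option autoImplicit false

/-!
# EC-IBP: integration by parts in the plane
-/

open Filter Topology MeasureTheory
open scoped Real

namespace Pool.Agent.R436.EC

namespace Ibp

lemma hdr {φ : ℝ × ℝ → ℂ} (h : Differentiable ℝ φ) (z : ℝ × ℝ) :
    HasDerivAt (fun x : ℝ => φ (x, z.2)) (fderiv ℝ φ z (1, 0)) z.1 := by
  have h1 : HasFDerivAt φ (fderiv ℝ φ z) (z.1, z.2) := (h z).hasFDerivAt
  have h2 : HasDerivAt (fun x : ℝ => (x, z.2)) ((1 : ℝ), (0 : ℝ)) z.1 :=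
    (hasDerivAt_id z.1).prodMk (hasDerivAt_const z.1 z.2)
  exact h1.comp_hasDerivAt z.1 h2

lemma hdt {φ : ℝ × ℝ → ℂ} (h : Differentiable ℝ φ) (z : ℝ × ℝ) :
    HasDerivAt (fun x : ℝ => φ (z.1, x)) (fderiv ℝ φ z (0, 1)) z.2 := by
  have h1 : HasFDerivAt φ (fderiv ℝ φ z) (z.1, z.2) := (h z).hasFDerivAt
  have h2 : HasDerivAt (fun x : ℝ => (z.1, x)) ((0 : ℝ), (1 : ℝ)) z.2 :=
    (hasDerivAt_const z.2 z.1).prodMk (hasDerivAt_id z.2)
  exact h1.comp_hasDerivAt z.2 h2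

lemma dr_eq {φ : ℝ × ℝ → ℂ} (h : Differentiable ℝ φ) : dr φ = fun z => fderiv ℝ φ z (1, 0) :=
  funext fun z => (hdr h z).deriv

lemma dt_eq {φ : ℝ × ℝ → ℂ} (h : Differentiable ℝ φ) : dt φ = fun z => fderiv ℝ φ z (0, 1) :=
  funext fun z => (hdt h z).deriv

lemma dr_has {φ : ℝ × ℝ → ℂ} (h : Differentiable ℝ φ) (x y : ℝ) :
    HasDerivAt (fun x : ℝ => φ (x, y)) (dr φ (x, y)) x := by
  rw [dr_eq h]
  exact hdr h (x, y)

lemma dt_has {φ : ℝ × ℝ → ℂ} (h : Differentiable ℝ φ) (x y : ℝ) :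
    HasDerivAt (fun y : ℝ => φ (x, y)) (dt φ (x, y)) y := by
  rw [dt_eq h]
  exact hdt h (x, y)

lemma dr_C1 {φ : ℝ × ℝ → ℂ} (h : ContDiff ℝ 2 φ) : ContDiff ℝ 1 (dr φ) := by
  rw [dr_eq (h.differentiable (by norm_num))]
  exact (h.fderiv_right (m := 1) (by norm_num)).clm_apply contDiff_const

lemma dt_C1 {φ : ℝ × ℝ → ℂ} (h : ContDiff ℝ 2 φ) : ContDiff ℝ 1 (dt φ) := by
  rw [dt_eq (h.differentiable (by norm_num))]
  exact (h.fderiv_right (m := 1) (by norm_num)).clm_apply contDiff_const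

lemma dr_C0 {φ : ℝ × ℝ → ℂ} (h : ContDiff ℝ 1 φ) : Continuous (dr φ) := by
  rw [dr_eq (h.differentiable (by norm_num))]
  exact ((h.fderiv_right (m := 0) (by norm_num)).clm_apply contDiff_const).continuous

lemma dt_C0 {φ : ℝ × ℝ → ℂ} (h : ContDiff ℝ 1 φ) : Continuous (dt φ) := by
  rw [dt_eq (h.differentiable (by norm_num))]
  exact ((h.fderiv_right (m := 0) (by norm_num)).clm_apply contDiff_const).continuous

lemma dr_ev {φ : ℝ × ℝ → ℂ} (h : Differentiable ℝ φ) {z : ℝ × ℝ} (hz : φ =ᶠ[𝓝 z] 0) :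
    dr φ =ᶠ[𝓝 z] 0 := by
  rw [dr_eq h]
  have h1 := hz.fderiv (𝕜 := ℝ)
  filter_upwards [h1] with w hw
  rw [hw]
  simp

lemma dt_ev {φ : ℝ × ℝ → ℂ} (h : Differentiable ℝ φ) {z : ℝ × ℝ} (hz : φ =ᶠ[𝓝 z] 0) :
    dt φ =ᶠ[𝓝 z] 0 := by
  rw [dt_eq h]
  have h1 := hz.fderiv (𝕜 := ℝ)
  filter_upwards [h1] with w hw
  rw [hw]
  simp

lemma slice_x {F : ℝ × ℝ → ℂ} (hF : Continuous F) (hc : HasCompactSupport F) (y : ℝ) :
    Integrable fun x : ℝ => F (x, y) := by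
  refine Continuous.integrable_of_hasCompactSupport (by fun_prop) ?_
  refine HasCompactSupport.intro (hc.image continuous_fst) ?_
  intro x hx
  by_contra hne
  exact hx ⟨(x, y), subset_tsupport _ hne, rfl⟩

lemma slice_y {F : ℝ × ℝ → ℂ} (hF : Continuous F) (hc : HasCompactSupport F) (x : ℝ) :
    Integrable fun y : ℝ => F (x, y) := by
  refine Continuous.integrable_of_hasCompactSupport (by fun_prop) ?_
  refine HasCompactSupport.intro (hc.image continuous_snd) ?_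
  intro y hy
  by_contra hne
  exact hy ⟨(x, y), subset_tsupport _ hne, rfl⟩

lemma int_x (F Fx : ℝ × ℝ → ℂ) (hF : Continuous F) (hFc : HasCompactSupport F)
    (hFx : Continuous Fx) (hFxc : HasCompactSupport Fx)
    (hd : ∀ x y, HasDerivAt (fun x => F (x, y)) (Fx (x, y)) x) :
    Integrable Fx ∧ ∫ z : ℝ × ℝ, Fx z = 0 := by
  have hint : Integrable Fx := hFx.integrable_of_hasCompactSupport hFxc
  refine ⟨hint, ?_⟩
  rw [Measure.volume_eq_prod] at hint ⊢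
  rw [integral_prod_symm _ hint]
  have h : ∀ y : ℝ, ∫ x : ℝ, Fx (x, y) = 0 := fun y =>
    integral_eq_zero_of_hasDerivAt_of_integrable (fun x => hd x y) (slice_x hFx hFxc y)
      (slice_x hF hFc y)
  simp [h]

lemma int_y (F Fy : ℝ × ℝ → ℂ) (hF : Continuous F) (hFc : HasCompactSupport F)
    (hFy : Continuous Fy) (hFyc : HasCompactSupport Fy)
    (hd : ∀ x y, HasDerivAt (fun y => F (x, y)) (Fy (x, y)) y) :
    Integrable Fy ∧ ∫ z : ℝ × ℝ, Fy z = 0 := by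
  have hint : Integrable Fy := hFy.integrable_of_hasCompactSupport hFyc
  refine ⟨hint, ?_⟩
  rw [Measure.volume_eq_prod] at hint ⊢
  rw [integral_prod _ hint]
  have h : ∀ x : ℝ, ∫ y : ℝ, Fy (x, y) = 0 := fun x =>
    integral_eq_zero_of_hasDerivAt_of_integrable (fun y => hd x y) (slice_y hFy hFyc x)
      (slice_y hF hFc x)
  simp [h]

/-! ### geometry -/

/-- derivatives of `cd` -/
noncomputable def cx (r t x y : ℝ) : ℝ :=
  Real.cosh r * Real.sinh x * Real.cosh (t - y) - Real.sinh r * Real.cosh x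
noncomputable def cy (r t x y : ℝ) : ℝ := -(Real.cosh r * Real.cosh x * Real.sinh (t - y))
noncomputable def cyy (r t x y : ℝ) : ℝ := Real.cosh r * Real.cosh x * Real.cosh (t - y)

lemma h_cd_x (r t x y : ℝ) : HasDerivAt (fun x => cd r t x y) (cx r t x y) x := by
  unfold cd cx
  exact (((Real.hasDerivAt_cosh x).const_mul (Real.cosh r)).mul_const _).sub
    ((Real.hasDerivAt_sinh x).const_mul (Real.sinh r))

lemma h_cx_x (r t x y : ℝ) : HasDerivAt (fun x => cx r t x y) (cd r t x y) x := by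
  unfold cd cx
  exact (((Real.hasDerivAt_sinh x).const_mul (Real.cosh r)).mul_const _).sub
    ((Real.hasDerivAt_cosh x).const_mul (Real.sinh r))

lemma h_cd_y (r t x y : ℝ) : HasDerivAt (fun y => cd r t x y) (cy r t x y) y := by
  unfold cd cy
  have h1 : HasDerivAt (fun y : ℝ => t - y) (-1) y := by
    simpa using (hasDerivAt_id y).const_sub t
  have h2 := ((Real.hasDerivAt_cosh (t - y)).comp y h1).const_mul (Real.cosh r * Real.cosh x)
  have h3 := h2.sub_const (Real.sinh r * Real.sinh x)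
  exact h3.congr_deriv (by ring)

lemma h_cy_y (r t x y : ℝ) : HasDerivAt (fun y => cy r t x y) (cyy r t x y) y := by
  unfold cy cyy
  have h1 : HasDerivAt (fun y : ℝ => t - y) (-1) y := by
    simpa using (hasDerivAt_id y).const_sub t
  have h2 := (((Real.hasDerivAt_sinh (t - y)).comp y h1).const_mul (Real.cosh r * Real.cosh x)).neg
  exact h2.congr_deriv (by ring)

lemma one_le_cd (r t x y : ℝ) : 1 ≤ cd r t x y := by
  unfold cd
  have h1 := Real.one_le_cosh (r - x)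
  rw [Real.cosh_sub] at h1
  have h2 := Real.one_le_cosh (t - y)
  have h3 : 0 < Real.cosh r * Real.cosh x := mul_pos (Real.cosh_pos r) (Real.cosh_pos x)
  nlinarith

lemma id1 (r t x y : ℝ) : cd r t x y + Real.tanh x * cx r t x y +
    (Real.cosh x ^ 2)⁻¹ * cyy r t x y = 2 * cd r t x y := by
  have h := Real.cosh_sq x
  have h0 := (Real.cosh_pos x).ne'
  rw [Real.tanh_eq_sinh_div_cosh]
  unfold cd cx cyy
  field_simp
  linear_combination (- Real.cosh r * Real.cosh (t - y)) * h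

lemma id2 (r t x y : ℝ) : cx r t x y ^ 2 + (Real.cosh x ^ 2)⁻¹ * cy r t x y ^ 2 =
    cd r t x y ^ 2 - 1 := by
  have h0 := (Real.cosh_pos x).ne'
  have h1 := Real.cosh_sq x
  have h2 := Real.cosh_sq r
  have h3 := Real.cosh_sq (t - y)
  have e : (Real.cosh x ^ 2)⁻¹ * cy r t x y ^ 2 = Real.cosh r ^ 2 * Real.sinh (t - y) ^ 2 := by
    unfold cy
    field_simp
  rw [e]
  unfold cd cx
  linear_combination (Real.sinh r ^ 2 - Real.cosh r ^ 2 * Real.cosh (t - y) ^ 2) * h1 -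
    Real.cosh r ^ 2 * h3 - h2

/-- the pointwise identity -/
lemma alg (ch sh th iv D X Y YY g g1 g2 e s p px pxx pyy : ℂ) (hch : ch ≠ 0) (hth : th = sh / ch)
    (hiv : iv = (ch ^ 2)⁻¹) (I1 : D + th * X + iv * YY = 2 * D) (I2 : X ^ 2 + iv * Y ^ 2 = D ^ 2 - 1)
    (ode : ((D - 1) / 2 + e) * (((D - 1) / 2 + e) + 1) * g2 + (2 * ((D - 1) / 2 + e) + 1) * g1 =
      s * (s - 1) * g) :
    g * (-(pxx + th * px + iv * pyy) - s * (1 - s) * p) * ch =
      (e * (2 * ((D - 1) / 2) + 1 + e) * g2 + 2 * e * g1) * p * ch -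
      (sh * (g * px - X / 2 * g1 * p) + ch * (g * pxx - (D / 2 * g1 + (X / 2) ^ 2 * g2) * p)) -
      ch⁻¹ * (g * pyy - (YY / 2 * g1 + (Y / 2) ^ 2 * g2) * p) := by
  have h1 : sh = th * ch := by rw [hth]; field_simp
  have h2 : ch⁻¹ = iv * ch := by rw [hiv]; field_simp
  rw [h1, h2]
  linear_combination (-(p * ch)) * ode + (-(p * ch * g1 / 2)) * I1 + (-(p * ch * g2 / 4)) * I2

end Ibp

open Ibp in
theorem ibp (hO : S_ODE) : S_IBP := by
  intro s hs φ hφ hc r t ε hε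
  have hd : Differentiable ℝ φ := hφ.differentiable (by norm_num)
  have hdx : Differentiable ℝ (dr φ) := (dr_C1 hφ).differentiable (by norm_num)
  have hdy : Differentiable ℝ (dt φ) := (dt_C1 hφ).differentiable (by norm_num)
  have cφ : Continuous φ := hφ.continuous
  have cφx : Continuous (dr φ) := (dr_C1 hφ).continuous
  have cφy : Continuous (dt φ) := (dt_C1 hφ).continuous
  have cφxx : Continuous (dr (dr φ)) := dr_C0 (dr_C1 hφ)
  have cφyy : Continuous (dt (dt φ)) := dt_C0 (dt_C1 hφ)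
  -- the argument
  have hU : ∀ x y, 0 < (cd r t x y - 1) / 2 + ε := by
    intro x y
    have := one_le_cd r t x y
    linarith
  have cU : Continuous (fun z : ℝ × ℝ => (cd r t z.1 z.2 - 1) / 2 + ε) := by
    unfold cd
    fun_prop
  have hUx : ∀ x y, HasDerivAt (fun x => (cd r t x y - 1) / 2 + ε) (cx r t x y / 2) x :=
    fun x y => (((h_cd_x r t x y).sub_const 1).div_const 2).add_const ε
  have hUy : ∀ x y, HasDerivAt (fun y => (cd r t x y - 1) / 2 + ε) (cy r t x y / 2) y :=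
    fun x y => (((h_cd_y r t x y).sub_const 1).div_const 2).add_const ε
  -- the functions
  obtain ⟨f, hf⟩ : ∃ f : ℝ × ℝ → ℂ, f = fun z => G s ((cd r t z.1 z.2 - 1) / 2 + ε) := ⟨_, rfl⟩
  obtain ⟨f1, hf1⟩ : ∃ f : ℝ × ℝ → ℂ, f = fun z => G1 s ((cd r t z.1 z.2 - 1) / 2 + ε) := ⟨_, rfl⟩
  obtain ⟨f2, hf2⟩ : ∃ f : ℝ × ℝ → ℂ, f = fun z => G2 s ((cd r t z.1 z.2 - 1) / 2 + ε) := ⟨_, rfl⟩
  have cf : Continuous f := by
    rw [hf]
    refine continuous_iff_continuousAt.mpr fun z => ?_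
    exact ContinuousAt.comp (g := G s) (hO s hs _ (hU z.1 z.2)).1.continuousAt cU.continuousAt
  have cf1 : Continuous f1 := by
    rw [hf1]
    refine continuous_iff_continuousAt.mpr fun z => ?_
    exact ContinuousAt.comp (g := G1 s) (hO s hs _ (hU z.1 z.2)).2.1.continuousAt cU.continuousAt
  have cf2 : Continuous f2 := by
    rw [hf2]
    refine continuous_iff_continuousAt.mpr fun z => ?_
    exact ContinuousAt.comp (g := G2 s) (hO s hs _ (hU z.1 z.2)).2.2.1 cU.continuousAt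
  have dfx : ∀ x y, HasDerivAt (fun x => f (x, y)) (((cx r t x y / 2 : ℝ) : ℂ) * f1 (x, y)) x := by
    intro x y
    have h := (hO s hs _ (hU x y)).1.scomp x (hUx x y)
    rw [hf, hf1]
    rw [Complex.real_smul] at h
    exact h
  have df1x : ∀ x y, HasDerivAt (fun x => f1 (x, y)) (((cx r t x y / 2 : ℝ) : ℂ) * f2 (x, y)) x := by
    intro x y
    have h := (hO s hs _ (hU x y)).2.1.scomp x (hUx x y)
    rw [hf1, hf2]
    rw [Complex.real_smul] at h
    exact h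
  have dfy : ∀ x y, HasDerivAt (fun y => f (x, y)) (((cy r t x y / 2 : ℝ) : ℂ) * f1 (x, y)) y := by
    intro x y
    have h := (hO s hs _ (hU x y)).1.scomp y (hUy x y)
    rw [hf, hf1]
    rw [Complex.real_smul] at h
    exact h
  have df1y : ∀ x y, HasDerivAt (fun y => f1 (x, y)) (((cy r t x y / 2 : ℝ) : ℂ) * f2 (x, y)) y := by
    intro x y
    have h := (hO s hs _ (hU x y)).2.1.scomp y (hUy x y)
    rw [hf1, hf2]
    rw [Complex.real_smul] at h
    exact h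
  have ccx : Continuous (fun z : ℝ × ℝ => cx r t z.1 z.2) := by unfold cx; fun_prop
  have ccy : Continuous (fun z : ℝ × ℝ => cy r t z.1 z.2) := by unfold cy; fun_prop
  have ccyy : Continuous (fun z : ℝ × ℝ => cyy r t z.1 z.2) := by unfold cyy; fun_prop
  have ccd : Continuous (fun z : ℝ × ℝ => cd r t z.1 z.2) := by unfold cd; fun_prop
  -- values outside of the support
  have hz0 : ∀ z, z ∉ tsupport φ → φ z = 0 ∧ dr φ z = 0 ∧ dt φ z = 0 ∧ dr (dr φ) z = 0 ∧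
      dt (dt φ) z = 0 := by
    intro z hz
    have he := notMem_tsupport_iff_eventuallyEq.mp hz
    have h1 := dr_ev hd he
    have h2 := dt_ev hd he
    exact ⟨he.eq_of_nhds, h1.eq_of_nhds, h2.eq_of_nhds, (dr_ev hdx h1).eq_of_nhds,
      (dt_ev hdy h2).eq_of_nhds⟩
  obtain ⟨px, hpx⟩ : ∃ p, p = dr φ := ⟨_, rfl⟩
  obtain ⟨py, hpy⟩ : ∃ p, p = dt φ := ⟨_, rfl⟩
  obtain ⟨pxx, hpxx⟩ : ∃ p, p = dr px := ⟨_, rfl⟩
  obtain ⟨pyy, hpyy⟩ : ∃ p, p = dt py := ⟨_, rfl⟩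
  rw [← hpx, ← hpy, ← hpxx, ← hpyy] at hz0
  rw [← hpx, ← hpxx] at cφxx
  rw [← hpy, ← hpyy] at cφyy
  rw [← hpx] at cφx hdx
  rw [← hpy] at cφy hdy
  have dpx : ∀ x y, HasDerivAt (fun x => px (x, y)) (pxx (x, y)) x := by
    intro x y; rw [hpxx]; exact dr_has hdx x y
  have dpy : ∀ x y, HasDerivAt (fun y => py (x, y)) (pyy (x, y)) y := by
    intro x y; rw [hpyy]; exact dt_has hdy x y
  have dφx : ∀ x y, HasDerivAt (fun x => φ (x, y)) (px (x, y)) x := by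
    intro x y; rw [hpx]; exact dr_has hd x y
  have dφy : ∀ x y, HasDerivAt (fun y => φ (x, y)) (py (x, y)) y := by
    intro x y; rw [hpy]; exact dt_has hd x y
  have cch : Continuous (fun z : ℝ × ℝ => ((Real.cosh z.1 : ℝ) : ℂ)) := by fun_prop
  have csh : Continuous (fun z : ℝ × ℝ => ((Real.sinh z.1 : ℝ) : ℂ)) := by fun_prop
  have cich : Continuous (fun z : ℝ × ℝ => ((Real.cosh z.1 : ℝ) : ℂ)⁻¹) := by
    refine cch.inv₀ fun z => ?_
    exact_mod_cast (Real.cosh_pos z.1).ne'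
  have cX : Continuous (fun z : ℝ × ℝ => ((cx r t z.1 z.2 : ℝ) : ℂ)) := by fun_prop
  have cY : Continuous (fun z : ℝ × ℝ => ((cy r t z.1 z.2 : ℝ) : ℂ)) := by fun_prop
  have cYY : Continuous (fun z : ℝ × ℝ => ((cyy r t z.1 z.2 : ℝ) : ℂ)) := by fun_prop
  have cD : Continuous (fun z : ℝ × ℝ => ((cd r t z.1 z.2 : ℝ) : ℂ)) := by fun_prop
  have K1 := int_x (fun z => ((Real.cosh z.1 : ℝ) : ℂ) * (f z * px z -
      ((cx r t z.1 z.2 : ℝ) : ℂ) / 2 * f1 z * φ z))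
    (fun z => ((Real.sinh z.1 : ℝ) : ℂ) * (f z * px z - ((cx r t z.1 z.2 : ℝ) : ℂ) / 2 * f1 z * φ z) +
      ((Real.cosh z.1 : ℝ) : ℂ) * (f z * pxx z - (((cd r t z.1 z.2 : ℝ) : ℂ) / 2 * f1 z +
        (((cx r t z.1 z.2 : ℝ) : ℂ) / 2) ^ 2 * f2 z) * φ z))
    (by fun_prop)
    (HasCompactSupport.intro hc fun z hz => by
      obtain ⟨h1, h2, h3, h4, h5⟩ := hz0 z hz
      simp only [h1, h2]; ring)
    (by fun_prop)
    (HasCompactSupport.intro hc fun z hz => by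
      obtain ⟨h1, h2, h3, h4, h5⟩ := hz0 z hz
      simp only [h1, h2, h4]; ring)
    (by
      intro x y
      have a1 := (Real.hasDerivAt_cosh x).ofReal_comp
      have a2 := (dfx x y).mul (dpx x y)
      have a3 := ((((h_cx_x r t x y).ofReal_comp).div_const 2).mul (df1x x y)).mul (dφx x y)
      have a4 := a1.mul (a2.sub a3)
      refine a4.congr_deriv ?_
      simp only [Pi.mul_apply, Pi.sub_apply]
      push_cast
      ring)
  have K2 := int_y (fun z => ((Real.cosh z.1 : ℝ) : ℂ)⁻¹ * (f z * py z -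
      ((cy r t z.1 z.2 : ℝ) : ℂ) / 2 * f1 z * φ z))
    (fun z => ((Real.cosh z.1 : ℝ) : ℂ)⁻¹ * (f z * pyy z - (((cyy r t z.1 z.2 : ℝ) : ℂ) / 2 * f1 z +
        (((cy r t z.1 z.2 : ℝ) : ℂ) / 2) ^ 2 * f2 z) * φ z))
    (by fun_prop)
    (HasCompactSupport.intro hc fun z hz => by
      obtain ⟨h1, h2, h3, h4, h5⟩ := hz0 z hz
      simp only [h1, h3]; ring)
    (by fun_prop)
    (HasCompactSupport.intro hc fun z hz => by
      obtain ⟨h1, h2, h3, h4, h5⟩ := hz0 z hz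
      simp only [h1, h5]; ring)
    (by
      intro x y
      have a2 := (dfy x y).mul (dpy x y)
      have a3 := ((((h_cy_y r t x y).ofReal_comp).div_const 2).mul (df1y x y)).mul (dφy x y)
      have a4 := (a2.sub a3).const_mul (((Real.cosh x : ℝ) : ℂ)⁻¹)
      refine a4.congr_deriv ?_
      simp only [Pi.mul_apply]
      push_cast
      ring)
  have hk : Continuous (fun z : ℝ × ℝ => kk s ε ((cd r t z.1 z.2 - 1) / 2) * φ z *
      ((Real.cosh z.1 : ℝ) : ℂ)) := by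
    have e : (fun z : ℝ × ℝ => kk s ε ((cd r t z.1 z.2 - 1) / 2) * φ z *
        ((Real.cosh z.1 : ℝ) : ℂ)) = fun z => ((ε : ℂ) * (2 * ((((cd r t z.1 z.2 : ℝ) : ℂ) - 1) / 2) +
          1 + (ε : ℂ)) * f2 z + 2 * (ε : ℂ) * f1 z) * φ z * ((Real.cosh z.1 : ℝ) : ℂ) := by
      funext z
      rw [hf1, hf2]
      unfold kk
      push_cast
      ring
    rw [e]
    fun_prop
  have hki : Integrable (fun z : ℝ × ℝ => kk s ε ((cd r t z.1 z.2 - 1) / 2) * φ z *
      ((Real.cosh z.1 : ℝ) : ℂ)) := by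
    refine hk.integrable_of_hasCompactSupport (HasCompactSupport.intro hc fun z hz => ?_)
    rw [(hz0 z hz).1, mul_zero, zero_mul]
  -- the pointwise identity
  have hp : ∀ z : ℝ × ℝ, G s ((cd r t z.1 z.2 - 1) / 2 + ε) * Lop s φ z * ((Real.cosh z.1 : ℝ) : ℂ) =
      kk s ε ((cd r t z.1 z.2 - 1) / 2) * φ z * ((Real.cosh z.1 : ℝ) : ℂ) -
      (((Real.sinh z.1 : ℝ) : ℂ) * (f z * px z - ((cx r t z.1 z.2 : ℝ) : ℂ) / 2 * f1 z * φ z) +
      ((Real.cosh z.1 : ℝ) : ℂ) * (f z * pxx z - (((cd r t z.1 z.2 : ℝ) : ℂ) / 2 * f1 z +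
        (((cx r t z.1 z.2 : ℝ) : ℂ) / 2) ^ 2 * f2 z) * φ z)) -
      (((Real.cosh z.1 : ℝ) : ℂ)⁻¹ * (f z * pyy z - (((cyy r t z.1 z.2 : ℝ) : ℂ) / 2 * f1 z +
        (((cy r t z.1 z.2 : ℝ) : ℂ) / 2) ^ 2 * f2 z) * φ z)) := by
    intro z
    have hch : ((Real.cosh z.1 : ℝ) : ℂ) ≠ 0 := by exact_mod_cast (Real.cosh_pos z.1).ne'
    have j1 := congrArg (fun x : ℝ => (x : ℂ)) (id1 r t z.1 z.2)
    have j2 := congrArg (fun x : ℝ => (x : ℂ)) (id2 r t z.1 z.2)
    have j3 := (hO s hs _ (hU z.1 z.2)).2.2.2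
    have j4 := alg ((Real.cosh z.1 : ℝ) : ℂ) ((Real.sinh z.1 : ℝ) : ℂ) ((Real.tanh z.1 : ℝ) : ℂ)
      (((Real.cosh z.1 ^ 2)⁻¹ : ℝ) : ℂ) ((cd r t z.1 z.2 : ℝ) : ℂ) ((cx r t z.1 z.2 : ℝ) : ℂ)
      ((cy r t z.1 z.2 : ℝ) : ℂ) ((cyy r t z.1 z.2 : ℝ) : ℂ) (f z) (f1 z) (f2 z) (ε : ℂ) s (φ z)
      (px z) (pxx z) (pyy z) hch
      (by rw [Real.tanh_eq_sinh_div_cosh]; push_cast; rfl)
      (by push_cast; rfl)
      (by
        rw [Complex.ofReal_add, Complex.ofReal_add, Complex.ofReal_mul, Complex.ofReal_mul,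
          Complex.ofReal_mul] at j1
        simpa using j1)
      (by
        rw [Complex.ofReal_add, Complex.ofReal_mul, Complex.ofReal_sub, Complex.ofReal_pow,
          Complex.ofReal_pow, Complex.ofReal_pow] at j2
        simpa using j2)
      (by
        rw [hf, hf1, hf2]
        push_cast at j3
        exact j3)
    have j5 : Lop s φ z = -(pxx z + ((Real.tanh z.1 : ℝ) : ℂ) * px z +
        (((Real.cosh z.1 ^ 2)⁻¹ : ℝ) : ℂ) * pyy z) - s * (1 - s) * φ z := by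
      rw [hpxx, hpyy, hpx, hpy]
      rfl
    have j6 : kk s ε ((cd r t z.1 z.2 - 1) / 2) = (ε : ℂ) * (2 * ((((cd r t z.1 z.2 : ℝ) : ℂ) - 1) / 2) +
          1 + (ε : ℂ)) * f2 z + 2 * (ε : ℂ) * f1 z := by
      rw [hf1, hf2]
      unfold kk
      push_cast
      ring
    have j7 : G s ((cd r t z.1 z.2 - 1) / 2 + ε) = f z := by rw [hf]
    rw [j5, j6, j7]
    exact j4
  rw [integral_congr_ae (Filter.Eventually.of_forall hp)]
  refine (integral_sub (hki.sub K1.1) K2.1).trans ?_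
  rw [K2.2, sub_zero]
  refine (integral_sub hki K1.1).trans ?_
  rw [K1.2, sub_zero]

end Pool.Agent.R436.EC
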