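import Pool.Agent.R436.EC.Stm2

/-!
# EC-LG: dominated convergence with a logarithmic singularity
-/

set_option autoImplicit false

open Filter Topology MeasureTheory
open scoped Real

namespace Pool.Agent.R436.EC

namespace LG

/-- the one-dimensional bound -/
noncomputable def F1 (r A B : ℝ) (x : ℝ) : ℝ :=
  A * (1 + (B + (2 * |Real.log (x - r)| + Real.log 4)))

theorem F1_nonneg {r A B : ℝ} (hA : 0 ≤ A) (hB : 0 ≤ B) (x : ℝ) : 0 ≤ F1 r A B x := by
  unfold F1
  have : 0 ≤ Real.log 4 := Real.log_nonneg (by norm_num)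
  positivity

theorem F1_int (r A B R : ℝ) (hR : 0 ≤ R) : IntegrableOn (F1 r A B) (Set.Icc (-R) R) := by
  rw [integrableOn_Icc_iff_integrableOn_Ioc, ← intervalIntegrable_iff_integrableOn_Ioc_of_le
    (by linarith)]
  have h1 : IntervalIntegrable (fun x => Real.log (x - r)) volume (-R) R := by
    have h := (intervalIntegral.intervalIntegrable_log' (a := -R - r) (b := R - r)).comp_sub_right r
    simpa using h
  unfold F1
  refine IntervalIntegrable.const_mul ?_ _
  refine (intervalIntegrable_const).add ?_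
  refine (intervalIntegrable_const).add ?_
  exact (h1.abs.const_mul 2).add intervalIntegrable_const

theorem logb {w u b : ℝ} (hw : 0 < w) (hwu : w ≤ u) (hub : u ≤ b) :
    |Real.log u| ≤ |Real.log b| + |Real.log w| := by
  have h1 := Real.log_le_log hw hwu
  have h2 := Real.log_le_log (hw.trans_le hwu) hub
  rw [abs_le]
  constructor
  · have := neg_abs_le (Real.log w)
    have := abs_nonneg (Real.log b)
    linarith
  · have := le_abs_self (Real.log b)
    have := abs_nonneg (Real.log w)
    linarith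

theorem logw {x r : ℝ} (h : x ≠ r) :
    |Real.log ((r - x) ^ 2 / 4)| ≤ 2 * |Real.log (x - r)| + Real.log 4 := by
  have h1 : x - r ≠ 0 := sub_ne_zero.2 h
  have h2 : (r - x) ^ 2 = (x - r) ^ 2 := by ring
  have h4 : 0 ≤ Real.log 4 := Real.log_nonneg (by norm_num)
  rw [h2, Real.log_div (pow_ne_zero 2 h1) (by norm_num), Real.log_pow]
  push_cast
  refine (abs_sub _ _).trans ?_
  rw [abs_mul, abs_of_nonneg (show (0:ℝ) ≤ 2 by norm_num), abs_of_nonneg h4]

end LG

open LG

theorem lg (hS : S_SING) (hO : S_ODE) (hC : S_CD) : S_LG := by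
  intro s hs ψ hψ hψc r t
  have hG : ∀ u : ℝ, 0 < u → ContinuousAt (G s) u := fun u hu => (hO s hs u hu).1.continuousAt
  set v : ℝ × ℝ → ℝ := fun z => (cd r t z.1 z.2 - 1) / 2 with hv
  have hvc : Continuous v := by
    simp only [hv]
    unfold cd
    have h1 : Continuous fun z : ℝ × ℝ => Real.cosh z.1 := Real.continuous_cosh.comp continuous_fst
    have h2 : Continuous fun z : ℝ × ℝ => Real.sinh z.1 := Real.continuous_sinh.comp continuous_fst
    have h3 : Continuous fun z : ℝ × ℝ => Real.cosh (t - z.2) :=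
      Real.continuous_cosh.comp (continuous_const.sub continuous_snd)
    exact ((((continuous_const.mul h1).mul h3).sub (continuous_const.mul h2)).sub
      continuous_const).div_const _
  have hvge : ∀ z : ℝ × ℝ, (r - z.1) ^ 2 / 4 + (t - z.2) ^ 2 / 4 ≤ v z := fun z =>
    (hC r t).1 z.1 z.2
  have hvge1 : ∀ z : ℝ × ℝ, (r - z.1) ^ 2 / 4 ≤ v z := fun z => by
    have h1 := hvge z
    have h2 : 0 ≤ (t - z.2) ^ 2 / 4 := by positivity
    linarith
  have hv0 : ∀ z, 0 ≤ v z := fun z => le_trans (by positivity) (hvge1 z)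
  have hvpos : ∀ z : ℝ × ℝ, z.1 ≠ r → 0 < v z := fun z hz => by
    have h1 : 0 < (r - z.1) ^ 2 / 4 := by
      have : r - z.1 ≠ 0 := sub_ne_zero.2 (Ne.symm hz)
      positivity
    exact h1.trans_le (hvge1 z)
  obtain ⟨M, hM⟩ := hψ.bounded_above_of_compact_support hψc
  have hM0 : 0 ≤ M := (norm_nonneg _).trans (hM 0)
  obtain ⟨R, hR0, hR⟩ : ∃ R : ℝ, 0 < R ∧ ∀ z, ψ z ≠ 0 → z ∈ Metric.closedBall (0 : ℝ × ℝ) R := by
    obtain ⟨R, hR0, hR⟩ := hψc.isCompact.isBounded.subset_closedBall_lt 0 (0 : ℝ × ℝ)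
    exact ⟨R, hR0, fun z hz => hR (subset_tsupport _ hz)⟩
  obtain ⟨b0, hb0⟩ := (isCompact_closedBall (0 : ℝ × ℝ) R).exists_bound_of_continuousOn
    hvc.continuousOn
  have hb00 : 0 ≤ b0 := (norm_nonneg _).trans (hb0 0 (Metric.mem_closedBall_self hR0.le))
  obtain ⟨C, hC'⟩ := (hS s hs).2.2 (b0 + 1) (by positivity)
  have hne : ∀ᵐ z : ℝ × ℝ, z.1 ≠ r := by
    have h1 : ∀ᵐ x : ℝ, x ≠ r := by
      rw [ae_iff]
      simp
    exact (Measure.quasiMeasurePreserving_fst (μ := (volume : Measure ℝ))
      (ν := (volume : Measure ℝ))).ae h1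
  refine tendsto_integral_filter_of_dominated_convergence
    (fun z => (Set.Icc (-R) R).indicator (F1 r (|C| * M) |Real.log (b0 + 1)|) z.1 *
      (Set.Icc (-R) R).indicator (fun _ => (1 : ℝ)) z.2) ?_ ?_ ?_ ?_
  · filter_upwards [self_mem_nhdsWithin] with ε hε
    have hε' : 0 < ε := hε
    refine Continuous.aestronglyMeasurable ?_
    refine Continuous.mul ?_ hψ
    rw [continuous_iff_continuousAt]
    intro z
    have h1 : ContinuousAt (G s) (v z + ε) := hG _ (by have := hv0 z; linarith)
    have h2 : ContinuousAt (fun z => v z + ε) z := (hvc.add continuous_const).continuousAt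
    exact ContinuousAt.comp (f := fun z => v z + ε) h1 h2
  · have h1 : ∀ᶠ ε : ℝ in 𝓝[>] 0, ε ≤ 1 :=
      mem_nhdsWithin_of_mem_nhds (Iic_mem_nhds one_pos)
    filter_upwards [self_mem_nhdsWithin, h1] with ε hε hε1
    have hε' : 0 < ε := hε
    filter_upwards [hne] with z hz
    have hFn := F1_nonneg (r := r) (A := |C| * M) (B := |Real.log (b0 + 1)|) (by positivity)
      (abs_nonneg _)
    by_cases hψz : ψ z = 0
    · rw [hψz, mul_zero, norm_zero]
      refine mul_nonneg (Set.indicator_nonneg (fun x _ => hFn x) _)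
        (Set.indicator_nonneg (fun x _ => zero_le_one) _)
    · have hzR := hR z hψz
      have hzn : ‖z‖ ≤ R := by simpa using hzR
      have hz1 : z.1 ∈ Set.Icc (-R) R := by
        have := (norm_fst_le z).trans hzn
        rw [Real.norm_eq_abs, abs_le] at this
        exact this
      have hz2 : z.2 ∈ Set.Icc (-R) R := by
        have := (norm_snd_le z).trans hzn
        rw [Real.norm_eq_abs, abs_le] at this
        exact this
      rw [Set.indicator_of_mem hz1, Set.indicator_of_mem hz2, mul_one, norm_mul]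
      have hu0 : 0 < v z + ε := by have := hv0 z; linarith
      have hub : v z + ε ≤ b0 + 1 := by
        have h2 := hb0 z hzR
        rw [Real.norm_eq_abs] at h2
        have := le_abs_self (v z)
        linarith
      have h2 := (hC' (v z + ε) hu0 hub).1
      have hw : 0 < (r - z.1) ^ 2 / 4 := by
        have : r - z.1 ≠ 0 := sub_ne_zero.2 (Ne.symm hz)
        positivity
      have h3 := logb hw (show (r - z.1) ^ 2 / 4 ≤ v z + ε by have := hvge1 z; linarith) hub
      have h4 := logw hz
      have h5 : ‖G s (v z + ε)‖ ≤ |C| * (1 + (|Real.log (b0 + 1)| +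
          (2 * |Real.log (z.1 - r)| + Real.log 4))) := by
        refine h2.trans ?_
        calc C * (1 + |Real.log (v z + ε)|) ≤ |C| * (1 + |Real.log (v z + ε)|) :=
              mul_le_mul_of_nonneg_right (le_abs_self C) (by positivity)
          _ ≤ _ := mul_le_mul_of_nonneg_left (by linarith) (abs_nonneg C)
      calc ‖G s (v z + ε)‖ * ‖ψ z‖ ≤ (|C| * (1 + (|Real.log (b0 + 1)| +
          (2 * |Real.log (z.1 - r)| + Real.log 4)))) * M :=
            mul_le_mul h5 (hM z) (norm_nonneg _) ((norm_nonneg _).trans h5)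
        _ = F1 r (|C| * M) |Real.log (b0 + 1)| z.1 := by unfold F1; ring
  · have h1 : Integrable ((Set.Icc (-R) R).indicator (F1 r (|C| * M) |Real.log (b0 + 1)|)) :=
      (integrable_indicator_iff measurableSet_Icc).2 (F1_int _ _ _ _ hR0.le)
    have h2 : Integrable ((Set.Icc (-R) R).indicator (fun _ : ℝ => (1 : ℝ))) :=
      (integrable_indicator_iff measurableSet_Icc).2 (continuousOn_const.integrableOn_Icc)
    exact h1.mul_prod h2
  · filter_upwards [hne] with z hz
    refine Tendsto.mul_const _ ?_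
    have h1 : Tendsto (fun ε : ℝ => v z + ε) (𝓝[>] 0) (𝓝 (v z)) := by
      have h2 : Continuous fun ε : ℝ => v z + ε := by fun_prop
      have h3 := (h2.tendsto 0).mono_left (nhdsWithin_le_nhds (s := Set.Ioi (0:ℝ)))
      simpa using h3
    exact (hG _ (hvpos z hz)).tendsto.comp h1

end Pool.Agent.R436.EC
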