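import Pool.Agent.R436.EC.Stm

/-!
# EC-LIM: the limit of the resolvent kernel
-/

set_option autoImplicit false

open Filter Topology MeasureTheory
open scoped Real

namespace Pool.Agent.R436.EC

namespace LimP

theorem cd_eq (r t t' ρ : ℝ) (hρ : 0 < ρ) :
    cd r t (Real.log (2 / ρ)) t' =
      W r (t - t') / ρ + ρ / 4 * (Real.cosh r * Real.cosh (t - t') + Real.sinh r) := by
  have h2 : 0 < 2 / ρ := by positivity
  rw [cd, W, Real.cosh_log h2, Real.sinh_log h2]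
  field_simp
  ring

theorem W_ge (r τ : ℝ) : Real.exp (-r) * Real.cosh τ / 2 ≤ W r τ := by
  have hc := Real.one_le_cosh τ
  have he : Real.exp (-r) = Real.cosh r - Real.sinh r := (Real.cosh_sub_sinh r).symm
  have hpos := Real.exp_pos (-r)
  rcases le_total 0 r with h | h
  · have hs : 0 ≤ Real.sinh r := Real.sinh_nonneg_iff.2 h
    have h1 : 0 ≤ Real.sinh r * (Real.cosh τ - 1) := mul_nonneg hs (by linarith)
    have h2 : W r τ = Real.exp (-r) * Real.cosh τ + Real.sinh r * (Real.cosh τ - 1) := by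
      rw [he, W]; ring
    have h3 : 0 ≤ Real.exp (-r) * Real.cosh τ := by positivity
    linarith
  · have hs : Real.sinh r ≤ 0 := Real.sinh_nonpos_iff.2 h
    have hcr : Real.exp (-r) / 2 ≤ Real.cosh r := by
      rw [Real.cosh_eq]
      have := Real.exp_pos r
      linarith
    have h1 : Real.exp (-r) / 2 * Real.cosh τ ≤ Real.cosh r * Real.cosh τ :=
      mul_le_mul_of_nonneg_right hcr (by linarith)
    rw [W]
    linarith

theorem W_pos (r τ : ℝ) : 0 < W r τ := by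
  have h := W_ge r τ
  have h1 : 0 < Real.exp (-r) * Real.cosh τ / 2 := by
    have := Real.cosh_pos τ
    positivity
  linarith

theorem W_ge1 (r τ : ℝ) : Real.exp (-r) / 2 ≤ W r τ := by
  have h := W_ge r τ
  have h1 : Real.exp (-r) * 1 ≤ Real.exp (-r) * Real.cosh τ :=
    mul_le_mul_of_nonneg_left (Real.one_le_cosh τ) (Real.exp_pos _).le
  linarith

/-- `ρ (x + u)` -/
noncomputable def hh (r τ ρ x : ℝ) : ℝ :=
  ρ * x + W r τ / 2 + ρ ^ 2 / 8 * (Real.cosh r * Real.cosh τ + Real.sinh r) - ρ / 2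

theorem hh_ge (r τ ρ x : ℝ) (hρ : 0 < ρ) (hρ2 : ρ ≤ Real.exp (-r) / 4) (hx : 0 ≤ x) :
    W r τ / 4 ≤ hh r τ ρ x := by
  have h1 := W_ge1 r τ
  have h2 : 0 ≤ Real.cosh r * Real.cosh τ + Real.sinh r := by
    have hc := Real.one_le_cosh τ
    have hcr := Real.cosh_pos r
    have h3 : Real.cosh r * 1 ≤ Real.cosh r * Real.cosh τ :=
      mul_le_mul_of_nonneg_left hc hcr.le
    have h4 : Real.cosh r + Real.sinh r = Real.exp r := Real.cosh_add_sinh r
    have h5 := Real.exp_pos r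
    linarith
  have h6 : 0 ≤ ρ * x := by positivity
  have h7 : 0 ≤ ρ ^ 2 / 8 * (Real.cosh r * Real.cosh τ + Real.sinh r) := by positivity
  rw [hh]
  linarith

theorem hh_tendsto (r τ x : ℝ) : Tendsto (fun ρ => hh r τ ρ x) (𝓝[>] 0) (𝓝 (W r τ / 2)) := by
  have hc : Continuous (fun ρ => hh r τ ρ x) := by
    unfold hh
    fun_prop
  have h := (hc.tendsto 0).mono_left (nhdsWithin_le_nhds (s := Set.Ioi (0 : ℝ)))
  have e : hh r τ 0 x = W r τ / 2 := by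
    rw [hh]; ring
  rw [e] at h
  exact h

/-- the rescaled kernel -/
theorem resc (s : ℂ) (r t t' ρ : ℝ) (hρ : 0 < ρ) (hρ2 : ρ ≤ Real.exp (-r) / 4) :
    (ρ : ℂ) ^ (-s) * G s ((cd r t (Real.log (2 / ρ)) t' - 1) / 2) =
      (1 / (4 * (π : ℂ))) * ∫ x in (0 : ℝ)..1,
        (x : ℂ) ^ (s - 1) * (1 - (x : ℂ)) ^ (s - 1) * ((hh r (t - t') ρ x : ℝ) : ℂ) ^ (-s) := by
  rw [G, mul_left_comm, ← intervalIntegral.integral_const_mul]
  congr 1
  refine intervalIntegral.integral_congr fun x hx => ?_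
  rw [Set.uIcc_of_le zero_le_one] at hx
  have e : hh r (t - t') ρ x = ρ * (x + (cd r t (Real.log (2 / ρ)) t' - 1) / 2) := by
    rw [hh, cd_eq r t t' ρ hρ]
    field_simp
    ring
  have hpos : 0 < hh r (t - t') ρ x :=
    lt_of_lt_of_le (by have := W_pos r (t - t'); positivity) (hh_ge r (t - t') ρ x hρ hρ2 hx.1)
  have hpos2 : 0 ≤ x + (cd r t (Real.log (2 / ρ)) t' - 1) / 2 := by
    rw [e] at hpos
    exact (pos_of_mul_pos_right hpos hρ.le).le
  show (ρ : ℂ) ^ (-s) * ((x : ℂ) ^ (s - 1) * (1 - (x : ℂ)) ^ (s - 1) *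
    ((x + (cd r t (Real.log (2 / ρ)) t' - 1) / 2 : ℝ) : ℂ) ^ (-s)) = _
  rw [e, Complex.ofReal_mul, Complex.mul_cpow_ofReal_nonneg hρ.le hpos2]
  ring

theorem int_beta (s : ℂ) (hs : 0 < s.re) : IntervalIntegrable
    (fun x : ℝ => (x : ℂ) ^ (s - 1) * (1 - (x : ℂ)) ^ (s - 1)) volume 0 1 :=
  Complex.betaIntegral_convergent hs hs

theorem pw_bound (s : ℂ) (hs : 0 < s.re) (r τ ρ x : ℝ) (hρ : 0 < ρ)
    (hρ2 : ρ ≤ Real.exp (-r) / 4) (hx : 0 ≤ x) :
    ‖(x : ℂ) ^ (s - 1) * (1 - (x : ℂ)) ^ (s - 1) * ((hh r τ ρ x : ℝ) : ℂ) ^ (-s)‖ ≤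
      ‖(x : ℂ) ^ (s - 1) * (1 - (x : ℂ)) ^ (s - 1)‖ * (W r τ / 4) ^ (-s.re) := by
  have hW := W_pos r τ
  have h1 := hh_ge r τ ρ x hρ hρ2 hx
  have hpos : 0 < hh r τ ρ x := lt_of_lt_of_le (by positivity) h1
  rw [norm_mul]
  refine mul_le_mul_of_nonneg_left ?_ (norm_nonneg _)
  rw [Complex.norm_cpow_eq_rpow_re_of_pos hpos, Complex.neg_re]
  exact Real.rpow_le_rpow_of_nonpos (by positivity) h1 (by linarith)

theorem unif_bound (s : ℂ) (hs : 0 < s.re) (r τ ρ : ℝ) (hρ : 0 < ρ)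
    (hρ2 : ρ ≤ Real.exp (-r) / 4) :
    ‖∫ x in (0 : ℝ)..1, (x : ℂ) ^ (s - 1) * (1 - (x : ℂ)) ^ (s - 1) *
      ((hh r τ ρ x : ℝ) : ℂ) ^ (-s)‖ ≤
      (∫ x in (0 : ℝ)..1, ‖(x : ℂ) ^ (s - 1) * (1 - (x : ℂ)) ^ (s - 1)‖) *
        (W r τ / 4) ^ (-s.re) := by
  rw [← intervalIntegral.integral_mul_const]
  refine intervalIntegral.norm_integral_le_of_norm_le zero_le_one ?_
    ((int_beta s hs).norm.mul_const _)
  refine Eventually.of_forall fun x hx => ?_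
  exact pw_bound s hs r τ ρ x hρ hρ2 hx.1.le

theorem ev_small (r : ℝ) : ∀ᶠ ρ in 𝓝[>] (0 : ℝ), 0 < ρ ∧ ρ ≤ Real.exp (-r) / 4 := by
  have h : Set.Ioc (0 : ℝ) (Real.exp (-r) / 4) ∈ 𝓝[>] (0 : ℝ) :=
    Ioc_mem_nhdsGT (by have := Real.exp_pos (-r); positivity)
  filter_upwards [h] with ρ hρ
  exact ⟨hρ.1, hρ.2⟩

theorem int_lim (s : ℂ) (hs : 0 < s.re) (r τ : ℝ) :
    Tendsto (fun ρ : ℝ => ∫ x in (0 : ℝ)..1, (x : ℂ) ^ (s - 1) * (1 - (x : ℂ)) ^ (s - 1) *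
      ((hh r τ ρ x : ℝ) : ℂ) ^ (-s)) (𝓝[>] 0)
      (𝓝 (Complex.betaIntegral s s * ((W r τ / 2 : ℝ) : ℂ) ^ (-s))) := by
  have hW := W_pos r τ
  rw [Complex.betaIntegral, ← intervalIntegral.integral_mul_const]
  refine intervalIntegral.tendsto_integral_filter_of_dominated_convergence
    (fun x => ‖(x : ℂ) ^ (s - 1) * (1 - (x : ℂ)) ^ (s - 1)‖ * (W r τ / 4) ^ (-s.re)) ?_ ?_
    ((int_beta s hs).norm.mul_const _) ?_
  · refine Eventually.of_forall fun ρ => ?_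
    refine AEStronglyMeasurable.mul ?_ ?_
    · have h := (int_beta s hs).1.aestronglyMeasurable
      rwa [Set.uIoc_of_le zero_le_one]
    · apply Measurable.aestronglyMeasurable
      have hm : Measurable (fun x : ℝ => hh r τ ρ x) := by
        unfold hh
        fun_prop
      exact (Complex.measurable_ofReal.comp hm).pow_const _
  · filter_upwards [ev_small r] with ρ hρ
    refine Eventually.of_forall fun x hx => ?_
    rw [Set.uIoc_of_le zero_le_one] at hx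
    exact pw_bound s hs r τ ρ x hρ.1 hρ.2 hx.1.le
  · refine Eventually.of_forall fun x hx => ?_
    refine Tendsto.mul tendsto_const_nhds ?_
    have hc := Complex.continuousAt_ofReal_cpow_const (W r τ / 2) (-s)
      (Or.inr (by positivity))
    exact hc.tendsto.comp (hh_tendsto r τ x)

theorem half_pow (s : ℂ) (w : ℝ) (hw : 0 < w) :
    ((w / 2 : ℝ) : ℂ) ^ (-s) = (2 : ℂ) ^ s * ((w : ℝ) : ℂ) ^ (-s) := by
  have h2 : ((2 : ℝ) : ℂ) = 2 := by norm_num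
  have hw2 : 0 < w / 2 := by positivity
  rw [Complex.cpow_def_of_ne_zero (by exact_mod_cast hw2.ne'),
    Complex.cpow_def_of_ne_zero (by norm_num : (2 : ℂ) ≠ 0),
    Complex.cpow_def_of_ne_zero (by exact_mod_cast hw.ne'), ← Complex.exp_add,
    ← Complex.ofReal_log hw2.le, ← Complex.ofReal_log hw.le, ← h2,
    ← Complex.ofReal_log zero_le_two, Real.log_div hw.ne' two_ne_zero]
  congr 1
  push_cast
  ring

theorem summ (ℓ : ℝ) (hℓ : 0 < ℓ) (σ : ℝ) (hσ : 0 < σ) (ξ r t : ℝ) :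
    Summable (fun k : ℤ => (W r (t - (ξ + (k : ℝ) * ℓ)) / 4) ^ (-σ)) := by
  set c : ℝ := Real.exp (-r) * Real.exp (-|t - ξ|) / 16 with hc
  have hc0 : 0 < c := by positivity
  have hlow : ∀ k : ℤ, c * Real.exp (ℓ * k.natAbs) ≤ W r (t - (ξ + (k : ℝ) * ℓ)) / 4 := by
    intro k
    have h1 := W_ge r (t - (ξ + (k : ℝ) * ℓ))
    set τ := t - (ξ + (k : ℝ) * ℓ) with hτ
    have h2 : Real.exp |τ| / 2 ≤ Real.cosh τ := by
      rw [← Real.cosh_abs, Real.cosh_eq]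
      have := Real.exp_pos (-|τ|)
      linarith
    have h3 : ℓ * (k.natAbs : ℝ) - |t - ξ| ≤ |τ| := by
      have e : (k.natAbs : ℝ) = |(k : ℝ)| := by
        rw [Nat.cast_natAbs, Int.cast_abs]
      have e2 : ℓ * |(k : ℝ)| = |(k : ℝ) * ℓ| := by
        rw [abs_mul, abs_of_pos hℓ, mul_comm]
      have e3 : (k : ℝ) * ℓ = (t - ξ) - τ := by rw [hτ]; ring
      rw [e, e2, e3]
      have := abs_sub (t - ξ) τ
      linarith
    have h4 : Real.exp (ℓ * (k.natAbs : ℝ)) * Real.exp (-|t - ξ|) ≤ Real.exp |τ| := by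
      rw [← Real.exp_add]
      exact Real.exp_le_exp.2 (by linarith)
    have h5 := Real.exp_pos (-r)
    have h6 : Real.exp (-r) * (Real.exp (ℓ * (k.natAbs : ℝ)) * Real.exp (-|t - ξ|) / 2) ≤
        Real.exp (-r) * Real.cosh τ :=
      mul_le_mul_of_nonneg_left (by linarith) h5.le
    rw [hc]
    have h7 : Real.exp (-r) * Real.exp (-|t - ξ|) / 16 * Real.exp (ℓ * (k.natAbs : ℝ)) =
        Real.exp (-r) * (Real.exp (ℓ * (k.natAbs : ℝ)) * Real.exp (-|t - ξ|) / 2) / 8 := by ring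
    rw [h7]
    linarith
  set q : ℝ := Real.exp (-(σ * ℓ)) with hq
  have hq0 : 0 ≤ q := (Real.exp_pos _).le
  have hq1 : q < 1 := by
    rw [hq, Real.exp_lt_one_iff]
    have : 0 < σ * ℓ := by positivity
    linarith
  have hgeo : Summable (fun k : ℤ => c ^ (-σ) * q ^ k.natAbs) := by
    apply Summable.mul_left
    refine Summable.of_nat_of_neg ?_ ?_
    · simpa using summable_geometric_of_lt_one hq0 hq1
    · simpa using summable_geometric_of_lt_one hq0 hq1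
  refine Summable.of_nonneg_of_le (fun k => ?_) (fun k => ?_) hgeo
  · have := W_pos r (t - (ξ + (k : ℝ) * ℓ))
    positivity
  · have h1 : 0 < c * Real.exp (ℓ * k.natAbs) := by positivity
    refine (Real.rpow_le_rpow_of_nonpos h1 (hlow k) (by linarith)).trans ?_
    rw [Real.mul_rpow hc0.le (Real.exp_pos _).le]
    refine mul_le_mul_of_nonneg_left (le_of_eq ?_) (by positivity)
    rw [← Real.exp_mul, hq, ← Real.exp_nat_mul]
    congr 1
    ring

end LimP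

open LimP in
theorem lim : S_LIM := by
  intro ℓ hℓ s hs ξ r t
  have hmain : Tendsto (fun ρ : ℝ => ∑' k : ℤ, (ρ : ℂ) ^ (-s) *
      G s ((cd r t (Real.log (2 / ρ)) (ξ + (k : ℝ) * ℓ) - 1) / 2)) (𝓝[>] 0)
      (𝓝 (∑' k : ℤ, (1 / (4 * (π : ℂ))) * (Complex.betaIntegral s s *
        ((W r (t - (ξ + (k : ℝ) * ℓ)) / 2 : ℝ) : ℂ) ^ (-s)))) := by
    refine tendsto_tsum_of_dominated_convergence
      (bound := fun k : ℤ => ‖(1 / (4 * (π : ℂ)))‖ *
        ((∫ x in (0 : ℝ)..1, ‖(x : ℂ) ^ (s - 1) * (1 - (x : ℂ)) ^ (s - 1)‖) *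
        (W r (t - (ξ + (k : ℝ) * ℓ)) / 4) ^ (-s.re))) ?_ ?_ ?_
    · exact ((summ ℓ hℓ s.re hs ξ r t).mul_left _).mul_left _
    · intro k
      have h := (int_lim s hs r (t - (ξ + (k : ℝ) * ℓ))).const_mul (1 / (4 * (π : ℂ)))
      refine h.congr' ?_
      filter_upwards [ev_small r] with ρ hρ
      exact (resc s r t (ξ + (k : ℝ) * ℓ) ρ hρ.1 hρ.2).symm
    · filter_upwards [ev_small r] with ρ hρ k
      rw [resc s r t (ξ + (k : ℝ) * ℓ) ρ hρ.1 hρ.2, norm_mul]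
      exact mul_le_mul_of_nonneg_left (unif_bound s hs r _ ρ hρ.1 hρ.2) (norm_nonneg _)
  have e1 : (∑' k : ℤ, (1 / (4 * (π : ℂ))) * (Complex.betaIntegral s s *
        ((W r (t - (ξ + (k : ℝ) * ℓ)) / 2 : ℝ) : ℂ) ^ (-s))) =
      (1 / (4 * (π : ℂ))) * Complex.betaIntegral s s * (2 : ℂ) ^ s *
      ∑' k : ℤ, ((W r (t - (ξ + (k : ℝ) * ℓ)) : ℝ) : ℂ) ^ (-s) := by
    rw [← tsum_mul_left]
    refine tsum_congr fun k => ?_
    rw [half_pow s _ (W_pos r _)]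
    ring
  rw [e1] at hmain
  refine hmain.congr fun ρ => ?_
  rw [RX, ← tsum_mul_left]

end Pool.Agent.R436.EC
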