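import Mathlib
import Pool.Agent.R436.EC.Stm

/-!
# EC: assembly
-/

set_option autoImplicit false

open Filter Topology MeasureTheory
open scoped Real

namespace Pool.Agent.R436.EC

namespace MainAux

theorem cst_ne (s : ℂ) (hs : 0 < s.re) :
    (1 / (4 * (π : ℂ))) * Complex.betaIntegral s s * (2 : ℂ) ^ s ≠ 0 := by
  have h1 : (π : ℂ) ≠ 0 := by exact_mod_cast Real.pi_ne_zero
  have h2 : Complex.betaIntegral s s ≠ 0 := by
    intro h
    have h3 := Complex.Gamma_mul_Gamma_eq_betaIntegral hs hs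
    rw [h, mul_zero] at h3
    have h4 := Complex.Gamma_ne_zero_of_re_pos hs
    exact (mul_ne_zero h4 h4) h3
  have h3 : (2 : ℂ) ^ s ≠ 0 := by
    rw [Ne, Complex.cpow_eq_zero_iff]
    simp
  have h4 : (1 / (4 * (π : ℂ))) ≠ 0 := by
    simp [h1]
  exact mul_ne_zero (mul_ne_zero h4 h2) h3

theorem exp_pi (n : ℕ) : Complex.exp (-(((n : ℂ) + 2) * π * Complex.I)) = (-1) ^ n := by
  have h1 : -(((n : ℂ) + 2) * π * Complex.I) = ((n + 2 : ℕ) : ℂ) * (-(π * Complex.I)) := by
    push_cast
    ring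
  rw [h1, Complex.exp_nat_mul, Complex.exp_neg, Complex.exp_pi_mul_I, pow_add]
  norm_num

theorem phase (C : ℂ) (lam : ℝ) (hl : 0 < lam) (n : ℕ) (q : ℝ) (hq : 0 < q)
    (hlog : Real.log q = (C.arg + π * (n + 2)) / lam) :
    C * (q : ℂ) ^ (-(1 / 2 + (lam : ℂ) * Complex.I)) =
      ((‖C‖ * Real.exp (-(Real.log q) / 2) : ℝ) : ℂ) * (-1) ^ n := by
  rw [Complex.cpow_def_of_ne_zero (by exact_mod_cast hq.ne'), ← Complex.ofReal_log hq.le]
  have hlam : (lam : ℂ) ≠ 0 := by exact_mod_cast hl.ne'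
  have h1 : ((Real.log q : ℝ) : ℂ) * (lam : ℂ) = (C.arg : ℂ) + π * (n + 2) := by
    rw [hlog]
    push_cast
    field_simp
  have h2 : ((Real.log q : ℝ) : ℂ) * (-(1 / 2 + (lam : ℂ) * Complex.I)) =
      ((-(Real.log q) / 2 : ℝ) : ℂ) + (-(C.arg * Complex.I) +
        -(((n : ℂ) + 2) * π * Complex.I)) := by
    push_cast
    linear_combination (-Complex.I) * h1
  rw [h2, Complex.exp_add, Complex.exp_add, exp_pi]
  have h3 : C = (‖C‖ : ℂ) * Complex.exp (C.arg * Complex.I) :=
    (Complex.norm_mul_exp_arg_mul_I C).symm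
  have h4 : Complex.exp (C.arg * Complex.I) * Complex.exp (-(C.arg * Complex.I)) = 1 := by
    rw [← Complex.exp_add, add_neg_cancel, Complex.exp_zero]
  calc C * (Complex.exp ((-(Real.log q) / 2 : ℝ) : ℂ) *
        (Complex.exp (-(C.arg * Complex.I)) * (-1) ^ n))
      = ((‖C‖ : ℂ) * Complex.exp (C.arg * Complex.I)) *
        (Complex.exp ((-(Real.log q) / 2 : ℝ) : ℂ) *
        (Complex.exp (-(C.arg * Complex.I)) * (-1) ^ n)) := by rw [← h3]
    _ = (‖C‖ : ℂ) * Complex.exp ((-(Real.log q) / 2 : ℝ) : ℂ) *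
        (Complex.exp (C.arg * Complex.I) * Complex.exp (-(C.arg * Complex.I))) * (-1) ^ n := by
        ring
    _ = ((‖C‖ * Real.exp (-(Real.log q) / 2) : ℝ) : ℂ) * (-1) ^ n := by
        rw [h4, mul_one]
        push_cast
        ring

end MainAux

open MainAux in
theorem main (hT : S_TOP) (hL : S_LIM) (hC : S_CONT) (hA : S_ASY) : S_MAIN := by
  intro l hl
  obtain ⟨lam0, h0, hasy⟩ := hA l hl
  refine ⟨lam0, h0, fun lam h1 h2 ξ => ?_⟩
  set s : ℂ := 1 / 2 + (lam : ℂ) * Complex.I with hs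
  have hre : 0 < s.re := by
    rw [hs]
    simp
  obtain ⟨E0, cE0, hE0⟩ := hC l hl s hre ξ
  obtain ⟨C, hCd⟩ : ∃ C : ℂ, C = (1 / (4 * (π : ℂ))) * Complex.betaIntegral s s * (2 : ℂ) ^ s :=
    ⟨_, rfl⟩
  have C0 : C ≠ 0 := hCd ▸ cst_ne s hre
  have cE : Continuous fun z => C * E0 z := continuous_const.mul cE0
  refine ⟨fun z => C * E0 z, fun r t => ?_, cE, ?_⟩
  · have := hL l hl s hre ξ r t
    rw [← hCd, ← hE0 r t] at this
    exact this
  · refine hT l hl (fun z => (C * E0 z).re) (Complex.continuous_re.comp cE)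
      (fun n => Real.log 2 + (C.arg + π * (n + 2)) / lam) ?_ ?_ ?_
    · refine strictMono_nat_of_lt_succ fun n => ?_
      have : (C.arg + π * (n + 2)) / lam < (C.arg + π * ((n + 1 : ℕ) + 2)) / lam := by
        refine div_lt_div_of_pos_right ?_ h1
        push_cast
        nlinarith [Real.pi_pos]
      linarith
    · refine tendsto_atTop_add_const_left _ _ (Tendsto.atTop_div_const h1 ?_)
      refine tendsto_atTop_add_const_left _ _ (Tendsto.const_mul_atTop Real.pi_pos ?_)
      exact tendsto_atTop_add_const_right _ _ tendsto_natCast_atTop_atTop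
    · intro n θ
      induction θ using QuotientAddGroup.induction_on with
      | H t =>
      set p : ℝ := Real.log 2 + (C.arg + π * (n + 2)) / lam with hp
      have hlog2 : 0 < Real.log 2 := Real.log_pos one_lt_two
      have harg := Complex.neg_pi_lt_arg C
      have p0 : 0 ≤ p := by
        have : 0 ≤ (C.arg + π * (n + 2)) / lam := by
          refine div_nonneg ?_ h1.le
          have hn : (0 : ℝ) ≤ n := Nat.cast_nonneg n
          have := Real.pi_pos
          nlinarith
        linarith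
      obtain ⟨A, A0, hAe⟩ := hasy lam h1 h2 ξ (-p) t (by linarith)
      have hq : 0 < Real.exp (-(-p)) / 2 := by positivity
      have hlog : Real.log (Real.exp (-(-p)) / 2) = (C.arg + π * (n + 2)) / lam := by
        rw [Real.log_div (Real.exp_pos _).ne' two_ne_zero, Real.log_exp, neg_neg, hp]
        ring
      have hE : C * E0 (-p, (t : AddCircle l)) =
          ((‖C‖ * Real.exp (-(Real.log (Real.exp (-(-p)) / 2)) / 2) : ℝ) : ℂ) * (-1) ^ n * A := by
        rw [hE0, hAe, ← mul_assoc, phase C lam h1 n _ hq hlog]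
      have hpos : 0 < ‖C‖ * Real.exp (-(Real.log (Real.exp (-(-p)) / 2)) / 2) :=
        mul_pos (norm_pos_iff.2 C0) (Real.exp_pos _)
      show 0 < (-1 : ℝ) ^ n * (C * E0 (-p, (t : AddCircle l))).re
      rw [hE]
      rcases neg_one_pow_eq_or ℂ n with h | h
      · have h' : (-1 : ℝ) ^ n = 1 := by exact_mod_cast h
        rw [h, h', mul_one, one_mul, Complex.re_ofReal_mul]
        exact mul_pos hpos A0
      · have h' : (-1 : ℝ) ^ n = -1 := by exact_mod_cast h
        rw [h, h']
        have e : (((‖C‖ * Real.exp (-(Real.log (Real.exp (-(-p)) / 2)) / 2) : ℝ) : ℂ) *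
            (-1) * A).re = -((‖C‖ * Real.exp (-(Real.log (Real.exp (-(-p)) / 2)) / 2)) * A.re) := by
          rw [mul_neg_one, neg_mul, Complex.neg_re, Complex.re_ofReal_mul]
        rw [e]
        have := mul_pos hpos A0
        linarith

end Pool.Agent.R436.EC
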