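import Pool.Agent.R436.EC.Stm2

/-!
# EC-ODE: derivatives and the differential equation of `G`
-/

set_option autoImplicit false

open Filter Topology MeasureTheory
open scoped Real

namespace Pool.Agent.R436.EC

namespace OdeAux

/-- the integrand -/
noncomputable def hh (s c : ℂ) (u : ℝ) (x : ℝ) : ℂ :=
  (x : ℂ) ^ (s - 1) * (1 - (x : ℂ)) ^ (s - 1) * ((x + u : ℝ) : ℂ) ^ c

/-- the integral -/
noncomputable def K (s c : ℂ) (u : ℝ) : ℂ := ∫ x in (0 : ℝ)..1, hh s c u x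

theorem slit {y : ℝ} (hy : 0 < y) : (y : ℂ) ∈ Complex.slitPlane :=
  Complex.ofReal_mem_slitPlane.2 hy

theorem hasDerivAt_pow {c : ℂ} {y : ℝ} (hy : 0 < y) :
    HasDerivAt (fun y : ℝ => (y : ℂ) ^ c) (c * (y : ℂ) ^ (c - 1)) y := by
  have h1 : HasDerivAt (fun z : ℂ => z ^ c) (c * (y : ℂ) ^ (c - 1) * 1) (y : ℂ) :=
    (hasDerivAt_id (y : ℂ)).cpow_const (slit hy)
  have h2 := h1.comp_ofReal
  rwa [mul_one] at h2

theorem hasDerivAt_sh {c : ℂ} {x u : ℝ} (hy : 0 < x + u) :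
    HasDerivAt (fun u : ℝ => ((x + u : ℝ) : ℂ) ^ c) (c * ((x + u : ℝ) : ℂ) ^ (c - 1)) u := by
  have h1 := (hasDerivAt_pow (c := c) hy).scomp u ((hasDerivAt_id u).const_add x)
  rwa [one_smul] at h1

theorem hasDerivAt_sh' {c : ℂ} {x u : ℝ} (hy : 0 < x + u) :
    HasDerivAt (fun x : ℝ => ((x + u : ℝ) : ℂ) ^ c) (c * ((x + u : ℝ) : ℂ) ^ (c - 1)) x := by
  have h1 := (hasDerivAt_pow (c := c) hy).scomp x ((hasDerivAt_id x).add_const u)
  rwa [one_smul] at h1

theorem hh_int {s : ℂ} (hs : 0 < s.re) (c : ℂ) {u : ℝ} (hu : 0 < u) :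
    IntervalIntegrable (hh s c u) volume 0 1 := by
  have h1 := Complex.betaIntegral_convergent hs hs
  refine h1.mul_continuousOn ?_
  intro x hx
  rw [Set.uIcc_of_le zero_le_one] at hx
  exact (hasDerivAt_sh' (by linarith [hx.1])).continuousAt.continuousWithinAt

theorem hasDerivAt_K {s : ℂ} (hs : 0 < s.re) (c : ℂ) {u : ℝ} (hu : 0 < u) :
    HasDerivAt (K s c) (c * K s (c - 1) u) u := by
  have hcont : ContinuousOn (fun y : ℝ => ‖(y : ℂ) ^ (c - 1)‖) (Set.Icc (u / 2) (1 + 2 * u)) := by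
    intro y hy
    exact (hasDerivAt_pow (by linarith [hy.1])).continuousAt.norm.continuousWithinAt
  obtain ⟨M, hM⟩ := isCompact_Icc.bddAbove_image hcont
  have hM' : ∀ y ∈ Set.Icc (u / 2) (1 + 2 * u), ‖(y : ℂ) ^ (c - 1)‖ ≤ M := fun y hy =>
    hM ⟨y, hy, rfl⟩
  have hnb : Set.Ioo (u / 2) (2 * u) ∈ 𝓝 u := Ioo_mem_nhds (by linarith) (by linarith)
  have hint := (Complex.betaIntegral_convergent hs hs)
  have h := intervalIntegral.hasDerivAt_integral_of_dominated_loc_of_deriv_le (μ := volume)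
    (a := 0) (b := 1) (F := fun v x => hh s c v x)
    (F' := fun v x => (x : ℂ) ^ (s - 1) * (1 - (x : ℂ)) ^ (s - 1) *
      (c * ((x + v : ℝ) : ℂ) ^ (c - 1)))
    (bound := fun x => ‖(x : ℂ) ^ (s - 1) * (1 - (x : ℂ)) ^ (s - 1)‖ * (‖c‖ * M))
    (x₀ := u) (s := Set.Ioo (u / 2) (2 * u)) hnb ?_ (hh_int hs c hu) ?_ ?_ ?_ ?_
  · have h2 := h.2
    have e : ∫ x in (0 : ℝ)..1, (x : ℂ) ^ (s - 1) * (1 - (x : ℂ)) ^ (s - 1) *
        (c * ((x + u : ℝ) : ℂ) ^ (c - 1)) = c * K s (c - 1) u := by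
      unfold K
      rw [← intervalIntegral.integral_const_mul]
      refine intervalIntegral.integral_congr fun x _ => ?_
      simp only [hh]
      ring
    rw [e] at h2
    exact h2
  · filter_upwards [hnb] with v hv
    exact (intervalIntegrable_iff.1 (hh_int hs c (by linarith [hv.1]))).aestronglyMeasurable
  · have h3 := (hh_int hs (c - 1) hu).const_mul c
    have e : (fun x : ℝ => c * hh s (c - 1) u x) = fun x : ℝ => (x : ℂ) ^ (s - 1) *
        (1 - (x : ℂ)) ^ (s - 1) * (c * ((x + u : ℝ) : ℂ) ^ (c - 1)) := by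
      funext x
      simp only [hh]
      ring
    rw [e] at h3
    exact (intervalIntegrable_iff.1 h3).aestronglyMeasurable
  · refine Eventually.of_forall fun x hx v hv => ?_
    rw [Set.uIoc_of_le zero_le_one] at hx
    rw [norm_mul, norm_mul c]
    refine mul_le_mul_of_nonneg_left ?_ (norm_nonneg _)
    refine mul_le_mul_of_nonneg_left ?_ (norm_nonneg _)
    exact hM' (x + v) ⟨by linarith [hx.1, hv.1], by linarith [hx.2, hv.2]⟩
  · exact hint.norm.mul_const _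
  · refine Eventually.of_forall fun x hx v hv => ?_
    rw [Set.uIoc_of_le zero_le_one] at hx
    exact (hasDerivAt_sh (by linarith [hx.1, hv.1])).const_mul _

theorem G_eq (s : ℂ) (u : ℝ) : G s u = (1 / (4 * (π : ℂ))) * K s (-s) u := rfl

theorem J_eq (s : ℂ) (a : ℕ) (u : ℝ) :
    J s a u = (1 / (4 * (π : ℂ))) * K s (-s - (a : ℂ)) u := rfl

theorem cpow_add_one' {z c : ℂ} (hz : z ≠ 0) : z ^ (c + 1) = z ^ c * z := by
  rw [Complex.cpow_add _ _ hz, Complex.cpow_one]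

/-- the primitive -/
noncomputable def Ph (s : ℂ) (u : ℝ) (x : ℝ) : ℂ :=
  s * ((x : ℂ) ^ s * (1 - (x : ℂ)) ^ s * ((x + u : ℝ) : ℂ) ^ (-s - 1))

theorem cont_Ph {s : ℂ} (hs : 0 < s.re) {u : ℝ} (hu : 0 < u) :
    ContinuousOn (Ph s u) (Set.Icc 0 1) := by
  have h1 : Continuous fun x : ℝ => (x : ℂ) ^ s := Complex.continuous_ofReal_cpow_const hs
  have h2 : Continuous fun x : ℝ => (1 - (x : ℂ)) ^ s := by
    have h := h1.comp (continuous_const.sub continuous_id : Continuous fun x : ℝ => 1 - x)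
    refine h.congr fun x => ?_
    simp [Function.comp]
  refine continuousOn_const.mul ((h1.mul h2).continuousOn.mul ?_)
  intro x hx
  exact (hasDerivAt_sh' (by linarith [hx.1])).continuousAt.continuousWithinAt

theorem deriv_Ph {s : ℂ} {u : ℝ} (hu : 0 < u) {x : ℝ} (hx : x ∈ Set.Ioo (0 : ℝ) 1) :
    HasDerivAt (Ph s u) ((u : ℂ) * ((u : ℂ) + 1) * (s * (s + 1)) * hh s (-s - 2) u x -
      (2 * (u : ℂ) + 1) * s * hh s (-s - 1) u x - s * (s - 1) * hh s (-s) u x) x := by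
  have h1 : HasDerivAt (fun x : ℝ => (x : ℂ) ^ s) (s * (x : ℂ) ^ (s - 1)) x :=
    hasDerivAt_pow hx.1
  have h2 : HasDerivAt (fun x : ℝ => (1 - (x : ℂ)) ^ s)
      (-(s * (1 - (x : ℂ)) ^ (s - 1))) x := by
    have h := HasDerivAt.scomp (h := fun x : ℝ => 1 - x) (h' := -1) x
      (hasDerivAt_pow (c := s) (y := 1 - x) (by linarith [hx.2]))
      ((hasDerivAt_id x).const_sub 1)
    have e : (fun x : ℝ => (1 - (x : ℂ)) ^ s) = (fun y : ℝ => (y : ℂ) ^ s) ∘ fun x => 1 - x := by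
      funext y
      simp [Function.comp]
    rw [e]
    refine h.congr_deriv ?_
    push_cast
    rw [neg_smul, one_smul]
  have h3 := hasDerivAt_sh' (c := -s - 1) (x := x) (u := u) (by linarith [hx.1])
  have h4 := ((h1.mul h2).mul h3).const_mul s
  refine h4.congr_deriv ?_
  have hx0 : (x : ℂ) ≠ 0 := by
    exact_mod_cast hx.1.ne'
  have hx1 : (1 - (x : ℂ)) ≠ 0 := by
    have : (1 - x : ℝ) ≠ 0 := by linarith [hx.2]
    exact_mod_cast this
  have hxu : ((x + u : ℝ) : ℂ) ≠ 0 := by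
    have : (x + u : ℝ) ≠ 0 := by linarith [hx.1]
    exact_mod_cast this
  have a1 : (x : ℂ) ^ s = (x : ℂ) ^ (s - 1) * (x : ℂ) := by
    rw [← cpow_add_one' hx0]
    ring_nf
  have a2 : (1 - (x : ℂ)) ^ s = (1 - (x : ℂ)) ^ (s - 1) * (1 - (x : ℂ)) := by
    rw [← cpow_add_one' hx1]
    ring_nf
  have a3 : ((x + u : ℝ) : ℂ) ^ (-s - 1) = ((x + u : ℝ) : ℂ) ^ (-s - 2) * ((x + u : ℝ) : ℂ) := by
    rw [← cpow_add_one' hxu]
    ring_nf
  have a4 : ((x + u : ℝ) : ℂ) ^ (-s) = ((x + u : ℝ) : ℂ) ^ (-s - 2) * ((x + u : ℝ) : ℂ) *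
      ((x + u : ℝ) : ℂ) := by
    rw [← a3, ← cpow_add_one' hxu]
    ring_nf
  have a5 : (-s - 1 - 1 : ℂ) = -s - 2 := by ring
  simp only [hh, Pi.mul_apply, a5]
  rw [a1, a2, a3, a4]
  push_cast
  ring

theorem ode_int {s : ℂ} (hs : 0 < s.re) {u : ℝ} (hu : 0 < u) :
    (u : ℂ) * ((u : ℂ) + 1) * (s * (s + 1)) * K s (-s - 2) u -
      (2 * (u : ℂ) + 1) * s * K s (-s - 1) u - s * (s - 1) * K s (-s) u = 0 := by
  have i2 := (hh_int hs (-s - 2) hu).const_mul ((u : ℂ) * ((u : ℂ) + 1) * (s * (s + 1)))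
  have i1 := (hh_int hs (-s - 1) hu).const_mul ((2 * (u : ℂ) + 1) * s)
  have i0 := (hh_int hs (-s) hu).const_mul (s * (s - 1))
  have h := intervalIntegral.integral_eq_sub_of_hasDerivAt_of_le (zero_le_one' ℝ)
    (cont_Ph hs hu) (fun x hx => deriv_Ph (s := s) hu hx) ((i2.sub i1).sub i0)
  have h0 : Ph s u 0 = 0 := by
    unfold Ph
    rw [Complex.ofReal_zero, Complex.zero_cpow (fun h => by rw [h] at hs; simp at hs)]
    ring
  have h1 : Ph s u 1 = 0 := by
    unfold Ph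
    rw [Complex.ofReal_one, sub_self, Complex.zero_cpow (fun h => by rw [h] at hs; simp at hs)]
    ring
  rw [h0, h1, sub_self, intervalIntegral.integral_sub (i2.sub i1) i0,
    intervalIntegral.integral_sub i2 i1, intervalIntegral.integral_const_mul,
    intervalIntegral.integral_const_mul, intervalIntegral.integral_const_mul] at h
  exact h

end OdeAux

open OdeAux in
theorem ode : S_ODE := by
  intro s hs u hu
  have e1 : ∀ v : ℝ, G1 s v = -s * ((1 / (4 * (π : ℂ))) * K s (-s - 1) v) := by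
    intro v
    unfold G1
    rw [J_eq, Nat.cast_one]
  have e2 : ∀ v : ℝ, G2 s v = s * (s + 1) * ((1 / (4 * (π : ℂ))) * K s (-s - 2) v) := by
    intro v
    unfold G2
    rw [J_eq, Nat.cast_ofNat]
  refine ⟨?_, ?_, ?_, ?_⟩
  · have h := (hasDerivAt_K hs (-s) hu).const_mul (1 / (4 * (π : ℂ)))
    rw [e1]
    have e : (fun v => (1 / (4 * (π : ℂ))) * K s (-s) v) = G s := rfl
    rw [e] at h
    refine h.congr_deriv ?_
    ring
  · have h := ((hasDerivAt_K hs (-s - 1) hu).const_mul (1 / (4 * (π : ℂ)))).const_mul (-s)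
    have e : (fun v => -s * ((1 / (4 * (π : ℂ))) * K s (-s - 1) v)) = G1 s :=
      (funext e1).symm
    rw [e] at h
    refine h.congr_deriv ?_
    have a5 : (-s - 1 - 1 : ℂ) = -s - 2 := by ring
    rw [e2, a5]
    ring
  · have h := ((hasDerivAt_K hs (-s - 2) hu).const_mul (1 / (4 * (π : ℂ)))).const_mul (s * (s + 1))
    have e : (fun v => s * (s + 1) * ((1 / (4 * (π : ℂ))) * K s (-s - 2) v)) = G2 s :=
      (funext e2).symm
    rw [e] at h
    exact h.continuousAt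
  · have h := ode_int hs hu
    rw [e1, e2, G_eq]
    linear_combination (1 / (4 * (π : ℂ))) * h

end Pool.Agent.R436.EC
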