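import Mathlib
import Pool.Agent.R436.EC.Stm2

/-!
# EC: `G` is the kernel of `(Δ - s (1 - s))⁻¹`, assembly
-/

set_option autoImplicit false

open Filter Topology MeasureTheory
open scoped Real

namespace Pool.Agent.R436.EC

namespace ResAux

theorem dr_eq (φ : ℝ × ℝ → ℂ) (hφ : Differentiable ℝ φ) :
    dr φ = fun z => fderiv ℝ φ z (1, 0) := by
  funext z
  have h1 : HasDerivAt (fun x : ℝ => (x, z.2)) ((1 : ℝ), (0 : ℝ)) z.1 :=
    (hasDerivAt_id z.1).prodMk (hasDerivAt_const z.1 z.2)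
  exact ((hφ z).hasFDerivAt.comp_hasDerivAt z.1 h1).deriv

theorem dt_eq (φ : ℝ × ℝ → ℂ) (hφ : Differentiable ℝ φ) :
    dt φ = fun z => fderiv ℝ φ z (0, 1) := by
  funext z
  have h1 : HasDerivAt (fun x : ℝ => (z.1, x)) ((0 : ℝ), (1 : ℝ)) z.2 :=
    (hasDerivAt_const z.2 z.1).prodMk (hasDerivAt_id z.2)
  exact ((hφ z).hasFDerivAt.comp_hasDerivAt z.2 h1).deriv

theorem cd_ev (φ : ℝ × ℝ → ℂ) (n : ℕ) (hφ : ContDiff ℝ (n + 1) φ) (v : ℝ × ℝ) :
    ContDiff ℝ n fun z => fderiv ℝ φ z v :=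
  (hφ.fderiv_right le_rfl).clm_apply contDiff_const

theorem hc_ev (φ : ℝ × ℝ → ℂ) (hφ : HasCompactSupport φ) (v : ℝ × ℝ) :
    HasCompactSupport fun z => fderiv ℝ φ z v :=
  (hφ.fderiv ℝ).comp_left (g := fun L : ℝ × ℝ →L[ℝ] ℂ => L v) (by simp)

theorem dr2 (φ : ℝ × ℝ → ℂ) (hφ : ContDiff ℝ 2 φ) :
    ContDiff ℝ 1 (dr φ) ∧ Continuous (dr (dr φ)) ∧ ContDiff ℝ 1 (dt φ) ∧
      Continuous (dt (dt φ)) := by
  have hd : Differentiable ℝ φ := hφ.differentiable (by norm_num)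
  have h1 : ContDiff ℝ 1 (dr φ) := by
    rw [dr_eq φ hd]
    exact cd_ev φ 1 (by exact_mod_cast hφ) _
  have h2 : ContDiff ℝ 1 (dt φ) := by
    rw [dt_eq φ hd]
    exact cd_ev φ 1 (by exact_mod_cast hφ) _
  refine ⟨h1, ?_, h2, ?_⟩
  · rw [dr_eq _ (h1.differentiable (by norm_num))]
    exact (cd_ev (dr φ) 0 (by exact_mod_cast h1) _).continuous
  · rw [dt_eq _ (h2.differentiable (by norm_num))]
    exact (cd_ev (dt φ) 0 (by exact_mod_cast h2) _).continuous

theorem dr2c (φ : ℝ × ℝ → ℂ) (hφ : ContDiff ℝ 2 φ) (hc : HasCompactSupport φ) :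
    HasCompactSupport (dr φ) ∧ HasCompactSupport (dr (dr φ)) ∧ HasCompactSupport (dt (dt φ)) := by
  obtain ⟨h1, -, h2, -⟩ := dr2 φ hφ
  have hd : Differentiable ℝ φ := hφ.differentiable (by norm_num)
  have c1 : HasCompactSupport (dr φ) := by
    rw [dr_eq φ hd]
    exact hc_ev φ hc _
  have c2 : HasCompactSupport (dt φ) := by
    rw [dt_eq φ hd]
    exact hc_ev φ hc _
  refine ⟨c1, ?_, ?_⟩
  · rw [dr_eq _ (h1.differentiable (by norm_num))]
    exact hc_ev _ c1 _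
  · rw [dt_eq _ (h2.differentiable (by norm_num))]
    exact hc_ev _ c2 _

theorem tanh_cont : Continuous Real.tanh := by
  have : Real.tanh = fun x => Real.sinh x / Real.cosh x := by
    funext x
    exact Real.tanh_eq_sinh_div_cosh x
  rw [this]
  exact Real.continuous_sinh.div Real.continuous_cosh fun x => (Real.cosh_pos x).ne'

theorem psi_cont (s : ℂ) (φ : ℝ × ℝ → ℂ) (hφ : ContDiff ℝ 2 φ) :
    Continuous fun z : ℝ × ℝ => Lop s φ z * ((Real.cosh z.1 : ℝ) : ℂ) := by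
  obtain ⟨h1, h2, h3, h4⟩ := dr2 φ hφ
  have t1 : Continuous fun z : ℝ × ℝ => ((Real.tanh z.1 : ℝ) : ℂ) :=
    Complex.continuous_ofReal.comp (tanh_cont.comp continuous_fst)
  have t2 : Continuous fun z : ℝ × ℝ => (((Real.cosh z.1 ^ 2)⁻¹ : ℝ) : ℂ) :=
    Complex.continuous_ofReal.comp (((Real.continuous_cosh.comp continuous_fst).pow 2).inv₀
      fun z => (pow_pos (Real.cosh_pos z.1) 2).ne')
  have t3 : Continuous fun z : ℝ × ℝ => ((Real.cosh z.1 : ℝ) : ℂ) :=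
    Complex.continuous_ofReal.comp (Real.continuous_cosh.comp continuous_fst)
  have hL : Continuous (Lop s φ) :=
    ((h2.add (t1.mul h1.continuous)).add (t2.mul h4)).neg.sub
      (continuous_const.mul hφ.continuous)
  exact hL.mul t3

theorem psi_supp (s : ℂ) (φ : ℝ × ℝ → ℂ) (hφ : ContDiff ℝ 2 φ) (hc : HasCompactSupport φ) :
    HasCompactSupport fun z : ℝ × ℝ => Lop s φ z * ((Real.cosh z.1 : ℝ) : ℂ) := by
  obtain ⟨c1, c2, c3⟩ := dr2c φ hφ hc
  have hL : HasCompactSupport (Lop s φ) := by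
    refine HasCompactSupport.intro ((c2.isCompact.union c1.isCompact).union
      (c3.isCompact.union hc.isCompact)) fun z hz => ?_
    simp only [Set.mem_union, not_or] at hz
    unfold Lop
    rw [image_eq_zero_of_notMem_tsupport hz.1.1, image_eq_zero_of_notMem_tsupport hz.1.2,
      image_eq_zero_of_notMem_tsupport hz.2.1, image_eq_zero_of_notMem_tsupport hz.2.2]
    ring
  exact hL.mul_right

end ResAux

open ResAux in
theorem res (hI : S_IBP) (hX : S_APX) (hG : S_LG) : S_RES := by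
  intro s hs φ hφ hc r t
  have h1 := hG s hs _ (psi_cont s φ hφ) (psi_supp s φ hφ hc) r t
  have h2 := hX s hs φ hφ.continuous hc r t
  have h3 : Tendsto (fun ε : ℝ => ∫ z : ℝ × ℝ, kk s ε ((cd r t z.1 z.2 - 1) / 2) * φ z *
      ((Real.cosh z.1 : ℝ) : ℂ)) (𝓝[>] 0)
      (𝓝 (∫ z : ℝ × ℝ, G s ((cd r t z.1 z.2 - 1) / 2) *
        (Lop s φ z * ((Real.cosh z.1 : ℝ) : ℂ)))) := by
    refine h1.congr' ?_
    filter_upwards [self_mem_nhdsWithin] with ε hε
    rw [← hI s hs φ hφ hc r t ε hε]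
    refine integral_congr_ae (Eventually.of_forall fun z => ?_)
    simp only [mul_assoc]
  have h4 := tendsto_nhds_unique h3 h2
  rw [← h4]
  refine integral_congr_ae (Eventually.of_forall fun z => ?_)
  simp only [mul_assoc]

end Pool.Agent.R436.EC
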