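import Pool.Agent.R436.EC.Stm2

/-!
# MP_a92104_an: EC-SING
-/

set_option autoImplicit false

open Filter Topology MeasureTheory
open scoped Real

namespace Pool.Agent.R436.EC

namespace SingAux

/-- the kernel which converges to the delta measure at `0` -/
noncomputable def K (s : ℂ) (u x : ℝ) : ℂ :=
  s * (u : ℂ) * ((x : ℂ) ^ (s - 1) * ((x + u : ℝ) : ℂ) ^ (-s - ((1 : ℕ) : ℂ)))

/-- the integrand of `J s 1 u` -/
noncomputable def H (s : ℂ) (u x : ℝ) : ℂ :=
  (x : ℂ) ^ (s - 1) * (1 - (x : ℂ)) ^ (s - 1) * ((x + u : ℝ) : ℂ) ^ (-s - ((1 : ℕ) : ℂ))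

theorem cont_pow (w : ℂ) (u : ℝ) (hu : 0 < u) :
    ContinuousOn (fun x : ℝ => ((x + u : ℝ) : ℂ) ^ w) (Set.uIcc 0 1) := by
  intro x hx
  rw [Set.uIcc_of_le zero_le_one] at hx
  have : 0 < x + u := by linarith [hx.1]
  have h1 : ContinuousAt (fun y : ℝ => (y : ℂ) ^ w) (x + u) :=
    Complex.continuousAt_ofReal_cpow_const _ _ (Or.inr this.ne')
  exact (ContinuousAt.comp (f := fun y : ℝ => y + u) h1 (by fun_prop)).continuousWithinAt

theorem deriv_cpow (w : ℂ) (u x : ℝ) (hx : 0 < x + u) :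
    HasDerivAt (fun x : ℝ => ((x + u : ℝ) : ℂ) ^ w)
      (w * ((x + u : ℝ) : ℂ) ^ (w - 1)) x := by
  have h0 : HasDerivAt (fun x : ℝ => ((x + u : ℝ) : ℂ)) 1 x := by
    have := ((hasDerivAt_id x).add_const u).ofReal_comp
    simpa using this
  have h1 : HasDerivAt (fun z : ℂ => z ^ w) (w * ((x + u : ℝ) : ℂ) ^ (w - 1) * 1)
      ((x + u : ℝ) : ℂ) :=
    (hasDerivAt_id _).cpow_const (Complex.ofReal_mem_slitPlane.2 hx)
  have h2 := HasDerivAt.comp x h1 h0
  simpa [Function.comp_def] using h2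

theorem deriv_K (s : ℂ) (u x : ℝ) (hu : 0 < u) (hx : 0 < x) :
    HasDerivAt (fun x : ℝ => (x : ℂ) ^ s * ((x + u : ℝ) : ℂ) ^ (-s)) (K s u x) x := by
  have hxu : 0 < x + u := by positivity
  have h1 : HasDerivAt (fun x : ℝ => (x : ℂ) ^ s) (s * (x : ℂ) ^ (s - 1)) x := by
    have := deriv_cpow s 0 x (by simpa using hx)
    simpa using this
  have h3 := h1.mul (deriv_cpow (-s) u x hxu)
  refine h3.congr_deriv ?_
  have n1 : ((x + u : ℝ) : ℂ) ≠ 0 := by exact_mod_cast hxu.ne'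
  have n2 : (x : ℂ) ≠ 0 := by exact_mod_cast hx.ne'
  have e1 : ((x + u : ℝ) : ℂ) ^ (-s) = ((x + u : ℝ) : ℂ) ^ (-s - 1) * ((x + u : ℝ) : ℂ) := by
    conv_lhs => rw [show (-s : ℂ) = (-s - 1) + 1 by ring, Complex.cpow_add _ _ n1,
      Complex.cpow_one]
  have e2 : (x : ℂ) ^ s = (x : ℂ) ^ (s - 1) * (x : ℂ) := by
    conv_lhs => rw [show (s : ℂ) = (s - 1) + 1 by ring, Complex.cpow_add _ _ n2,
      Complex.cpow_one]
  unfold K
  rw [e1, e2]
  push_cast
  ring

theorem integrable_K (s : ℂ) (hs : 0 < s.re) (u : ℝ) (hu : 0 < u) :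
    IntervalIntegrable (K s u) volume 0 1 := by
  unfold K
  refine IntervalIntegrable.const_mul ?_ _
  refine IntervalIntegrable.mul_continuousOn
    (intervalIntegral.intervalIntegrable_cpow' (by simp; linarith)) ?_
  exact cont_pow _ u hu

theorem integrable_H (s : ℂ) (hs : 0 < s.re) (u : ℝ) (hu : 0 < u) :
    IntervalIntegrable (H s u) volume 0 1 :=
  (Complex.betaIntegral_convergent hs hs).mul_continuousOn (cont_pow _ u hu)

theorem integral_K (s : ℂ) (hs : 0 < s.re) (u : ℝ) (hu : 0 < u) :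
    ∫ x in (0 : ℝ)..1, K s u x = ((1 + u : ℝ) : ℂ) ^ (-s) := by
  have h := intervalIntegral.integral_eq_sub_of_hasDerivAt_of_le (a := 0) (b := 1) zero_le_one
    (f := fun x : ℝ => (x : ℂ) ^ s * ((x + u : ℝ) : ℂ) ^ (-s)) (f' := K s u) ?_
    (fun x hx => deriv_K s u x hu hx.1) (integrable_K s hs u hu)
  · rw [h]
    have hs0 : s ≠ 0 := by
      rintro rfl
      simp at hs
    simp [Complex.zero_cpow hs0]
  · have h1 := cont_pow (-s) u hu
    rw [Set.uIcc_of_le zero_le_one] at h1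
    exact (Complex.continuous_ofReal_cpow_const hs).continuousOn.mul h1

theorem norm_K (s : ℂ) (hs : 0 < s.re) (u x : ℝ) (hu : 0 < u) (hx : 0 < x) :
    ‖K s u x‖ ≤ ‖s‖ * x⁻¹ := by
  have hxu : 0 < x + u := by positivity
  unfold K
  rw [norm_mul, norm_mul, norm_mul, Complex.norm_cpow_eq_rpow_re_of_pos hx,
    Complex.norm_cpow_eq_rpow_re_of_pos hxu, Complex.norm_real, Real.norm_of_nonneg hu.le,
    mul_assoc]
  refine mul_le_mul_of_nonneg_left ?_ (norm_nonneg _)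
  have e1 : (s - 1).re = s.re - 1 := by simp
  have e2 : (-s - ((1 : ℕ) : ℂ)).re = -s.re - 1 := by simp
  rw [e1, e2, Real.rpow_sub_one hx.ne', Real.rpow_sub_one hxu.ne', Real.rpow_neg hxu.le]
  have h1 : x ^ s.re ≤ (x + u) ^ s.re := Real.rpow_le_rpow hx.le (by linarith) hs.le
  have h2 : 0 < (x + u) ^ s.re := Real.rpow_pos_of_pos hxu _
  have h3 : 0 < x ^ s.re := Real.rpow_pos_of_pos hx _
  have h4 : x ^ s.re * ((x + u) ^ s.re)⁻¹ ≤ 1 := by
    rw [← div_eq_mul_inv, div_le_one h2]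
    exact h1
  have h5 : u / (x + u) ≤ 1 := by
    rw [div_le_one hxu]
    linarith
  have e3 : u * (x ^ s.re / x * (((x + u) ^ s.re)⁻¹ / (x + u))) =
      (x ^ s.re * ((x + u) ^ s.re)⁻¹) * (u / (x + u)) * x⁻¹ := by
    field_simp
  rw [e3]
  have h6 : (x ^ s.re * ((x + u) ^ s.re)⁻¹) * (u / (x + u)) ≤ 1 :=
    mul_le_one₀ h4 (by positivity) h5
  calc _ ≤ 1 * x⁻¹ := mul_le_mul_of_nonneg_right h6 (by positivity)
    _ = x⁻¹ := one_mul _

theorem bound_E (s : ℂ) : ∃ C : ℝ, 0 ≤ C ∧ ∀ x : ℝ, 0 < x → x < 1 →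
    ‖(1 - (x : ℂ)) ^ (s - 1) - 1‖ * x⁻¹ ≤ C + (2 + 2 * (1 - x) ^ (s.re - 1)) := by
  have hd : ∀ x : ℝ, x < 1 → HasDerivAt (fun x : ℝ => ((1 - x : ℝ) : ℂ) ^ (s - 1))
      (-((s - 1) * ((1 - x : ℝ) : ℂ) ^ (s - 1 - 1))) x := by
    intro x hx
    have h0 : HasDerivAt (fun x : ℝ => ((1 - x : ℝ) : ℂ)) (-1) x := by
      have := ((hasDerivAt_id x).const_sub 1).ofReal_comp
      simpa using this
    have h1 : HasDerivAt (fun z : ℂ => z ^ (s - 1))
        ((s - 1) * ((1 - x : ℝ) : ℂ) ^ (s - 1 - 1) * 1) ((1 - x : ℝ) : ℂ) :=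
      (hasDerivAt_id _).cpow_const (Complex.ofReal_mem_slitPlane.2 (by linarith))
    have h2 := HasDerivAt.comp x h1 h0
    refine h2.congr_deriv ?_
    ring
  have hc : ContinuousOn (fun x : ℝ => -((s - 1) * ((1 - x : ℝ) : ℂ) ^ (s - 1 - 1)))
      (Set.Icc 0 (1 / 2)) := by
    intro x hx
    have : (1 - x : ℝ) ≠ 0 := by
      have := hx.2
      intro h
      linarith
    have h1 : ContinuousAt (fun y : ℝ => (y : ℂ) ^ (s - 1 - 1)) (1 - x) :=
      Complex.continuousAt_ofReal_cpow_const _ _ (Or.inr this)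
    have h2 : ContinuousAt (fun x : ℝ => ((1 - x : ℝ) : ℂ) ^ (s - 1 - 1)) x :=
      ContinuousAt.comp (f := fun y : ℝ => 1 - y) h1 (by fun_prop)
    exact (h2.const_mul (s - 1)).neg.continuousWithinAt
  obtain ⟨C, hC⟩ := isCompact_Icc.exists_bound_of_continuousOn hc
  have hC0 : 0 ≤ C := le_trans (norm_nonneg _) (hC 0 (by norm_num))
  refine ⟨C, hC0, ?_⟩
  intro x hx0 hx1
  have hx1' : 0 < 1 - x := by linarith
  have epow : (1 - (x : ℂ)) = ((1 - x : ℝ) : ℂ) := by push_cast; rfl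
  have hp : 0 < (1 - x) ^ (s.re - 1) := Real.rpow_pos_of_pos hx1' _
  rcases le_total x (1 / 2) with h | h
  · have h1 : ‖(1 - (x : ℂ)) ^ (s - 1) - 1‖ ≤ C * x := by
      have := (convex_Icc (0 : ℝ) (1 / 2)).norm_image_sub_le_of_norm_hasDerivWithin_le
        (f := fun x : ℝ => ((1 - x : ℝ) : ℂ) ^ (s - 1))
        (f' := fun x : ℝ => -((s - 1) * ((1 - x : ℝ) : ℂ) ^ (s - 1 - 1)))
        (x := 0) (y := x) (C := C)
        (fun y hy => (hd y (by linarith [hy.2])).hasDerivWithinAt) hC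
        (by norm_num) ⟨hx0.le, h⟩
      simpa [abs_of_pos hx0] using this
    have h2 : ‖(1 - (x : ℂ)) ^ (s - 1) - 1‖ * x⁻¹ ≤ C := by
      rw [← div_eq_mul_inv, div_le_iff₀ hx0]
      exact h1
    linarith
  · have h1 : ‖(1 - (x : ℂ)) ^ (s - 1) - 1‖ ≤ (1 - x) ^ (s.re - 1) + 1 := by
      refine (norm_sub_le _ _).trans ?_
      rw [epow, Complex.norm_cpow_eq_rpow_re_of_pos hx1']
      simp
    have h2 : x⁻¹ ≤ 2 := by
      rw [inv_le_comm₀ hx0 (by norm_num)]
      linarith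
    calc ‖(1 - (x : ℂ)) ^ (s - 1) - 1‖ * x⁻¹ ≤ ((1 - x) ^ (s.re - 1) + 1) * 2 :=
          mul_le_mul h1 h2 (by positivity) (by positivity)
      _ ≤ _ := by linarith

theorem split (s : ℂ) (u x : ℝ) :
    s * (u : ℂ) * H s u x = K s u x + K s u x * ((1 - (x : ℂ)) ^ (s - 1) - 1) := by
  unfold H K
  ring

/-- the dominating function -/
noncomputable def B (s : ℂ) (C : ℝ) (x : ℝ) : ℝ := ‖s‖ * (C + (2 + 2 * (1 - x) ^ (s.re - 1)))

theorem integrable_B (s : ℂ) (hs : 0 < s.re) (C : ℝ) :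
    IntervalIntegrable (B s C) volume 0 1 := by
  have h1 : IntervalIntegrable (fun x : ℝ => x ^ (s.re - 1)) volume 1 0 :=
    intervalIntegral.intervalIntegrable_rpow' (by linarith)
  have h2 : IntervalIntegrable (fun x : ℝ => (1 - x) ^ (s.re - 1)) volume 0 1 := by
    have := h1.comp_sub_left 1
    simpa using this
  unfold B
  refine IntervalIntegrable.const_mul ?_ _
  refine IntervalIntegrable.add intervalIntegrable_const ?_
  exact IntervalIntegrable.add intervalIntegrable_const (h2.const_mul 2)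

theorem norm_D (s : ℂ) (hs : 0 < s.re) (C : ℝ)
    (hC : ∀ x : ℝ, 0 < x → x < 1 →
      ‖(1 - (x : ℂ)) ^ (s - 1) - 1‖ * x⁻¹ ≤ C + (2 + 2 * (1 - x) ^ (s.re - 1)))
    (u x : ℝ) (hu : 0 < u) (hx0 : 0 < x) (hx1 : x < 1) :
    ‖K s u x * ((1 - (x : ℂ)) ^ (s - 1) - 1)‖ ≤ B s C x := by
  rw [norm_mul]
  calc ‖K s u x‖ * ‖(1 - (x : ℂ)) ^ (s - 1) - 1‖
      ≤ (‖s‖ * x⁻¹) * ‖(1 - (x : ℂ)) ^ (s - 1) - 1‖ :=
        mul_le_mul_of_nonneg_right (norm_K s hs u x hu hx0) (norm_nonneg _)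
    _ = ‖s‖ * (‖(1 - (x : ℂ)) ^ (s - 1) - 1‖ * x⁻¹) := by ring
    _ ≤ B s C x := mul_le_mul_of_nonneg_left (hC x hx0 hx1) (norm_nonneg _)

theorem integrable_D (s : ℂ) (hs : 0 < s.re) (u : ℝ) (hu : 0 < u) :
    IntervalIntegrable (fun x : ℝ => K s u x * ((1 - (x : ℂ)) ^ (s - 1) - 1)) volume 0 1 := by
  have h := ((integrable_H s hs u hu).const_mul (s * (u : ℂ))).sub (integrable_K s hs u hu)
  refine h.congr (fun x _ => ?_)
  show s * (u : ℂ) * H s u x - K s u x = _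
  rw [split]
  ring

theorem ae_lt_one : ∀ᵐ x : ℝ, x ≠ 1 := by
  have : (volume : Measure ℝ) {1} = 0 := by simp
  rw [ae_iff]
  simp

theorem tendsto_D (s : ℂ) (hs : 0 < s.re) :
    Tendsto (fun u : ℝ => ∫ x in (0 : ℝ)..1, K s u x * ((1 - (x : ℂ)) ^ (s - 1) - 1))
      (𝓝[>] 0) (𝓝 0) := by
  obtain ⟨C, hC0, hC⟩ := bound_E s
  have h0 : (0 : ℂ) = ∫ x in (0 : ℝ)..1, (0 : ℂ) := by simp
  rw [h0]
  refine intervalIntegral.tendsto_integral_filter_of_dominated_convergence (B s C) ?_ ?_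
    (integrable_B s hs C) ?_
  · filter_upwards [self_mem_nhdsWithin] with u hu
    exact (intervalIntegrable_iff.1 (integrable_D s hs u hu)).aestronglyMeasurable
  · filter_upwards [self_mem_nhdsWithin] with u hu
    filter_upwards [ae_lt_one] with x hx1 hx
    rw [Set.uIoc_of_le zero_le_one] at hx
    exact norm_D s hs C hC u x hu hx.1 (lt_of_le_of_ne hx.2 hx1)
  · filter_upwards [ae_lt_one] with x hx1 hx
    rw [Set.uIoc_of_le zero_le_one] at hx
    have hc : ContinuousAt (fun u : ℝ => K s u x * ((1 - (x : ℂ)) ^ (s - 1) - 1)) 0 := by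
      unfold K
      have h1 : ContinuousAt (fun y : ℝ => (y : ℂ) ^ (-s - ((1 : ℕ) : ℂ))) (x + 0) :=
        Complex.continuousAt_ofReal_cpow_const _ _ (Or.inr (by simpa using hx.1.ne'))
      have h2 : ContinuousAt (fun u : ℝ => ((x + u : ℝ) : ℂ) ^ (-s - ((1 : ℕ) : ℂ))) 0 :=
        ContinuousAt.comp (f := fun y : ℝ => x + y) h1 (by fun_prop)
      have h3 : ContinuousAt (fun u : ℝ => s * (u : ℂ)) 0 := by fun_prop
      exact ((h3.mul (h2.const_mul _)).mul_const _)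
    have h4 := hc.tendsto
    have h5 : K s 0 x * ((1 - (x : ℂ)) ^ (s - 1) - 1) = 0 := by
      unfold K
      simp
    rw [h5] at h4
    exact h4.mono_left nhdsWithin_le_nhds

theorem uG1 (s : ℂ) (hs : 0 < s.re) (u : ℝ) (hu : 0 < u) :
    (u : ℂ) * G1 s u = (-1 / (4 * (π : ℂ))) * (((1 + u : ℝ) : ℂ) ^ (-s) +
      ∫ x in (0 : ℝ)..1, K s u x * ((1 - (x : ℂ)) ^ (s - 1) - 1)) := by
  have h1 : (s * (u : ℂ)) * ∫ x in (0 : ℝ)..1, H s u x = ((1 + u : ℝ) : ℂ) ^ (-s) +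
      ∫ x in (0 : ℝ)..1, K s u x * ((1 - (x : ℂ)) ^ (s - 1) - 1) := by
    rw [← integral_K s hs u hu, ← intervalIntegral.integral_add (integrable_K s hs u hu)
      (integrable_D s hs u hu), ← intervalIntegral.integral_const_mul]
    refine intervalIntegral.integral_congr (fun x _ => ?_)
    exact split s u x
  rw [← h1]
  unfold G1 J H
  ring

theorem tendsto_uG1 (s : ℂ) (hs : 0 < s.re) :
    Tendsto (fun u : ℝ => (u : ℂ) * G1 s u) (𝓝[>] 0) (𝓝 (-1 / (4 * (π : ℂ)))) := by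
  have h1 : Tendsto (fun u : ℝ => ((1 + u : ℝ) : ℂ) ^ (-s)) (𝓝[>] 0) (𝓝 1) := by
    have hc : ContinuousAt (fun u : ℝ => ((1 + u : ℝ) : ℂ) ^ (-s)) 0 := by
      have h1 : ContinuousAt (fun y : ℝ => (y : ℂ) ^ (-s)) (1 + 0) :=
        Complex.continuousAt_ofReal_cpow_const _ _ (Or.inr (by simp))
      exact ContinuousAt.comp (f := fun y : ℝ => 1 + y) h1 (by fun_prop)
    have h4 := hc.tendsto
    simp only [add_zero, Complex.ofReal_one, Complex.one_cpow] at h4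
    exact h4.mono_left nhdsWithin_le_nhds
  have h2 := (h1.add (tendsto_D s hs)).const_mul (-1 / (4 * (π : ℂ)))
  rw [add_zero, mul_one] at h2
  refine h2.congr' ?_
  filter_upwards [self_mem_nhdsWithin] with u hu
  exact (uG1 s hs u hu).symm

theorem bound_uG1 (s : ℂ) (hs : 0 < s.re) :
    ∃ C : ℝ, 0 ≤ C ∧ ∀ u : ℝ, 0 < u → ‖(u : ℂ) * G1 s u‖ ≤ C := by
  obtain ⟨C, hC0, hC⟩ := bound_E s
  refine ⟨‖(-1 / (4 * (π : ℂ)))‖ * (1 + |∫ x in (0 : ℝ)..1, B s C x|), by positivity, ?_⟩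
  intro u hu
  rw [uG1 s hs u hu, norm_mul]
  refine mul_le_mul_of_nonneg_left ?_ (norm_nonneg _)
  refine (norm_add_le _ _).trans (add_le_add ?_ ?_)
  · rw [Complex.norm_cpow_eq_rpow_re_of_pos (by linarith)]
    exact Real.rpow_le_one_of_one_le_of_nonpos (by linarith) (by simp; linarith)
  · refine intervalIntegral.norm_integral_le_abs_of_norm_le ?_ (integrable_B s hs C)
    filter_upwards [ae_restrict_mem measurableSet_uIoc, ae_restrict_of_ae ae_lt_one] with x hx hx1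
    rw [Set.uIoc_of_le zero_le_one] at hx
    exact norm_D s hs C hC u x hu hx.1 (lt_of_le_of_ne hx.2 hx1)

theorem bound_G (hO : S_ODE) (s : ℂ) (hs : 0 < s.re) (b : ℝ) (hb : 0 < b) :
    ∃ C : ℝ, 0 ≤ C ∧ ∀ u : ℝ, 0 < u → u ≤ b → ‖G s u‖ ≤ C * (1 + |Real.log u|) := by
  obtain ⟨C, hC0, hC⟩ := bound_uG1 s hs
  refine ⟨‖G s b‖ + C * |Real.log b| + C, by positivity, ?_⟩
  intro u hu hub
  have hpos : ∀ x ∈ Set.uIcc u b, 0 < x := by
    intro x hx
    rw [Set.uIcc_of_le hub] at hx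
    exact lt_of_lt_of_le hu hx.1
  have hint : IntervalIntegrable (G1 s) volume u b := by
    refine ContinuousOn.intervalIntegrable (fun x hx => ?_)
    exact (hO s hs x (hpos x hx)).2.1.continuousAt.continuousWithinAt
  have h1 : ∫ x in u..b, G1 s x = G s b - G s u :=
    intervalIntegral.integral_eq_sub_of_hasDerivAt (fun x hx => (hO s hs x (hpos x hx)).1) hint
  have hint2 : IntervalIntegrable (fun x : ℝ => C * x⁻¹) volume u b := by
    refine ContinuousOn.intervalIntegrable (fun x hx => ?_)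
    exact ((continuousAt_inv₀ (hpos x hx).ne').const_mul C).continuousWithinAt
  have h2 : ‖∫ x in u..b, G1 s x‖ ≤ ∫ x in u..b, C * x⁻¹ := by
    refine intervalIntegral.norm_integral_le_of_norm_le hub ?_ hint2
    refine Eventually.of_forall (fun x hx => ?_)
    have hx0 : 0 < x := lt_trans hu hx.1
    have h3 := hC x hx0
    rw [norm_mul, Complex.norm_real, Real.norm_of_nonneg hx0.le] at h3
    rw [← div_eq_mul_inv, le_div_iff₀ hx0]
    linarith
  rw [intervalIntegral.integral_const_mul, integral_inv_of_pos hu hb, h1] at h2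
  have h3 : ‖G s u‖ ≤ ‖G s b‖ + ‖G s b - G s u‖ := by
    have := norm_sub_le (G s b) (G s b - G s u)
    simpa using this
  rw [Real.log_div hb.ne' hu.ne'] at h2
  have h4 : Real.log b ≤ |Real.log b| := le_abs_self _
  have h5 : -Real.log u ≤ |Real.log u| := neg_le_abs _
  have h6 : C * (Real.log b - Real.log u) ≤ C * |Real.log b| + C * |Real.log u| := by
    rw [← mul_add]
    exact mul_le_mul_of_nonneg_left (by linarith) hC0
  have h7 : 0 ≤ |Real.log u| := abs_nonneg _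
  have h8 : 0 ≤ |Real.log b| := abs_nonneg _
  have h9 : 0 ≤ ‖G s b‖ := norm_nonneg _
  nlinarith [mul_nonneg h9 h7, mul_nonneg (mul_nonneg hC0 h8) h7]

theorem u2G2 (hO : S_ODE) (s : ℂ) (hs : 0 < s.re) (u : ℝ) (hu : 0 < u) :
    (u : ℂ) ^ 2 * G2 s u = (s * (s - 1) * ((u : ℂ) * G s u) -
      (2 * (u : ℂ) + 1) * ((u : ℂ) * G1 s u)) / ((u : ℂ) + 1) := by
  have hne : (u : ℂ) + 1 ≠ 0 := by
    have : ((u + 1 : ℝ) : ℂ) ≠ 0 := by exact_mod_cast (by linarith : (0 : ℝ) < u + 1).ne'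
    simpa using this
  have h := (hO s hs u hu).2.2.2
  rw [eq_div_iff hne]
  linear_combination (u : ℂ) * h

theorem tendsto_uG (hO : S_ODE) (s : ℂ) (hs : 0 < s.re) :
    Tendsto (fun u : ℝ => (u : ℂ) * G s u) (𝓝[>] 0) (𝓝 0) := by
  obtain ⟨C, hC0, hC⟩ := bound_G hO s hs 1 one_pos
  have h1 : Tendsto (fun u : ℝ => C * (u + |u * Real.log u|)) (𝓝[>] 0) (𝓝 0) := by
    have hc : Continuous (fun u : ℝ => C * (u + |u * Real.log u|)) :=
      continuous_const.mul (continuous_id.add Real.continuous_mul_log.abs)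
    have := hc.tendsto 0
    simp only [zero_mul, abs_zero, add_zero, mul_zero] at this
    exact this.mono_left nhdsWithin_le_nhds
  refine squeeze_zero_norm' ?_ h1
  filter_upwards [Ioo_mem_nhdsGT (zero_lt_one' ℝ)] with u hu
  have hu0 : 0 < u := hu.1
  rw [norm_mul, Complex.norm_real, Real.norm_of_nonneg hu0.le, abs_mul, abs_of_pos hu0]
  calc u * ‖G s u‖ ≤ u * (C * (1 + |Real.log u|)) :=
        mul_le_mul_of_nonneg_left (hC u hu0 hu.2.le) hu0.le
    _ = _ := by ring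

end SingAux

open SingAux in
theorem sing (hO : S_ODE) : S_SING := by
  intro s hs
  refine ⟨tendsto_uG1 s hs, ?_, ?_⟩
  · have h1 := tendsto_uG hO s hs
    have h2 := tendsto_uG1 s hs
    have hu : Tendsto (fun u : ℝ => (u : ℂ)) (𝓝[>] 0) (𝓝 0) := by
      have := (Complex.continuous_ofReal.tendsto 0)
      simp only [Complex.ofReal_zero] at this
      exact this.mono_left nhdsWithin_le_nhds
    have h3 := ((h1.const_mul (s * (s - 1))).sub
      (((hu.const_mul 2).add_const 1).mul h2)).div (hu.add_const 1) (by simp)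
    have h4 : (s * (s - 1) * 0 - (2 * 0 + 1) * (-1 / (4 * (π : ℂ)))) / (0 + 1) =
        1 / (4 * (π : ℂ)) := by
      ring
    rw [h4] at h3
    refine h3.congr' ?_
    filter_upwards [self_mem_nhdsWithin] with u hu
    exact (u2G2 hO s hs u hu).symm
  · intro b hb
    obtain ⟨C1, hC1, h1⟩ := bound_G hO s hs b hb
    obtain ⟨C2, hC2, h2⟩ := bound_uG1 s hs
    obtain ⟨M, hM⟩ := (isCompact_Icc (a := (0 : ℝ)) (b := b)).exists_bound_of_continuousOn
      Real.continuous_mul_log.continuousOn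
    have hM0 : 0 ≤ M := le_trans (norm_nonneg _) (hM 0 ⟨le_refl _, hb.le⟩)
    set C3 : ℝ := ‖s * (s - 1)‖ * (C1 * (b + M)) + (2 * b + 1) * C2 with hC3
    have hC3' : 0 ≤ C3 := by positivity
    refine ⟨C1 + C2 + C3, fun u hu hub => ⟨?_, ?_, ?_⟩⟩
    · refine (h1 u hu hub).trans ?_
      refine mul_le_mul_of_nonneg_right (by linarith) (by positivity)
    · exact (h2 u hu).trans (by linarith)
    · refine le_trans ?_ (by linarith : C3 ≤ C1 + C2 + C3)
      rw [u2G2 hO s hs u hu, norm_div]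
      have e1 : ‖(u : ℂ) + 1‖ = u + 1 := by
        have : ((u : ℂ) + 1) = ((u + 1 : ℝ) : ℂ) := by push_cast; rfl
        rw [this, Complex.norm_real, Real.norm_of_nonneg (by linarith)]
      have e2 : ‖2 * (u : ℂ) + 1‖ = 2 * u + 1 := by
        have : (2 * (u : ℂ) + 1) = ((2 * u + 1 : ℝ) : ℂ) := by push_cast; rfl
        rw [this, Complex.norm_real, Real.norm_of_nonneg (by linarith)]
      rw [e1]
      refine (div_le_self (norm_nonneg _) (by linarith)).trans ?_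
      refine (norm_sub_le _ _).trans ?_
      rw [norm_mul (s * (s - 1)), norm_mul (2 * (u : ℂ) + 1), e2]
      refine add_le_add (mul_le_mul_of_nonneg_left ?_ (norm_nonneg _))
        (mul_le_mul (by linarith) (h2 u hu) (norm_nonneg _) (by linarith))
      rw [norm_mul, Complex.norm_real, Real.norm_of_nonneg hu.le]
      have h3 := hM u ⟨hu.le, hub⟩
      rw [Real.norm_eq_abs, abs_mul, abs_of_pos hu] at h3
      calc u * ‖G s u‖ ≤ u * (C1 * (1 + |Real.log u|)) :=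
            mul_le_mul_of_nonneg_left (h1 u hu hub) hu.le
        _ = C1 * (u + u * |Real.log u|) := by ring
        _ ≤ C1 * (b + M) := mul_le_mul_of_nonneg_left (by linarith) hC1

end Pool.Agent.R436.EC
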