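import Pool.Agent.R436.EC.Ode
import Pool.Agent.R436.EC.Sing
import Pool.Agent.R436.EC.Cd
import Pool.Agent.R436.EC.Apx
import Pool.Agent.R436.EC.Lg
import Pool.Agent.R436.EC.Ibp
import Pool.Agent.R436.EC.Res

/-! `G` is the kernel of `(Δ - s (1 - s))⁻¹` on the hyperbolic plane. -/

set_option autoImplicit false

namespace Pool.Agent.R436.EC

theorem res_all : S_RES := res (ibp ode) (apx (sing ode) ode cdl) (lg (sing ode) ode cdl)

end Pool.Agent.R436.EC
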