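import Pool.Agent.R436.EC.Stm

/-!
# EC-TOP: infinitely many compact nodal domains from alternating signs on circles
-/

set_option autoImplicit false

open Filter Topology Set

namespace Pool.Agent.R436.EC

namespace TopX

variable {ℓ : ℝ}

theorem strip {C : Set (ℝ × AddCircle ℓ)} (hC : IsPreconnected C) {z : ℝ × AddCircle ℓ}
    (hz : z ∈ C) {a b : ℝ} (ha : a < z.1) (hb : z.1 < b) (hCa : ∀ y ∈ C, y.1 ≠ a)
    (hCb : ∀ y ∈ C, y.1 ≠ b) : ∀ y ∈ C, a < y.1 ∧ y.1 < b := by
  intro y hy
  have h := (hC.image Prod.fst continuous_fst.continuousOn).ordConnected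
  constructor
  · by_contra hn
    push Not at hn
    have h1 : a ∈ Prod.fst '' C := h.out (mem_image_of_mem _ hy) (mem_image_of_mem _ hz)
      ⟨hn, ha.le⟩
    obtain ⟨w, hw, hwa⟩ := h1
    exact hCa w hw hwa
  · by_contra hn
    push Not at hn
    have h1 : b ∈ Prod.fst '' C := h.out (mem_image_of_mem _ hz) (mem_image_of_mem _ hy)
      ⟨hb.le, hn⟩
    obtain ⟨w, hw, hwa⟩ := h1
    exact hCb w hw hwa

theorem pos_of {F : ℝ × AddCircle ℓ → ℝ} (hF : Continuous F) {z : ℝ × AddCircle ℓ}
    (hz : 0 < F z) : ∀ y ∈ connectedComponentIn {y | F y ≠ 0} z, 0 < F y := by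
  intro y hy
  have hsub := connectedComponentIn_subset {y | F y ≠ 0} z
  by_contra hn
  push Not at hn
  have h1 := isPreconnected_connectedComponentIn.intermediate_value hy
    (mem_connectedComponentIn (show z ∈ {y | F y ≠ 0} from hz.ne')) hF.continuousOn
  obtain ⟨w, hw, hw0⟩ := h1 ⟨hn, hz.le⟩
  exact hsub hw hw0

end TopX

open TopX in
theorem top : S_TOP := by
  intro ℓ hℓ F hF p hp hpt hs
  have : Fact (0 < ℓ) := ⟨hℓ⟩
  have hcpt : ∀ a b : ℝ, IsCompact (Icc a b ×ˢ (univ : Set (AddCircle ℓ))) := fun a b =>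
    isCompact_Icc.prod isCompact_univ
  have hev : ∀ m : ℕ, ∀ θ, 0 < F (-p (2 * m), θ) := by
    intro m θ
    have := hs (2 * m) θ
    rw [pow_mul, neg_one_sq, one_pow, one_mul] at this
    exact this
  have hodd : ∀ m : ℕ, ∀ θ, F (-p (2 * m + 1), θ) < 0 := by
    intro m θ
    have := hs (2 * m + 1) θ
    rw [pow_succ, pow_mul, neg_one_sq, one_pow, one_mul] at this
    linarith
  refine ⟨?_, ?_⟩
  · -- the domains
    obtain ⟨D, hD⟩ : ∃ D : ℕ → Set (ℝ × AddCircle ℓ), D = fun m =>
      connectedComponentIn {y | F y ≠ 0} (-p (2 * (m + 1)), (0 : AddCircle ℓ)) := ⟨_, rfl⟩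
    have hmem : ∀ m, (-p (2 * (m + 1)), (0 : AddCircle ℓ)) ∈ D m := by
      intro m
      rw [hD]
      exact mem_connectedComponentIn (hev (m + 1) 0).ne'
    have hstrip : ∀ m, ∀ y ∈ D m, -p (2 * (m + 1) + 1) < y.1 ∧ y.1 < -p (2 * m + 1) := by
      intro m
      have hpos : ∀ y ∈ D m, 0 < F y := by
        rw [hD]
        exact pos_of hF (hev (m + 1) 0)
      have hpre : IsPreconnected (D m) := by
        rw [hD]
        exact isPreconnected_connectedComponentIn
      refine strip hpre (hmem m) ?_ ?_ ?_ ?_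
      · exact neg_lt_neg (hp (by omega))
      · exact neg_lt_neg (hp (by omega))
      · rintro ⟨y1, y2⟩ hy rfl
        exact absurd (hpos _ hy) (not_lt.2 (hodd (m + 1) y2).le)
      · rintro ⟨y1, y2⟩ hy rfl
        exact absurd (hpos _ hy) (not_lt.2 (hodd m y2).le)
    have hne : ∀ m m', m < m' → D m ≠ D m' := by
      intro m m' h heq
      have h1 := hmem m'
      rw [← heq] at h1
      have h2 := (hstrip m _ h1).1
      have h3 : p (2 * (m + 1) + 1) < p (2 * (m' + 1)) := hp (by omega)
      have h4 : -p (2 * (m + 1) + 1) < -p (2 * (m' + 1)) := h2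
      linarith
    have hinj : Function.Injective D := by
      intro m m' h
      rcases lt_trichotomy m m' with h1 | h1 | h1
      · exact absurd h (hne m m' h1)
      · exact h1
      · exact absurd h.symm (hne m' m h1)
    refine Set.infinite_of_injective_forall_mem hinj fun m => ⟨?_, ?_⟩
    · exact ⟨(-p (2 * (m + 1)), (0 : AddCircle ℓ)), (hev (m + 1) 0).ne', by rw [hD]⟩
    · refine (hcpt (-p (2 * (m + 1) + 1)) (-p (2 * m + 1))).of_isClosed_subset isClosed_closure ?_
      refine closure_minimal ?_ (hcpt _ _).isClosed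
      intro y hy
      have h := hstrip m y hy
      exact ⟨⟨h.1.le, h.2.le⟩, mem_univ _⟩
  · intro K hK
    obtain ⟨B, hB⟩ := (hK.image continuous_fst).bddBelow
    obtain ⟨N, hN⟩ := (hpt.eventually_gt_atTop (-B)).exists
    have hpN : -p (2 * N) < B := by
      have h1 : p N ≤ p (2 * N) := hp.monotone (by omega)
      linarith
    have hlt : -p (2 * N + 1) < -p (2 * N) := neg_lt_neg (hp (by omega))
    have hcont : ContinuousOn (fun r : ℝ => F (r, (0 : AddCircle ℓ)))
        (Icc (-p (2 * N + 1)) (-p (2 * N))) :=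
      (hF.comp (by fun_prop)).continuousOn
    obtain ⟨r, hr, hr0⟩ := intermediate_value_Icc hlt.le hcont
      (show (0 : ℝ) ∈ Icc (F (-p (2 * N + 1), (0 : AddCircle ℓ))) (F (-p (2 * N), 0)) from
        ⟨(hodd N 0).le, (hev N 0).le⟩)
    have hr0' : F (r, (0 : AddCircle ℓ)) = 0 := hr0
    have hra : -p (2 * N + 1) < r := by
      rcases eq_or_lt_of_le hr.1 with h | h
      · rw [← h] at hr0'
        exact absurd hr0' (hodd N 0).ne
      · exact h
    have hrb : r < -p (2 * N) := by
      rcases eq_or_lt_of_le hr.2 with h | h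
      · rw [h] at hr0'
        exact absurd hr0' (hev N 0).ne'
      · exact h
    obtain ⟨C, hC⟩ : ∃ C : Set (ℝ × AddCircle ℓ), C =
      connectedComponentIn {y | F y = 0} (r, (0 : AddCircle ℓ)) := ⟨_, rfl⟩
    have hsub : ∀ y ∈ C, F y = 0 := by
      intro y hy
      rw [hC] at hy
      exact connectedComponentIn_subset {y | F y = 0} (r, (0 : AddCircle ℓ)) hy
    have hzC : (r, (0 : AddCircle ℓ)) ∈ C := by
      rw [hC]
      exact mem_connectedComponentIn hr0'
    have hpre : IsPreconnected C := by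
      rw [hC]
      exact isPreconnected_connectedComponentIn
    have hst := strip hpre hzC (a := -p (2 * N + 1)) (b := -p (2 * N)) hra hrb
      (by
        rintro ⟨y1, y2⟩ hy rfl
        exact absurd (hsub _ hy) (hodd N y2).ne)
      (by
        rintro ⟨y1, y2⟩ hy rfl
        exact absurd (hsub _ hy) (hev N y2).ne')
    have hcl : IsClosed C := by
      refine isClosed_of_closure_subset ?_
      have h1 : closure C ⊆ connectedComponentIn {y | F y = 0} (r, (0 : AddCircle ℓ)) :=
        hpre.closure.subset_connectedComponentIn (subset_closure hzC)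
          (closure_minimal hsub (isClosed_eq hF continuous_const))
      rw [← hC] at h1
      exact h1
    refine ⟨C, ⟨(r, 0), hr0', hC⟩, ?_, ?_⟩
    · refine (hcpt (-p (2 * N + 1)) (-p (2 * N))).of_isClosed_subset hcl ?_
      intro y hy
      have h := hst y hy
      exact ⟨⟨h.1.le, h.2.le⟩, mem_univ _⟩
    · intro hCK
      have h1 := hB (mem_image_of_mem Prod.fst (hCK hzC))
      have h2 : B ≤ r := h1
      linarith

end Pool.Agent.R436.EC
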