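import Pool.Agent.R436.EC.Stm2

set_option autoImplicit false

open Filter Topology MeasureTheory
open scoped Real

namespace Pool.Agent.R436.EC

namespace Unf

/-- The dominating function. -/
noncomputable def kf (η x : ℝ) : ℝ := |x| ^ (-(2 * η)) * Real.exp (-(η / 2) * |x| ^ (1 : ℝ))

theorem kf_nonneg (η x : ℝ) : 0 ≤ kf η x := by
  unfold kf; positivity

theorem kf_int (η : ℝ) (h0 : 0 < η) (h1 : η ≤ 1 / 4) : Integrable (fun x => kf η x) := by
  have hp : IntegrableOn (fun x : ℝ => kf η x) (Set.Ioi 0) := by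
    have h := integrableOn_rpow_mul_exp_neg_mul_rpow (p := 1) (s := -(2 * η)) (b := η / 2)
      (by linarith) one_pos (by linarith)
    refine h.congr_fun (fun x hx => ?_) measurableSet_Ioi
    have hx' : (0 : ℝ) < x := hx
    simp only [kf, abs_of_pos hx']
  have hn : IntegrableOn (fun x : ℝ => kf η x) (Set.Iic 0) := by
    rw [← Measure.map_neg_eq_self (volume : Measure ℝ)]
    let m : MeasurableEmbedding fun x : ℝ => -x := (Homeomorph.neg ℝ).measurableEmbedding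
    rw [m.integrableOn_map_iff]
    have e : ((fun x : ℝ => kf η x) ∘ fun x : ℝ => -x) = fun x : ℝ => kf η x := by
      funext x
      simp only [Function.comp_def, kf, abs_neg]
    rw [e]
    have e2 : (fun x : ℝ => -x) ⁻¹' Set.Iic 0 = Set.Ici 0 := by
      ext x; simp
    rw [e2]
    exact Iff.mpr integrableOn_Ici_iff_integrableOn_Ioi hp
  have := hn.union hp
  rwa [Set.Iic_union_Ioi, integrableOn_univ] at this

theorem sinh_lower (y : ℝ) (hy : 0 ≤ y) : y * Real.exp (y / 2) / 4 ≤ Real.sinh y := by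
  rw [Real.sinh_eq]
  have h1 : 1 + 2 * y ≤ Real.exp (2 * y) := by
    have := Real.add_one_le_exp (2 * y); linarith
  have h2 : 1 + y / 2 ≤ Real.exp (y / 2) := by
    have := Real.add_one_le_exp (y / 2); linarith
  have e1 : Real.exp y = Real.exp (y / 2) * Real.exp (y / 2) := by
    rw [← Real.exp_add]; ring_nf
  have e2 : Real.exp (2 * y) * Real.exp (-y) = Real.exp y := by
    rw [← Real.exp_add]; ring_nf
  have hp := Real.exp_pos (-y)
  have hq := Real.exp_pos (y / 2)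
  have hpe := Real.exp_pos y
  -- exp(-y) (1 + 2y) <= exp y
  have h3 : Real.exp (-y) * (1 + 2 * y) ≤ Real.exp y := by
    rw [← e2]; nlinarith
  -- y exp(y/2)/4 <= y exp(y) / (4 + 2 y)
  have h4 : Real.exp (y / 2) * (1 + y / 2) ≤ Real.exp y := by
    rw [e1]; nlinarith
  have h5 : Real.exp (-y) ≤ Real.exp y / (1 + 2 * y) := by
    rw [le_div_iff₀ (by linarith)]; exact h3
  have h6 : Real.exp (y / 2) ≤ Real.exp y / (1 + y / 2) := by
    rw [le_div_iff₀ (by linarith)]; exact h4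
  have h7 : y * Real.exp (y / 2) / 4 ≤ y * (Real.exp y / (1 + y / 2)) / 4 := by
    have := mul_le_mul_of_nonneg_left h6 hy
    linarith
  have h8 : y * (Real.exp y / (1 + y / 2)) / 4 ≤ (Real.exp y - Real.exp y / (1 + 2 * y)) / 2 := by
    have e3 : (Real.exp y - Real.exp y / (1 + 2 * y)) / 2 = Real.exp y * (y / (1 + 2 * y)) := by
      field_simp; ring
    have e4 : y * (Real.exp y / (1 + y / 2)) / 4 = Real.exp y * (y / (4 + 2 * y)) := by
      field_simp; ring
    rw [e3, e4]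
    refine mul_le_mul_of_nonneg_left ?_ hpe.le
    exact div_le_div_of_nonneg_left hy (by linarith) (by linarith)
  linarith

theorem u_lower (r t r' t' : ℝ) :
    |t' - t| ^ 2 * Real.exp (|t' - t| / 2) / 64 ≤ (cd r t r' t' - 1) / 2 := by
  set y := |t' - t| / 2 with hy
  have hy0 : 0 ≤ y := by positivity
  have h1 : Real.sinh y ^ 2 ≤ (cd r t r' t' - 1) / 2 := by
    have hc : Real.cosh (t - t') = 1 + 2 * Real.sinh y ^ 2 := by
      have e : Real.cosh (t - t') = Real.cosh (2 * y) := by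
        rw [hy, mul_div_cancel₀ _ (two_ne_zero), Real.cosh_abs, ← Real.cosh_neg, neg_sub]
      rw [e, Real.cosh_two_mul, Real.cosh_sq]; ring
    have h2 : Real.cosh r * Real.cosh r' - Real.sinh r * Real.sinh r' = Real.cosh (r - r') := by
      rw [Real.cosh_sub]
    have h3 := Real.one_le_cosh (r - r')
    have h4 : 1 ≤ Real.cosh r * Real.cosh r' :=
      one_le_mul_of_one_le_of_one_le (Real.one_le_cosh r) (Real.one_le_cosh r')
    unfold cd
    rw [hc]
    nlinarith [sq_nonneg (Real.sinh y)]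
  refine le_trans ?_ h1
  have h5 := sinh_lower y hy0
  have h6 : (y * Real.exp (y / 2) / 4) ^ 2 ≤ Real.sinh y ^ 2 := by
    gcongr
  refine le_trans (le_of_eq ?_) h6
  have e : Real.exp (|t' - t| / 2) = Real.exp (y / 2) ^ 2 := by
    rw [← Real.exp_nat_mul]; congr 1; rw [hy]; push_cast; ring
  rw [e, hy]
  ring

theorem G_bound (s : ℂ) (η : ℝ) (h0 : 0 < η) (h1 : η ≤ s.re) :
    ∃ C : ℝ, 0 ≤ C ∧ ∀ u : ℝ, 0 < u → ‖G s u‖ ≤ C * u ^ (-η) := by
  have hs : 0 < s.re := lt_of_lt_of_le h0 h1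
  have hb := (Complex.betaIntegral_convergent (u := (η : ℂ)) (v := s) (by simpa using h0) hs).norm
  refine ⟨‖(1 / (4 * (π : ℂ)))‖ * ∫ x in (0 : ℝ)..1,
    ‖(x : ℂ) ^ ((η : ℂ) - 1) * (1 - (x : ℂ)) ^ (s - 1)‖, ?_, fun u hu => ?_⟩
  · refine mul_nonneg (norm_nonneg _) (intervalIntegral.integral_nonneg zero_le_one ?_)
    intro x _
    exact norm_nonneg _
  · unfold G
    rw [norm_mul, mul_assoc]
    refine mul_le_mul_of_nonneg_left ?_ (norm_nonneg _)
    rw [← intervalIntegral.integral_mul_const]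
    refine intervalIntegral.norm_integral_le_of_norm_le zero_le_one ?_ (hb.mul_const _)
    refine Eventually.of_forall (fun x hx => ?_)
    have hx0 : 0 < x := hx.1
    have e1 : ‖(x : ℂ) ^ (s - 1)‖ = x ^ (s.re - 1) := by
      rw [Complex.norm_cpow_eq_rpow_re_of_pos hx0]; simp
    have e2 : ‖(x : ℂ) ^ ((η : ℂ) - 1)‖ = x ^ (η - 1) := by
      rw [Complex.norm_cpow_eq_rpow_re_of_pos hx0]; simp
    have e3 : ‖((x + u : ℝ) : ℂ) ^ (-s)‖ = (x + u) ^ (-s.re) := by
      rw [Complex.norm_cpow_eq_rpow_re_of_pos (by linarith)]; simp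
    rw [norm_mul, norm_mul, norm_mul, e1, e2, e3]
    have e4 : x ^ (s.re - 1) = x ^ (η - 1) * x ^ (s.re - η) := by
      rw [← Real.rpow_add hx0]; congr 1; ring
    have e5 : (x + u) ^ (-s.re) = (x + u) ^ (-(s.re - η)) * (x + u) ^ (-η) := by
      rw [← Real.rpow_add (by linarith)]; congr 1; ring
    have h6 : (x + u) ^ (-(s.re - η)) ≤ x ^ (-(s.re - η)) :=
      Real.rpow_le_rpow_of_nonpos hx0 (by linarith) (by linarith)
    have h7 : (x + u) ^ (-η) ≤ u ^ (-η) :=
      Real.rpow_le_rpow_of_nonpos hu (by linarith) (by linarith)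
    have h8 : x ^ (s.re - η) * x ^ (-(s.re - η)) = 1 := by
      rw [← Real.rpow_add hx0]; simp
    have h9 : (x + u) ^ (-(s.re - η)) * (x + u) ^ (-η) ≤ x ^ (-(s.re - η)) * u ^ (-η) :=
      mul_le_mul h6 h7 (by positivity) (by positivity)
    rw [e4, e5]
    calc x ^ (η - 1) * x ^ (s.re - η) * ‖(1 - (x : ℂ)) ^ (s - 1)‖ *
          ((x + u) ^ (-(s.re - η)) * (x + u) ^ (-η))
        ≤ x ^ (η - 1) * x ^ (s.re - η) * ‖(1 - (x : ℂ)) ^ (s - 1)‖ *
          (x ^ (-(s.re - η)) * u ^ (-η)) := by gcongr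
      _ = x ^ (η - 1) * ‖(1 - (x : ℂ)) ^ (s - 1)‖ * u ^ (-η) *
          (x ^ (s.re - η) * x ^ (-(s.re - η))) := by ring
      _ = _ := by rw [h8, mul_one]

theorem gg_bound (s : ℂ) (η : ℝ) (h0 : 0 < η) (h1 : η ≤ s.re) :
    ∃ C : ℝ, 0 ≤ C ∧ ∀ r t r' t' : ℝ, t' ≠ t →
      ‖G s ((cd r t r' t' - 1) / 2)‖ ≤ C * kf η (t' - t) := by
  obtain ⟨C, hC, hG⟩ := G_bound s η h0 h1
  refine ⟨C * 64 ^ η, by positivity, fun r t r' t' ht => ?_⟩
  have hx : 0 < |t' - t| := abs_pos.mpr (sub_ne_zero.mpr ht)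
  have hu := u_lower r t r' t'
  have hpos : 0 < |t' - t| ^ 2 * Real.exp (|t' - t| / 2) / 64 := by positivity
  refine (hG _ (lt_of_lt_of_le hpos hu)).trans ?_
  rw [mul_assoc]
  refine mul_le_mul_of_nonneg_left ?_ hC
  refine (Real.rpow_le_rpow_of_nonpos hpos hu (by linarith)).trans (le_of_eq ?_)
  rw [Real.div_rpow (by positivity) (by norm_num), Real.mul_rpow (by positivity) (by positivity)]
  unfold kf
  rw [Real.rpow_one, ← Real.exp_mul, ← Real.rpow_natCast, ← Real.rpow_mul (abs_nonneg _),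
    Real.rpow_neg (by norm_num : (0:ℝ) ≤ 64), div_inv_eq_mul]
  have e1 : ((2 : ℕ) : ℝ) * -η = -(2 * η) := by push_cast; ring
  have e2 : |t' - t| / 2 * -η = -(η / 2) * |t' - t| := by ring
  rw [e1, e2]
  ring

theorem G_meas (s : ℂ) : Measurable (fun u : ℝ => G s u) := by
  unfold G
  refine Measurable.const_mul ?_ _
  simp only [intervalIntegral.integral_of_le zero_le_one]
  have h : StronglyMeasurable (Function.uncurry (fun u x : ℝ =>
      (x : ℂ) ^ (s - 1) * (1 - (x : ℂ)) ^ (s - 1) * ((x + u : ℝ) : ℂ) ^ (-s))) := by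
    refine Measurable.stronglyMeasurable ?_
    unfold Function.uncurry
    fun_prop
  exact h.integral_prod_right.measurable

theorem gg_meas (s : ℂ) (r t : ℝ) :
    Measurable (fun z : ℝ × ℝ => G s ((cd r t z.1 z.2 - 1) / 2)) := by
  refine (G_meas s).comp ?_
  unfold cd
  fun_prop

/-! ### the operator -/

/-- fderiv in the two directions -/
theorem dr_eq (φ : ℝ × ℝ → ℂ) (h : Differentiable ℝ φ) (z : ℝ × ℝ) :
    dr φ z = fderiv ℝ φ z (1, 0) := by
  unfold dr
  have h1 : HasDerivAt (fun x : ℝ => (x, z.2)) ((1 : ℝ), (0 : ℝ)) z.1 :=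
    (hasDerivAt_id z.1).prodMk (hasDerivAt_const z.1 z.2)
  have h2 : HasFDerivAt φ (fderiv ℝ φ z) (z.1, z.2) := (h z).hasFDerivAt
  exact (h2.comp_hasDerivAt z.1 h1).deriv

theorem dt_eq (φ : ℝ × ℝ → ℂ) (h : Differentiable ℝ φ) (z : ℝ × ℝ) :
    dt φ z = fderiv ℝ φ z (0, 1) := by
  unfold dt
  have h1 : HasDerivAt (fun x : ℝ => (z.1, x)) ((0 : ℝ), (1 : ℝ)) z.2 :=
    (hasDerivAt_const z.2 z.1).prodMk (hasDerivAt_id z.2)
  have h2 : HasFDerivAt φ (fderiv ℝ φ z) (z.1, z.2) := (h z).hasFDerivAt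
  exact (h2.comp_hasDerivAt z.2 h1).deriv

theorem dr_cd (φ : ℝ × ℝ → ℂ) (n : ℕ) (h : ContDiff ℝ (n + 1) φ) : ContDiff ℝ n (dr φ) := by
  have e : dr φ = fun z => fderiv ℝ φ z (1, 0) := by
    funext z
    exact dr_eq φ (h.differentiable (by simp)) z
  rw [e]
  exact (h.fderiv_right le_rfl).clm_apply contDiff_const

theorem dt_cd (φ : ℝ × ℝ → ℂ) (n : ℕ) (h : ContDiff ℝ (n + 1) φ) : ContDiff ℝ n (dt φ) := by
  have e : dt φ = fun z => fderiv ℝ φ z (0, 1) := by
    funext z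
    exact dt_eq φ (h.differentiable (by simp)) z
  rw [e]
  exact (h.fderiv_right le_rfl).clm_apply contDiff_const

theorem Lop_cont (s : ℂ) (φ : ℝ × ℝ → ℂ) (h : ContDiff ℝ 2 φ) : Continuous (Lop s φ) := by
  have h1 : ContDiff ℝ 1 (dr φ) := dr_cd φ 1 (by simpa [one_add_one_eq_two] using h)
  have h2 : ContDiff ℝ 1 (dt φ) := dt_cd φ 1 (by simpa [one_add_one_eq_two] using h)
  have h3 : ContDiff ℝ 0 (dr (dr φ)) := dr_cd (dr φ) 0 (by simpa using h1)
  have h4 : ContDiff ℝ 0 (dt (dt φ)) := dt_cd (dt φ) 0 (by simpa using h2)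
  have c0 := h.continuous
  have c1 := h1.continuous
  have c3 := h3.continuous
  have c4 := h4.continuous
  have hc : ∀ z : ℝ × ℝ, Real.cosh z.1 ^ 2 ≠ 0 := fun z => pow_ne_zero _ (Real.cosh_pos _).ne'
  have c5 : Continuous (fun z : ℝ × ℝ => (((Real.cosh z.1 ^ 2)⁻¹ : ℝ) : ℂ)) :=
    Complex.continuous_ofReal.comp (Continuous.inv₀ (by fun_prop) hc)
  have c6 : Continuous (fun z : ℝ × ℝ => ((Real.tanh z.1 : ℝ) : ℂ)) := by
    refine Complex.continuous_ofReal.comp ?_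
    have e : (fun z : ℝ × ℝ => Real.tanh z.1) = fun z => Real.sinh z.1 / Real.cosh z.1 := by
      funext z; exact Real.tanh_eq_sinh_div_cosh z.1
    rw [e]
    exact Continuous.div (by fun_prop) (by fun_prop) (fun z => (Real.cosh_pos _).ne')
  unfold Lop
  exact ((c3.add (c6.mul c1)).add (c5.mul c4)).neg.sub (continuous_const.mul c0)

/-- Product with a function of the second variable. -/
theorem dr_mul (g : ℝ → ℂ) (φ : ℝ × ℝ → ℂ) :
    dr (fun z => g z.2 * φ z) = fun z => g z.2 * dr φ z := by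
  funext z
  unfold dr
  exact deriv_const_mul_field (𝕜 := ℝ) (𝕜' := ℂ) (g z.2) (v := fun x : ℝ => φ (x, z.2))

theorem dt_mul (g : ℝ → ℂ) (φ : ℝ × ℝ → ℂ) (hg : Differentiable ℝ g)
    (hφ : Differentiable ℝ φ) :
    dt (fun z => g z.2 * φ z) = fun z => deriv g z.2 * φ z + g z.2 * dt φ z := by
  funext z
  unfold dt
  have h1 : DifferentiableAt ℝ (fun x : ℝ => φ (z.1, x)) z.2 := by
    have : Differentiable ℝ (fun x : ℝ => φ (z.1, x)) := by
      exact hφ.comp ((differentiable_const _).prodMk differentiable_id)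
    exact this _
  have h2 := deriv_fun_mul (hg z.2) h1
  exact h2

theorem dt_add (f g : ℝ × ℝ → ℂ) (hf : Differentiable ℝ f) (hg : Differentiable ℝ g) :
    dt (fun z => f z + g z) = fun z => dt f z + dt g z := by
  funext z
  unfold dt
  have h1 : ∀ h : ℝ × ℝ → ℂ, Differentiable ℝ h →
      DifferentiableAt ℝ (fun x : ℝ => h (z.1, x)) z.2 := by
    intro h hh
    have : Differentiable ℝ (fun x : ℝ => h (z.1, x)) :=
      hh.comp ((differentiable_const _).prodMk differentiable_id)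
    exact this _
  exact deriv_fun_add (h1 f hf) (h1 g hg)

theorem Lop_mul (s : ℂ) (g : ℝ → ℂ) (φ : ℝ × ℝ → ℂ) (hg : ContDiff ℝ 2 g)
    (hφ : ContDiff ℝ 2 φ) (z : ℝ × ℝ) :
    Lop s (fun z => g z.2 * φ z) z = g z.2 * Lop s φ z -
      (((Real.cosh z.1 ^ 2)⁻¹ : ℝ) : ℂ) * (2 * deriv g z.2 * dt φ z + deriv (deriv g) z.2 * φ z) := by
  have hgd : Differentiable ℝ g := hg.differentiable (by simp)
  have hφd : Differentiable ℝ φ := hφ.differentiable (by simp)
  have hg1 : ContDiff ℝ 1 (deriv g) := by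
    have h := (contDiff_succ_iff_deriv (n := 1) (𝕜 := ℝ) (f := g)).mp
      (by simpa [one_add_one_eq_two] using hg)
    exact h.2.2
  have hgd1 : Differentiable ℝ (deriv g) := hg1.differentiable (by simp)
  have h2 : ContDiff ℝ 1 (dt φ) := dt_cd φ 1 (by simpa [one_add_one_eq_two] using hφ)
  have hφd1 : Differentiable ℝ (dt φ) := h2.differentiable (by simp)
  have hsnd : Differentiable ℝ (fun z : ℝ × ℝ => z.2) := differentiable_snd
  have e1 : dr (fun z => g z.2 * φ z) = fun z => g z.2 * dr φ z := dr_mul g φ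
  have e2 : dr (dr (fun z => g z.2 * φ z)) = fun z => g z.2 * dr (dr φ) z := by
    rw [e1]; exact dr_mul g (dr φ)
  have e3 : dt (dt (fun z => g z.2 * φ z)) = fun z =>
      (deriv (deriv g) z.2 * φ z + deriv g z.2 * dt φ z) +
        (deriv g z.2 * dt φ z + g z.2 * dt (dt φ) z) := by
    rw [dt_mul g φ hgd hφd, dt_add (fun z => deriv g z.2 * φ z) (fun z => g z.2 * dt φ z)
      ((hgd1.comp hsnd).mul hφd) ((hgd.comp hsnd).mul hφd1), dt_mul (deriv g) φ hgd1 hφd,
      dt_mul g (dt φ) hgd hφd1]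
  unfold Lop
  rw [e2, e3, e1]
  beta_reduce
  ring

/-! ### periodic functions with bounded support in `r` -/

/-- Periodic in `t`, zero for large `|r|`. -/
def PB (l R : ℝ) (f : ℝ × ℝ → ℂ) : Prop :=
  (∀ r t : ℝ, f (r, t + l) = f (r, t)) ∧ (∀ r t : ℝ, R < |r| → f (r, t) = 0)

theorem PB.bdd {l R : ℝ} (hl : 0 < l) {f : ℝ × ℝ → ℂ} (h : PB l R f) (hc : Continuous f) :
    ∃ M : ℝ, 0 ≤ M ∧ ∀ z, ‖f z‖ ≤ M := by
  have hK : IsCompact (Set.Icc (-R) R ×ˢ Set.Icc (0 : ℝ) l) := isCompact_Icc.prod isCompact_Icc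
  obtain ⟨M, hM⟩ := hK.exists_bound_of_continuousOn hc.continuousOn
  refine ⟨max M 0, le_max_right _ _, ?_⟩
  rintro ⟨r, t⟩
  by_cases hr : R < |r|
  · rw [h.2 r t hr, norm_zero]
    exact le_max_right _ _
  · push Not at hr
    have hper : Function.Periodic (fun x => f (r, x)) l := fun x => h.1 r x
    obtain ⟨y, hy, hy2⟩ := hper.exists_mem_Ico₀ hl t
    have e : f (r, t) = f (r, y) := hy2
    rw [e]
    refine (hM (r, y) ⟨?_, hy.1, hy.2.le⟩).trans (le_max_left _ _)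
    exact abs_le.mp hr

theorem PB.dt {l R : ℝ} {f : ℝ × ℝ → ℂ} (h : PB l R f) : PB l R (dt f) := by
  refine ⟨fun r t => ?_, fun r t hr => ?_⟩
  · unfold EC.dt
    have e : (fun x : ℝ => f (r, x)) = fun x : ℝ => f (r, x + l) := by
      funext x; exact (h.1 r x).symm
    have h2 : deriv (fun x : ℝ => f (r, x + l)) t = deriv (fun x : ℝ => f (r, x)) (t + l) :=
      deriv_comp_add_const (fun x => f (r, x)) l t
    show deriv (fun x : ℝ => f (r, x)) (t + l) = deriv (fun x : ℝ => f (r, x)) t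
    rw [← h2, ← e]
  · unfold EC.dt
    have e : (fun x : ℝ => f (r, x)) = fun _ => 0 := by
      funext x; exact h.2 r x hr
    show deriv (fun x : ℝ => f (r, x)) t = 0
    rw [e]; simp

theorem PB.dr {l R : ℝ} {f : ℝ × ℝ → ℂ} (h : PB l R f) : PB l R (dr f) := by
  refine ⟨fun r t => ?_, fun r t hr => ?_⟩
  · show deriv (fun x : ℝ => f (x, t + l)) r = deriv (fun x : ℝ => f (x, t)) r
    have e : (fun x : ℝ => f (x, t + l)) = fun x : ℝ => f (x, t) := by
      funext x; exact h.1 x t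
    rw [e]
  · show deriv (fun x : ℝ => f (x, t)) r = 0
    have hopen : IsOpen {x : ℝ | R < |x|} := isOpen_lt continuous_const continuous_abs
    have e : (fun x : ℝ => f (x, t)) =ᶠ[𝓝 r] fun _ => 0 := by
      filter_upwards [hopen.mem_nhds hr] with x hx
      exact h.2 x t hx
    rw [e.deriv_eq]; simp

theorem PB.Lop {l R : ℝ} {f : ℝ × ℝ → ℂ} (h : PB l R f) (s : ℂ) : PB l R (Lop s f) := by
  refine ⟨fun r t => ?_, fun r t hr => ?_⟩
  · unfold EC.Lop
    rw [h.dr.dr.1, h.dr.1, h.dt.dt.1, h.1]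
  · unfold EC.Lop
    rw [h.dr.dr.2 r t hr, h.dr.2 r t hr, h.dt.dt.2 r t hr, h.2 r t hr]
    simp

/-- One-dimensional unfolding. -/
theorem unfold1 (f : ℝ → ℂ) (hf : Integrable f) (l : ℝ) (hl : 0 < l) :
    ∫ x, f x = ∫ x in (0 : ℝ)..l, ∑' k : ℤ, f (x + (k : ℝ) * l) := by
  have hU : ⋃ n : ℤ, Set.Ioc (0 + n • l) (0 + (n + 1) • l) = Set.univ := iUnion_Ioc_add_zsmul hl 0
  have hD : Pairwise (Function.onFun Disjoint fun n : ℤ => Set.Ioc (0 + n • l) (0 + (n + 1) • l)) :=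
    Set.pairwise_disjoint_Ioc_add_zsmul 0 l
  have hshift : ∀ (E : Type) [NormedAddCommGroup E] [NormedSpace ℝ E] (g : ℝ → E) (n : ℤ),
      ∫ x in Set.Ioc (0 + n • l) (0 + (n + 1) • l), g x = ∫ x in Set.Ioc 0 l, g (x + (n : ℝ) * l) := by
    intro E _ _ g n
    have h1 : (0 : ℝ) + n • l ≤ 0 + (n + 1) • l := by
      simp only [zsmul_eq_mul]; push_cast; linarith
    rw [← intervalIntegral.integral_of_le h1, ← intervalIntegral.integral_of_le hl.le,
      intervalIntegral.integral_comp_add_right]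
    congr 1
    · simp only [zsmul_eq_mul]
    · simp only [zsmul_eq_mul]; push_cast; ring
  have hs := hasSum_integral_iUnion (μ := volume) (f := f)
    (fun n : ℤ => (measurableSet_Ioc : MeasurableSet (Set.Ioc (0 + n • l) (0 + (n + 1) • l)))) hD
    (by rw [hU]; exact hf.integrableOn)
  have hs2 := hasSum_integral_iUnion (μ := volume) (f := fun x => ‖f x‖)
    (fun n : ℤ => (measurableSet_Ioc : MeasurableSet (Set.Ioc (0 + n • l) (0 + (n + 1) • l)))) hD
    (by rw [hU]; exact hf.norm.integrableOn)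
  rw [hU, Measure.restrict_univ] at hs
  simp only [hshift] at hs hs2
  rw [← hs.tsum_eq, intervalIntegral.integral_of_le hl.le]
  refine integral_tsum_of_summable_integral_norm (fun k => ?_) hs2.summable
  exact (hf.comp_add_right ((k : ℝ) * l)).integrableOn

/-- The cut off functions. -/
noncomputable def cut (G0 : ℝ → ℂ) (c : ℝ) (x : ℝ) : ℂ := G0 (c * x)

theorem deriv_cut (G0 : ℝ → ℂ) (c : ℝ) : deriv (cut G0 c) = fun x => (c : ℂ) * cut (deriv G0) c x := by
  funext x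
  unfold cut
  rw [deriv_comp_mul_left c G0 x]
  simp

theorem deriv2_cut (G0 : ℝ → ℂ) (c : ℝ) :
    deriv (deriv (cut G0 c)) = fun x => (c : ℂ) * ((c : ℂ) * cut (deriv (deriv G0)) c x) := by
  rw [deriv_cut]
  funext x
  have h : deriv (fun x => (c : ℂ) * cut (deriv G0) c x) x = (c : ℂ) * deriv (cut (deriv G0) c) x :=
    deriv_const_mul_field (𝕜 := ℝ) (𝕜' := ℂ) (c : ℂ) (v := cut (deriv G0) c)
  rw [h, deriv_cut]

theorem exists_G0 : ∃ G0 : ℝ → ℂ, ContDiff ℝ 2 G0 ∧ HasCompactSupport G0 ∧ G0 0 = 1 := by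
  let b : ContDiffBump (0 : ℝ) := ⟨1, 2, one_pos, one_lt_two⟩
  refine ⟨fun x => ((b x : ℝ) : ℂ), ?_, ?_, ?_⟩
  · exact Complex.ofRealCLM.contDiff.comp b.contDiff
  · exact b.hasCompactSupport.comp_left (g := fun x : ℝ => (x : ℂ)) (by simp)
  · have h : b 0 = 1 := b.one_of_mem_closedBall (by simp [b])
    show ((b 0 : ℝ) : ℂ) = 1
    rw [h]; simp

/-- The plane statement for periodic functions, with the integrability of the integrand. -/
theorem plane (hR : S_RES) (l : ℝ) (hl : 0 < l) (s : ℂ) (hs : 0 < s.re) (φ : ℝ × ℝ → ℂ)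
    (hφ : ContDiff ℝ 2 φ) (R : ℝ) (hPB : PB l R φ) (r t : ℝ) :
    (∫ z : ℝ × ℝ, G s ((cd r t z.1 z.2 - 1) / 2) * Lop s φ z * ((Real.cosh z.1 : ℝ) : ℂ) =
      φ (r, t)) ∧
    Integrable (fun z : ℝ × ℝ => G s ((cd r t z.1 z.2 - 1) / 2) * Lop s φ z *
      ((Real.cosh z.1 : ℝ) : ℂ)) ∧
    ∀ r' : ℝ, Integrable (fun τ : ℝ => G s ((cd r t r' τ - 1) / 2) * Lop s φ (r', τ) *
      ((Real.cosh r' : ℝ) : ℂ)) := by
  obtain ⟨G0, hG0, hG0c, hG01⟩ := exists_G0
  set η := min s.re (1 / 4) with hη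
  have hη0 : 0 < η := lt_min hs (by norm_num)
  obtain ⟨C, hC, hgg⟩ := gg_bound s η hη0 (min_le_left _ _)
  have hkf := kf_int η hη0 (min_le_right _ _)
  have hLc : Continuous (Lop s φ) := Lop_cont s φ hφ
  obtain ⟨M1, hM10, hM1⟩ := (hPB.Lop s).bdd hl hLc
  have hdtc : ContDiff ℝ 1 (dt φ) := dt_cd φ 1 (by simpa [one_add_one_eq_two] using hφ)
  obtain ⟨M2, hM20, hM2⟩ := hPB.dt.bdd hl hdtc.continuous
  obtain ⟨M3, hM30, hM3⟩ := hPB.bdd hl hφ.continuous
  -- bounds for the cut off function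
  have hG1 : ContDiff ℝ 1 (deriv G0) := by
    have h := (contDiff_succ_iff_deriv (n := 1) (𝕜 := ℝ) (f := G0)).mp
      (by simpa [one_add_one_eq_two] using hG0)
    exact h.2.2
  have hG2 : Continuous (deriv (deriv G0)) := by
    have h := (contDiff_succ_iff_deriv (n := 0) (𝕜 := ℝ) (f := deriv G0)).mp
      (by simpa using hG1)
    exact h.2.2.continuous
  obtain ⟨A0, hA0⟩ := hG0.continuous.bounded_above_of_compact_support hG0c
  obtain ⟨A1, hA1⟩ := hG1.continuous.bounded_above_of_compact_support hG0c.deriv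
  obtain ⟨A2, hA2⟩ := hG2.bounded_above_of_compact_support hG0c.deriv.deriv
  have hA00 : 0 ≤ A0 := (norm_nonneg _).trans (hA0 0)
  have hA10 : 0 ≤ A1 := (norm_nonneg _).trans (hA1 0)
  have hA20 : 0 ≤ A2 := (norm_nonneg _).trans (hA2 0)
  let cn : ℕ → ℝ := fun n => 1 / ((n : ℝ) + 1)
  have hcn0 : ∀ n, 0 < cn n := fun n => by positivity
  have hcn1 : ∀ n, cn n ≤ 1 := fun n => by
    show 1 / ((n : ℝ) + 1) ≤ 1
    rw [div_le_one (by positivity)]
    have : (0 : ℝ) ≤ n := Nat.cast_nonneg n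
    linarith
  have hcnt : Tendsto cn atTop (𝓝 0) := tendsto_one_div_add_atTop_nhds_zero_nat
  let gn : ℕ → ℝ → ℂ := fun n => cut G0 (cn n)
  have hgn : ∀ n, ContDiff ℝ 2 (gn n) := fun n => by
    show ContDiff ℝ 2 (fun x => G0 (cn n * x))
    exact hG0.comp (contDiff_const.mul contDiff_id)
  let ψ : ℕ → ℝ × ℝ → ℂ := fun n z => gn n z.2 * φ z
  have hψ : ∀ n, ContDiff ℝ 2 (ψ n) := fun n => ((hgn n).comp contDiff_snd).mul hφ
  have hLψ : ∀ n z, Lop s (ψ n) z = gn n z.2 * Lop s φ z -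
      (((Real.cosh z.1 ^ 2)⁻¹ : ℝ) : ℂ) * (2 * deriv (gn n) z.2 * dt φ z +
        deriv (deriv (gn n)) z.2 * φ z) := fun n z => Lop_mul s (gn n) φ (hgn n) hφ z
  have hψs : ∀ n, HasCompactSupport (ψ n) := by
    intro n
    obtain ⟨B, hB⟩ := hG0c.isCompact.isBounded.subset_closedBall (0 : ℝ)
    refine HasCompactSupport.intro
      (isCompact_Icc.prod isCompact_Icc : IsCompact (Set.Icc (-R) R ×ˢ
        Set.Icc (-(B / cn n)) (B / cn n))) (fun z hz => ?_)
    show gn n z.2 * φ z = 0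
    by_cases h1 : R < |z.1|
    · have : φ z = 0 := hPB.2 z.1 z.2 h1
      rw [this, mul_zero]
    · push Not at h1
      have h2 : ¬ |z.2| ≤ B / cn n := fun h3 => hz ⟨abs_le.mp h1, abs_le.mp h3⟩
      have h4 : G0 (cn n * z.2) = 0 := by
        by_contra h5
        have h6 : cn n * z.2 ∈ tsupport G0 := subset_tsupport _ h5
        have h7 := hB h6
        rw [mem_closedBall_zero_iff, Real.norm_eq_abs, abs_mul, abs_of_pos (hcn0 n)] at h7
        apply h2
        rw [le_div_iff₀ (hcn0 n)]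
        linarith
      show G0 (cn n * z.2) * φ z = 0
      rw [h4, zero_mul]
  -- domination
  set M := A0 * M1 + (2 * A1 * M2 + A2 * M3) with hM
  have hM0 : 0 ≤ M := by positivity
  have hcosh1 : ∀ x : ℝ, |((Real.cosh x ^ 2)⁻¹ : ℝ)| ≤ 1 := by
    intro x
    have h1 := Real.one_le_cosh x
    rw [abs_of_nonneg (by positivity)]
    exact inv_le_one_of_one_le₀ (by nlinarith)
  have hgn1 : ∀ n x, deriv (gn n) x = (cn n : ℂ) * cut (deriv G0) (cn n) x := by
    intro n x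
    show deriv (cut G0 (cn n)) x = _
    rw [deriv_cut]
  have hgn2 : ∀ n x, deriv (deriv (gn n)) x =
      (cn n : ℂ) * ((cn n : ℂ) * cut (deriv (deriv G0)) (cn n) x) := by
    intro n x
    show deriv (deriv (cut G0 (cn n))) x = _
    rw [deriv2_cut]
  have hcnn : ∀ n, ‖(cn n : ℂ)‖ ≤ 1 := fun n => by
    rw [Complex.norm_real, Real.norm_of_nonneg (hcn0 n).le]; exact hcn1 n
  have hLb : ∀ n z, ‖Lop s (ψ n) z‖ ≤ M := by
    intro n z
    rw [hLψ]
    refine (norm_sub_le _ _).trans ?_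
    have h1 : ‖gn n z.2 * Lop s φ z‖ ≤ A0 * M1 := by
      rw [norm_mul]
      exact mul_le_mul (hA0 _) (hM1 _) (norm_nonneg _) hA00
    have h2 : ‖2 * deriv (gn n) z.2 * dt φ z‖ ≤ 2 * A1 * M2 := by
      rw [norm_mul, norm_mul, hgn1, norm_mul]
      have e : ‖(2 : ℂ)‖ = 2 := by simp
      rw [e]
      have h3 : ‖(cn n : ℂ)‖ * ‖cut (deriv G0) (cn n) z.2‖ ≤ 1 * A1 :=
        mul_le_mul (hcnn n) (hA1 _) (norm_nonneg _) zero_le_one
      have h4 : 2 * (‖(cn n : ℂ)‖ * ‖cut (deriv G0) (cn n) z.2‖) ≤ 2 * A1 := by linarith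
      exact mul_le_mul h4 (hM2 _) (norm_nonneg _) (by positivity)
    have h3 : ‖deriv (deriv (gn n)) z.2 * φ z‖ ≤ A2 * M3 := by
      rw [norm_mul, hgn2, norm_mul, norm_mul]
      have h3 : ‖(cn n : ℂ)‖ * ‖cut (deriv (deriv G0)) (cn n) z.2‖ ≤ 1 * A2 :=
        mul_le_mul (hcnn n) (hA2 _) (norm_nonneg _) zero_le_one
      have h4 : ‖(cn n : ℂ)‖ * (‖(cn n : ℂ)‖ * ‖cut (deriv (deriv G0)) (cn n) z.2‖) ≤ 1 * (1 * A2) :=
        mul_le_mul (hcnn n) h3 (by positivity) zero_le_one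
      rw [one_mul, one_mul] at h4
      exact mul_le_mul h4 (hM3 _) (norm_nonneg _) hA20
    have h5 : ‖(((Real.cosh z.1 ^ 2)⁻¹ : ℝ) : ℂ) * (2 * deriv (gn n) z.2 * dt φ z +
        deriv (deriv (gn n)) z.2 * φ z)‖ ≤ 1 * (2 * A1 * M2 + A2 * M3) := by
      rw [norm_mul, Complex.norm_real, Real.norm_eq_abs]
      exact mul_le_mul (hcosh1 _) ((norm_add_le _ _).trans (add_le_add h2 h3)) (norm_nonneg _)
        zero_le_one
    rw [one_mul] at h5
    exact add_le_add h1 h5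
  have hPψ : ∀ n z, R < |z.1| → Lop s (ψ n) z = 0 := by
    intro n z hz
    rw [hLψ, (hPB.Lop s).2 z.1 z.2 hz, hPB.dt.2 z.1 z.2 hz, hPB.2 z.1 z.2 hz]
    simp
  let bd : ℝ × ℝ → ℝ := fun z => (Set.indicator (Set.Icc (-R) R) (fun _ => C * M * Real.cosh R) z.1) *
    kf η (z.2 - t)
  have hbd : Integrable bd := by
    have h1 : Integrable (Set.indicator (Set.Icc (-R) R) (fun _ : ℝ => C * M * Real.cosh R)) :=
      (integrable_indicator_iff measurableSet_Icc).mpr
        (continuousOn_const.integrableOn_Icc)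
    exact h1.mul_prod (hkf.comp_sub_right t)
  have hne : ∀ᵐ z : ℝ × ℝ, z.2 ≠ t := by
    rw [ae_iff]
    have e : {z : ℝ × ℝ | ¬ z.2 ≠ t} = Set.univ ×ˢ {t} := by
      ext z; simp
    rw [e, Measure.volume_eq_prod, Measure.prod_prod]
    simp
  have hbound : ∀ (L : ℝ × ℝ → ℂ), (∀ z, ‖L z‖ ≤ M) → (∀ z, R < |z.1| → L z = 0) →
      ∀ z : ℝ × ℝ, z.2 ≠ t →
      ‖G s ((cd r t z.1 z.2 - 1) / 2) * L z * ((Real.cosh z.1 : ℝ) : ℂ)‖ ≤ bd z := by
    intro L hL1 hL2 z hz
    by_cases h1 : R < |z.1|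
    · rw [hL2 z h1, mul_zero, zero_mul, norm_zero]
      exact mul_nonneg (Set.indicator_nonneg (fun _ _ => by positivity) _) (kf_nonneg _ _)
    · push Not at h1
      show _ ≤ Set.indicator (Set.Icc (-R) R) (fun _ => C * M * Real.cosh R) z.1 * kf η (z.2 - t)
      rw [Set.indicator_of_mem (show z.1 ∈ Set.Icc (-R) R from abs_le.mp h1)]
      rw [norm_mul, norm_mul, Complex.norm_real, Real.norm_of_nonneg (Real.cosh_pos _).le]
      have h2 : Real.cosh z.1 ≤ Real.cosh R := by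
        rw [Real.cosh_le_cosh]
        exact h1.trans (le_abs_self R)
      calc ‖G s ((cd r t z.1 z.2 - 1) / 2)‖ * ‖L z‖ * Real.cosh z.1
          ≤ (C * kf η (z.2 - t)) * M * Real.cosh R := by
            refine mul_le_mul (mul_le_mul (hgg r t z.1 z.2 hz) (hL1 z) (norm_nonneg _) ?_) h2
              (Real.cosh_pos _).le ?_
            · exact mul_nonneg hC (kf_nonneg _ _)
            · exact mul_nonneg (mul_nonneg hC (kf_nonneg _ _)) hM0
        _ = C * M * Real.cosh R * kf η (z.2 - t) := by ring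
  have hA01 : 1 ≤ A0 := by
    have := hA0 0
    rw [hG01, norm_one] at this
    exact this
  have hφb : ∀ z, ‖Lop s φ z‖ ≤ M := by
    intro z
    have h1 : 1 * M1 ≤ A0 * M1 := mul_le_mul_of_nonneg_right hA01 hM10
    have h2 : 0 ≤ 2 * A1 * M2 + A2 * M3 := by positivity
    have h3 := hM1 z
    rw [hM]
    linarith
  have hmeas : ∀ L : ℝ × ℝ → ℂ, Continuous L →
      Measurable (fun z : ℝ × ℝ => G s ((cd r t z.1 z.2 - 1) / 2) * L z *
        ((Real.cosh z.1 : ℝ) : ℂ)) := by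
    intro L hL
    exact ((gg_meas s r t).mul hL.measurable).mul
      (Complex.continuous_ofReal.comp (Real.continuous_cosh.comp continuous_fst)).measurable
  have hlimg : ∀ (H : ℝ → ℂ), Continuous H → ∀ x,
      Tendsto (fun n => cut H (cn n) x) atTop (𝓝 (H 0)) := by
    intro H hH x
    have h1 : Tendsto (fun n => cn n * x) atTop (𝓝 (0 * x)) := hcnt.mul_const x
    rw [zero_mul] at h1
    exact (hH.tendsto 0).comp h1
  have hcnc : Tendsto (fun n => (cn n : ℂ)) atTop (𝓝 0) := by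
    have h1 := (Complex.continuous_ofReal.tendsto 0).comp hcnt
    rw [Complex.ofReal_zero] at h1
    exact h1
  have hlim : ∀ z, Tendsto (fun n => Lop s (ψ n) z) atTop (𝓝 (Lop s φ z)) := by
    intro z
    have h1 := hlimg G0 hG0.continuous z.2
    rw [hG01] at h1
    have h2 := hcnc.mul (hlimg (deriv G0) hG1.continuous z.2)
    have h3 := hcnc.mul (hcnc.mul (hlimg (deriv (deriv G0)) hG2 z.2))
    have h4 := (h1.mul_const (Lop s φ z)).sub
      ((((h2.const_mul 2).mul_const (dt φ z)).add (h3.mul_const (φ z))).const_mul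
        ((((Real.cosh z.1 ^ 2)⁻¹ : ℝ) : ℂ)))
    have e1 : (1 : ℂ) * Lop s φ z - (((Real.cosh z.1 ^ 2)⁻¹ : ℝ) : ℂ) *
        (2 * (0 * deriv G0 0) * dt φ z + 0 * (0 * deriv (deriv G0) 0) * φ z) = Lop s φ z := by ring
    rw [e1] at h4
    refine h4.congr (fun n => ?_)
    rw [hLψ, hgn1, hgn2]
  refine ⟨?_, ?_, ?_⟩
  · have h1 : Tendsto (fun n => ∫ z : ℝ × ℝ, G s ((cd r t z.1 z.2 - 1) / 2) * Lop s (ψ n) z *
        ((Real.cosh z.1 : ℝ) : ℂ)) atTop
        (𝓝 (∫ z : ℝ × ℝ, G s ((cd r t z.1 z.2 - 1) / 2) * Lop s φ z *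
          ((Real.cosh z.1 : ℝ) : ℂ))) := by
      refine tendsto_integral_of_dominated_convergence bd
        (fun n => (hmeas _ (Lop_cont s _ (hψ n))).aestronglyMeasurable) hbd (fun n => ?_) ?_
      · filter_upwards [hne] with z hz
        exact hbound _ (hLb n) (hPψ n) z hz
      · refine Eventually.of_forall (fun z => ?_)
        exact ((hlim z).const_mul _).mul_const _
    have h2 : Tendsto (fun n => ψ n (r, t)) atTop (𝓝 (φ (r, t))) := by
      have h3 := (hlimg G0 hG0.continuous t).mul_const (φ (r, t))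
      rw [hG01, one_mul] at h3
      exact h3
    refine tendsto_nhds_unique h1 (h2.congr (fun n => ?_))
    exact (hR s hs (ψ n) (hψ n) (hψs n) r t).symm
  · refine hbd.mono' (hmeas _ hLc).aestronglyMeasurable ?_
    filter_upwards [hne] with z hz
    exact hbound _ hφb (fun z hz => (hPB.Lop s).2 z.1 z.2 hz) z hz
  · intro r'
    have hm := (hmeas _ hLc).comp (measurable_prodMk_left (x := r'))
    have hb2 : Integrable (fun τ : ℝ => bd (r', τ)) := by
      show Integrable (fun τ : ℝ =>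
        (Set.indicator (Set.Icc (-R) R) (fun _ => C * M * Real.cosh R) r') * kf η (τ - t))
      exact (hkf.comp_sub_right t).const_mul _
    refine hb2.mono' hm.aestronglyMeasurable ?_
    have hne1 : ∀ᵐ τ : ℝ, τ ≠ t := by
      rw [ae_iff]; simp
    filter_upwards [hne1] with τ hτ
    exact hbound _ hφb (fun z hz => (hPB.Lop s).2 z.1 z.2 hz) (r', τ) hτ

end Unf

open Unf in
theorem unf (hR : S_RES) : S_UNF := by
  intro l hl s hs φ hφ hper hsup r t
  obtain ⟨R, hRz⟩ := hsup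
  have hPB : PB l R φ := ⟨hper, hRz⟩
  obtain ⟨h1, h2, h3⟩ := plane hR l hl s hs φ hφ R hPB r t
  rw [← h1]
  rw [Measure.volume_eq_prod] at h2 ⊢
  rw [integral_prod _ h2]
  refine integral_congr_ae (Eventually.of_forall (fun r' => ?_))
  beta_reduce
  rw [unfold1 _ (h3 r') l hl]
  refine intervalIntegral.integral_congr (fun x _ => ?_)
  have hk : ∀ k : ℤ, Lop s φ (r', x + (k : ℝ) * l) = Lop s φ (r', x) := by
    intro k
    have hp : Function.Periodic (fun y => Lop s φ (r', y)) l := fun y => (hPB.Lop s).1 r' y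
    exact hp.int_mul k x
  unfold RX
  rw [← tsum_mul_right, ← tsum_mul_right]
  refine tsum_congr (fun k => ?_)
  rw [hk]

end Pool.Agent.R436.EC
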