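import Pool.Agent.R436.EC.ResAll
import Pool.Agent.R436.EC.Unf

/-! `RX` is the kernel of `(Δ - s (1 - s))⁻¹` on the cylinder. -/

set_option autoImplicit false

namespace Pool.Agent.R436.EC

theorem unf_all : S_UNF := unf res_all

end Pool.Agent.R436.EC
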